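import Pool.Agent.Lib.MP_72646e_co.Low.Stmts

set_option autoImplicit false

/-! L3: elementary properties of `ball`. -/

namespace Pool.Agent.Lib.MP_72646e_co.Low

open Finset

theorem basic_nrm_le {m : ℕ} (t : Fin (2 * m)) : nrm t ≤ m := by
  unfold nrm
  have := t.isLt
  omega

theorem basic_nm_le {m d : ℕ} (x : Fin d → Fin (2 * m)) : nm x ≤ d * m := by
  unfold nm
  calc ∑ i, nrm (x i) ≤ ∑ _i : Fin d, m := Finset.sum_le_sum fun i _ => basic_nrm_le (x i)
    _ = d * m := by simp

theorem basic_cl_mono : Monotone cl := by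
  intro a b h
  unfold cl
  exact max_le_max le_rfl (min_le_min le_rfl h)

theorem basic_cl_cont : Continuous cl := by
  unfold cl
  exact continuous_const.max (continuous_const.min continuous_id)

theorem basic_cl_zero {x : ℝ} (h : x ≤ 0) : cl x = 0 := by
  unfold cl
  exact max_eq_left ((min_le_right _ _).trans h)

theorem basic_cl_one {x : ℝ} (h : 1 ≤ x) : cl x = 1 := by
  unfold cl
  rw [min_eq_left h]
  norm_num

theorem basic_cl_mid {x : ℝ} (h0 : 0 ≤ x) (h1 : x ≤ 1) : cl x = x := by
  unfold cl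
  rw [min_eq_right h1, max_eq_right h0]

theorem basic_cl_symm (x : ℝ) : cl x + cl (1 - x) = 1 := by
  rcases le_total x 0 with h | h
  · rw [basic_cl_zero h, basic_cl_one (by linarith)]; norm_num
  · rcases le_total x 1 with h1 | h1
    · rw [basic_cl_mid h h1, basic_cl_mid (by linarith) (by linarith)]; ring
    · rw [basic_cl_one h1, basic_cl_zero (by linarith)]; norm_num

theorem basic_exists {m : ℕ} (hm : 1 ≤ m) : ∀ (d a : ℕ), a ≤ d * m →
    ∃ x : Fin d → Fin (2 * m), nm x = a := by
  intro d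
  induction d with
  | zero =>
    intro a ha
    refine ⟨fun i => i.elim0, ?_⟩
    have : a = 0 := by omega
    subst this
    simp [nm]
  | succ d ih =>
    intro a ha
    have h1 : a - min a m ≤ d * m := by
      rw [Nat.succ_mul] at ha
      omega
    obtain ⟨y, hy⟩ := ih _ h1
    refine ⟨Fin.cons ⟨min a m, by omega⟩ y, ?_⟩
    unfold nm at hy ⊢
    rw [Fin.sum_univ_succ]
    simp only [Fin.cons_zero, Fin.cons_succ]
    rw [hy]
    unfold nrm
    simp only
    omega

/-- The antipodal map of the even cycle. -/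
def basicFlip {m : ℕ} (t : Fin (2 * m)) : Fin (2 * m) :=
  if h : (t : ℕ) < m then ⟨t + m, by omega⟩ else ⟨t - m, by have := t.isLt; omega⟩

theorem basicFlip_flip {m : ℕ} (t : Fin (2 * m)) : basicFlip (basicFlip t) = t := by
  have ht := t.isLt
  apply Fin.ext
  unfold basicFlip
  by_cases h : (t : ℕ) < m
  · have h2 : ¬ ((t : ℕ) + m < m) := by omega
    simp [h]
  · have h2 : (t : ℕ) - m < m := by omega
    simp only [h, dite_false, h2, dite_true]
    omega

theorem basicFlip_nrm {m : ℕ} (t : Fin (2 * m)) : nrm (basicFlip t) + nrm t = m := by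
  have ht := t.isLt
  unfold basicFlip nrm
  by_cases h : (t : ℕ) < m
  · simp only [h, dite_true]
    omega
  · simp only [h, dite_false]
    omega

/-- The antipodal map of the torus. -/
def basicFlipEquiv (m d : ℕ) : (Fin d → Fin (2 * m)) ≃ (Fin d → Fin (2 * m)) where
  toFun x := fun i => basicFlip (x i)
  invFun x := fun i => basicFlip (x i)
  left_inv x := by funext i; exact basicFlip_flip _
  right_inv x := by funext i; exact basicFlip_flip _

theorem basicFlip_nm {m d : ℕ} (x : Fin d → Fin (2 * m)) :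
    nm (basicFlipEquiv m d x) + nm x = d * m := by
  unfold nm basicFlipEquiv
  simp only [Equiv.coe_fn_mk]
  rw [← Finset.sum_add_distrib]
  simp [basicFlip_nrm]

theorem basic_card (m d : ℕ) : ((univ : Finset (Fin d → Fin (2 * m))).card : ℝ) = (2 * m) ^ d := by
  rw [Finset.card_univ, Fintype.card_fun]
  simp

theorem basic_fiber (m d : ℕ) (ρ : ℝ) :
    ball m d ρ = ∑ i ∈ range (d * m + 1), sph m d i * cl (ρ + 1 - i) := by
  unfold ball
  rw [← Finset.sum_fiberwise_of_maps_to (s := (univ : Finset (Fin d → Fin (2 * m))))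
    (t := range (d * m + 1)) (g := fun x => nm x)
    (fun x _ => by simpa using Nat.lt_succ_of_le (basic_nm_le x))]
  refine Finset.sum_congr rfl fun i _ => ?_
  have : ∀ x ∈ univ.filter (fun x : Fin d → Fin (2 * m) => nm x = i),
      cl (ρ + 1 - (nm x : ℝ)) = cl (ρ + 1 - i) := by
    intro x hx
    rw [(Finset.mem_filter.mp hx).2]
  rw [Finset.sum_congr rfl this, Finset.sum_const, nsmul_eq_mul]
  unfold sph
  congr 2
  · congr 1
    ext x
    simp

theorem basic_int (m d r : ℕ) :
    ball m d r = ((univ.filter fun x : Fin d → Fin (2 * m) => nm x ≤ r).card : ℝ) := by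
  unfold ball
  rw [Finset.card_filter]
  push_cast
  refine Finset.sum_congr rfl fun x _ => ?_
  split_ifs with h
  · rw [basic_cl_one]
    have : ((nm x : ℕ) : ℝ) ≤ r := by exact_mod_cast h
    linarith
  · rw [basic_cl_zero]
    have : ((r + 1 : ℕ) : ℝ) ≤ (nm x : ℝ) := by exact_mod_cast (by omega)
    push_cast at this
    linarith

theorem basic_mono (m d : ℕ) : Monotone (ball m d) := by
  intro a b h
  unfold ball
  exact Finset.sum_le_sum fun x _ => basic_cl_mono (by linarith)

theorem basic_full {m d : ℕ} {ρ : ℝ} (h : (d * m : ℝ) ≤ ρ) : ball m d ρ = (2 * m) ^ d := by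
  unfold ball
  have : ∀ x ∈ (univ : Finset (Fin d → Fin (2 * m))), cl (ρ + 1 - (nm x : ℝ)) = 1 := by
    intro x _
    apply basic_cl_one
    have : ((nm x : ℕ) : ℝ) ≤ (d * m : ℝ) := by exact_mod_cast basic_nm_le x
    linarith
  rw [Finset.sum_congr rfl this, Finset.sum_const, nsmul_eq_mul, mul_one, basic_card]

theorem basic_zero {m d : ℕ} (hm : 1 ≤ m) : ball m d 0 = 1 := by
  have h := basic_int m d 0
  rw [Nat.cast_zero] at h
  rw [h]
  have : (univ.filter fun x : Fin d → Fin (2 * m) => nm x ≤ 0) =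
      {fun _ => (⟨0, by omega⟩ : Fin (2 * m))} := by
    ext x
    simp only [mem_filter, mem_univ, true_and, mem_singleton]
    constructor
    · intro hx
      funext i
      have h1 : nrm (x i) ≤ nm x := by
        unfold nm
        exact Finset.single_le_sum (f := fun i => nrm (x i)) (fun _ _ => Nat.zero_le _)
          (Finset.mem_univ i)
      apply Fin.ext
      have h2 : nrm (x i) = 0 := by omega
      unfold nrm at h2
      have := (x i).isLt
      simp only
      omega
    · intro hx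
      subst hx
      simp [nm, nrm]
  rw [this]
  simp

theorem basic_strict {m d : ℕ} (hm : 1 ≤ m) {ρ σ : ℝ} (h1 : -1 ≤ ρ) (h2 : ρ < σ)
    (h3 : σ ≤ d * m) : ball m d ρ < ball m d σ := by
  have hf0 : -1 ≤ ⌊ρ⌋ := by
    rw [Int.le_floor]
    push_cast
    exact h1
  have hfl : (⌊ρ⌋ : ℝ) ≤ ρ := Int.floor_le ρ
  have hfu : ρ < ⌊ρ⌋ + 1 := Int.lt_floor_add_one ρ
  have hf1 : ⌊ρ⌋ + 1 ≤ ((d * m : ℕ) : ℤ) := by
    have : (⌊ρ⌋ : ℝ) < ((d * m : ℕ) : ℝ) := by
      push_cast
      linarith
    have h' : ⌊ρ⌋ < ((d * m : ℕ) : ℤ) := by exact_mod_cast this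
    omega
  obtain ⟨a, ha⟩ : ∃ a : ℕ, (a : ℤ) = ⌊ρ⌋ + 1 := ⟨(⌊ρ⌋ + 1).toNat, Int.toNat_of_nonneg (by omega)⟩
  have had : a ≤ d * m := by
    have : (a : ℤ) ≤ ((d * m : ℕ) : ℤ) := by rw [ha]; exact hf1
    exact_mod_cast this
  obtain ⟨x, hx⟩ := basic_exists hm d a had
  have har : (a : ℝ) = (⌊ρ⌋ : ℝ) + 1 := by exact_mod_cast ha
  unfold ball
  refine Finset.sum_lt_sum (fun y _ => basic_cl_mono (by linarith)) ⟨x, Finset.mem_univ x, ?_⟩
  rw [hx, har]
  rw [basic_cl_mid (x := ρ + 1 - ((⌊ρ⌋ : ℝ) + 1)) (by linarith) (by linarith)]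
  rcases le_total (σ + 1 - ((⌊ρ⌋ : ℝ) + 1)) 1 with h | h
  · rw [basic_cl_mid (by linarith) h]
    linarith
  · rw [basic_cl_one h]
    linarith

theorem stBasic : StBasic := by
  intro m d hm
  refine ⟨basic_mono m d, ?_, ?_, basic_zero hm, fun ρ h => basic_full h, ?_,
    fun ρ σ h1 h2 h3 => basic_strict hm h1 h2 h3, basic_int m d, basic_fiber m d⟩
  · unfold ball
    refine continuous_finsetSum _ fun x _ => basic_cl_cont.comp ?_
    exact (continuous_id.add continuous_const).sub continuous_const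
  · intro ρ h
    unfold ball
    refine Finset.sum_eq_zero fun x _ => basic_cl_zero ?_
    have : (0 : ℝ) ≤ (nm x : ℝ) := Nat.cast_nonneg _
    linarith
  · intro ρ
    have h1 : ball m d (d * m - 1 - ρ) =
        ∑ x : Fin d → Fin (2 * m), cl (1 - (ρ + 1 - (nm x : ℝ))) := by
      unfold ball
      rw [← Equiv.sum_comp (basicFlipEquiv m d)]
      refine Finset.sum_congr rfl fun x _ => ?_
      have h2 : ((nm (basicFlipEquiv m d x) : ℕ) : ℝ) + (nm x : ℝ) = (d * m : ℝ) := by
        exact_mod_cast basicFlip_nm x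
      congr 1
      linarith
    rw [h1]
    unfold ball
    rw [← Finset.sum_add_distrib]
    have h3 : ∀ x ∈ (univ : Finset (Fin d → Fin (2 * m))),
        cl (ρ + 1 - (nm x : ℝ)) + cl (1 - (ρ + 1 - (nm x : ℝ))) = 1 := fun x _ => basic_cl_symm _
    rw [Finset.sum_congr rfl h3, Finset.sum_const, nsmul_eq_mul, mul_one, basic_card]

end Pool.Agent.Lib.MP_72646e_co.Low
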