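import Pool.Agent.Lib.MP_72646e_co.Low.Stmts

set_option autoImplicit false

/-! Module LOW-Comp (helper31): compression. -/

namespace Pool.Agent.Lib.MP_72646e_co.Low

open Finset

theorem Comp_sum {n q : ℕ} (j : Fin n) (A : Finset (Fin n → Fin q)) :
    ∑ x : Fin n → Fin q, (univ.filter fun a : Fin q => Function.update x j a ∈ A).card =
      q * A.card := by
  classical
  have hσ : Function.Involutive (fun p : (Fin n → Fin q) × Fin q =>
      (Function.update p.1 j p.2, p.1 j)) := by
    intro p
    simp
  have h1 : ∀ x : Fin n → Fin q, (univ.filter fun a : Fin q => Function.update x j a ∈ A).card =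
      ∑ a : Fin q, if Function.update x j a ∈ A then 1 else 0 := by
    intro x
    rw [Finset.card_filter]
  simp_rw [h1]
  rw [← Fintype.sum_prod_type' (f := fun (x : Fin n → Fin q) (a : Fin q) =>
    if Function.update x j a ∈ A then 1 else 0)]
  rw [← Equiv.sum_comp hσ.toPerm]
  simp only [Function.Involutive.coe_toPerm, Function.update_idem, Function.update_eq_self]
  rw [Fintype.sum_prod_type' (f := fun (x : Fin n → Fin q) (a : Fin q) =>
    if x ∈ A then 1 else 0)]
  simp only [Finset.sum_const, Finset.card_univ, Fintype.card_fin, smul_eq_mul]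
  rw [← Finset.mul_sum, Finset.sum_boole]
  simp

theorem Comp_step {m n D : ℕ} (j : ℕ) (A : Finset (Fin n → Fin (2 * m + 1)))
    (hA : ∀ x ∈ A, ∀ y ∈ A,
      ∑ i : Fin n, (if (i : ℕ) < j then cc m (x i) (y i) else lee (x i) (y i)) ≤ D) :
    ∃ B : Finset (Fin n → Fin (2 * m + 1)), B.card = A.card ∧ ∀ x ∈ B, ∀ y ∈ B,
      ∑ i : Fin n, (if (i : ℕ) < j + 1 then cc m (x i) (y i) else lee (x i) (y i)) ≤ D := by
  classical
  by_cases hj : j < n
  swap
  · refine ⟨A, rfl, fun x hx y hy => ?_⟩
    refine le_trans (le_of_eq ?_) (hA x hx y hy)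
    refine Finset.sum_congr rfl fun i _ => ?_
    have hi := i.2
    rw [if_pos (by omega), if_pos (by omega)]
  set J : Fin n := ⟨j, hj⟩ with hJ
  set F : (Fin n → Fin (2 * m + 1)) → Finset (Fin (2 * m + 1)) := fun x =>
    univ.filter fun a => Function.update x J a ∈ A with hF
  have hFu : ∀ x a, F (Function.update x J a) = F x := by
    intro x a
    simp only [hF, Function.update_idem]
  set B : Finset (Fin n → Fin (2 * m + 1)) := univ.filter fun x => (x J : ℕ) < (F x).card with hB
  refine ⟨B, ?_, ?_⟩
  · have h1 := Comp_sum J A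
    have h2 := Comp_sum J B
    have h3 : ∀ x : Fin n → Fin (2 * m + 1),
        (univ.filter fun a : Fin (2 * m + 1) => Function.update x J a ∈ B).card = (F x).card := by
      intro x
      have h4 : (F x).card ≤ 2 * m + 1 := by
        have := Finset.card_le_univ (F x)
        rwa [Fintype.card_fin] at this
      have h5 : (univ.filter fun a : Fin (2 * m + 1) => Function.update x J a ∈ B) =
          univ.filter fun a : Fin (2 * m + 1) => (a : ℕ) < (F x).card := by
        ext a
        simp only [hB, Finset.mem_filter, Finset.mem_univ, true_and, Function.update_self, hFu]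
      rw [h5]
      have h6 : (univ.filter fun a : Fin (2 * m + 1) => (a : ℕ) < (F x).card).card =
          (Finset.range (F x).card).card := by
        refine Finset.card_bij (fun a _ => (a : ℕ)) ?_ ?_ ?_
        · intro a ha
          exact Finset.mem_range.2 (Finset.mem_filter.1 ha).2
        · intro a _ b _ hab
          exact Fin.ext hab
        · intro b hb
          have hb' := Finset.mem_range.1 hb
          exact ⟨⟨b, by omega⟩, Finset.mem_filter.2 ⟨Finset.mem_univ _, hb'⟩, rfl⟩
      rw [h6, Finset.card_range]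
    have h7 : (2 * m + 1) * B.card = (2 * m + 1) * A.card := by
      rw [← h1, ← h2]
      exact Finset.sum_congr rfl fun x _ => h3 x
    exact Nat.eq_of_mul_eq_mul_left (by omega) h7
  · intro x hx y hy
    have hx1 : (x J : ℕ) < (F x).card := (Finset.mem_filter.1 hx).2
    have hy1 : (y J : ℕ) < (F y).card := (Finset.mem_filter.1 hy).2
    have hxn : (F x).Nonempty := Finset.card_pos.1 (by omega)
    have hyn : (F y).Nonempty := Finset.card_pos.1 (by omega)
    have h1 : ∃ a ∈ F x, ∃ b ∈ F y, cc m (x J) (y J) ≤ lee a b := by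
      by_contra hcon
      push Not at hcon
      set c := cc m (x J) (y J) with hc
      obtain ⟨a, ha⟩ := hxn
      obtain ⟨b, hb⟩ := hyn
      have h2 := hcon a ha b hb
      have hcm : c ≤ m := min_le_left _ _
      have hcl : c ≤ ((x J : ℕ) + (y J : ℕ) + 1) / 2 := min_le_right _ _
      have h3 := cross (F x) (F y) (c - 1) (by omega) ⟨a, ha⟩ ⟨b, hb⟩ (fun a ha b hb => by
        have := hcon a ha b hb
        omega)
      omega
    obtain ⟨a, ha, b, hb, hab⟩ := h1
    have h2 := hA _ (Finset.mem_filter.1 ha).2 _ (Finset.mem_filter.1 hb).2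
    refine le_trans (Finset.sum_le_sum fun i _ => ?_) h2
    by_cases hi : i = J
    · subst hi
      rw [if_pos (by simp [hJ]), if_neg (by simp [hJ]), Function.update_self,
        Function.update_self]
      exact hab
    · have hij : (i : ℕ) ≠ j := fun h => hi (Fin.ext h)
      rw [Function.update_of_ne hi, Function.update_of_ne hi]
      by_cases h3 : (i : ℕ) < j
      · rw [if_pos (by omega), if_pos h3]
      · rw [if_neg (by omega), if_neg h3]

theorem stComp : StComp := by
  intro m n D
  have h : ∀ j : ℕ, ∃ A : Finset (Fin n → Fin (2 * m + 1)), A.card = NL (2 * m + 1) n D ∧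
      ∀ x ∈ A, ∀ y ∈ A,
        ∑ i : Fin n, (if (i : ℕ) < j then cc m (x i) (y i) else lee (x i) (y i)) ≤ D := by
    intro j
    induction j with
    | zero =>
      obtain ⟨A, h1, h2⟩ := exists_NL (2 * m + 1) n D
      refine ⟨A, h2, fun x hx y hy => ?_⟩
      simpa [dL] using h1 x hx y hy
    | succ j ih =>
      obtain ⟨A, h1, h2⟩ := ih
      obtain ⟨B, h3, h4⟩ := Comp_step j A h2
      exact ⟨B, h3.trans h1, h4⟩
  obtain ⟨A, h1, h2⟩ := h n
  refine ⟨A, h1, fun x hx y hy => ?_⟩
  refine le_trans (le_of_eq ?_) (h2 x hx y hy)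
  exact Finset.sum_congr rfl fun i _ => by rw [if_pos i.2]

end Pool.Agent.Lib.MP_72646e_co.Low
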