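import Pool.Agent.Lib.MP_72646e_co.Low.Stmts

set_option autoImplicit false

namespace Pool.Agent.Lib.MP_72646e_co.Low

open Finset

theorem del_rec (d r : ℕ) : Del (d + 1) (r + 1) = Del (d + 1) r + Del d (r + 1) + Del d r := by
  have ext1 : ∀ s : ℕ, Del d s = ∑ i ∈ range (d + 2), 2 ^ i * d.choose i * s.choose i := by
    intro s
    rw [Finset.sum_range_succ, Nat.choose_succ_self]
    simp [Del]
  have e1 : ∀ s : ℕ, Del d s =
      1 + ∑ i ∈ range (d + 1), 2 ^ (i + 1) * d.choose (i + 1) * s.choose (i + 1) := by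
    intro s
    rw [ext1, Finset.sum_range_succ']
    simp [add_comm]
  have e2 : ∀ s : ℕ, Del (d + 1) s =
      1 + ∑ i ∈ range (d + 1), 2 ^ (i + 1) * (d + 1).choose (i + 1) * s.choose (i + 1) := by
    intro s
    unfold Del
    rw [Finset.sum_range_succ']
    simp [add_comm]
  have key : ∑ i ∈ range (d + 1), 2 ^ (i + 1) * (d + 1).choose (i + 1) * (r + 1).choose (i + 1) +
      2 * ∑ i ∈ range (d + 1), 2 ^ (i + 1) * d.choose (i + 1) * r.choose (i + 1) =
      ∑ i ∈ range (d + 1), 2 ^ (i + 1) * (d + 1).choose (i + 1) * r.choose (i + 1) +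
      ∑ i ∈ range (d + 1), 2 ^ (i + 1) * d.choose (i + 1) * (r + 1).choose (i + 1) +
      ∑ i ∈ range (d + 1), 2 ^ (i + 1) * d.choose (i + 1) * r.choose (i + 1) +
      2 * ∑ i ∈ range (d + 1), 2 ^ i * d.choose i * r.choose i := by
    simp only [Finset.mul_sum, ← Finset.sum_add_distrib]
    refine Finset.sum_congr rfl fun i _ => ?_
    rw [Nat.choose_succ_succ d i, Nat.choose_succ_succ r i]
    ring
  have e3 : ∑ i ∈ range (d + 1), 2 ^ i * d.choose i * r.choose i = Del d r := rfl
  rw [e3] at key
  have h1 := e1 r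
  have h2 := e1 (r + 1)
  have h3 := e2 r
  have h4 := e2 (r + 1)
  omega

theorem del_zero_right (d : ℕ) : Del d 0 = 1 := by
  unfold Del
  rw [Finset.sum_range_succ']
  simp

theorem del_zero_left (r : ℕ) : Del 0 r = 1 := by
  simp [Del]

theorem del_count_succ (q d r : ℕ) (h : 2 * r < q) :
    (univ.filter fun x : Fin (d + 1) → Fin q => nm x ≤ r).card =
      ∑ k ∈ range (r + 1), (univ.filter fun y : Fin d → Fin q => nm y ≤ k).card +
      ∑ k ∈ range r, (univ.filter fun y : Fin d → Fin q => nm y ≤ k).card := by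
  have h1 : (univ.filter fun x : Fin (d + 1) → Fin q => nm x ≤ r).card =
      ∑ a : Fin q, (univ.filter fun y : Fin d → Fin q => nrm a + nm y ≤ r).card := by
    simp only [Finset.card_filter]
    rw [← Equiv.sum_comp (Fin.consEquiv (fun _ => Fin q)), Fintype.sum_prod_type]
    refine Finset.sum_congr rfl fun a _ => Finset.sum_congr rfl fun y _ => ?_
    have : nm ((Fin.consEquiv (fun _ : Fin (d + 1) => Fin q)) (a, y)) = nrm a + nm y := by
      unfold nm
      rw [Fin.sum_univ_succ]
      simp [Fin.consEquiv]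
    rw [this]
  obtain ⟨e, rfl⟩ : ∃ e, q = (r + 1) + e + r := ⟨q - (2 * r + 1), by omega⟩
  set g : ℕ → ℕ := fun j => (univ.filter fun y : Fin d → Fin ((r + 1) + e + r) => j + nm y ≤ r).card
    with hg
  have h2 : ∑ a : Fin ((r + 1) + e + r),
      (univ.filter fun y : Fin d → Fin ((r + 1) + e + r) => nrm a + nm y ≤ r).card =
      ∑ a ∈ range ((r + 1) + e + r), g (min a ((r + 1) + e + r - a)) := by
    rw [← Fin.sum_univ_eq_sum_range (fun a => g (min a ((r + 1) + e + r - a)))]
    rfl
  rw [h1, h2, Finset.sum_range_add, Finset.sum_range_add]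
  have g0 : ∀ j, r < j → g j = 0 := by
    intro j hj
    simp only [hg, Finset.card_eq_zero, Finset.filter_eq_empty_iff]
    intro y _
    omega
  have gk : ∀ k, k ≤ r → g (r - k) =
      (univ.filter fun y : Fin d → Fin ((r + 1) + e + r) => nm y ≤ k).card := by
    intro k hk
    simp only [hg]
    congr 1
    ext y
    simp only [Finset.mem_filter, Finset.mem_univ, true_and]
    omega
  have p1 : ∑ x ∈ range (r + 1), g (min x (r + 1 + e + r - x)) =
      ∑ k ∈ range (r + 1), (univ.filter fun y : Fin d → Fin ((r + 1) + e + r) => nm y ≤ k).card := by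
    rw [← Finset.sum_range_reflect]
    refine Finset.sum_congr rfl fun k hk => ?_
    rw [Finset.mem_range] at hk
    rw [← gk k (by omega)]
    congr 1
    omega
  have p2 : ∑ x ∈ range e, g (min (r + 1 + x) (r + 1 + e + r - (r + 1 + x))) = 0 := by
    refine Finset.sum_eq_zero fun x hx => ?_
    rw [Finset.mem_range] at hx
    apply g0
    omega
  have p3 : ∑ x ∈ range r, g (min (r + 1 + e + x) (r + 1 + e + r - (r + 1 + e + x))) =
      ∑ k ∈ range r, (univ.filter fun y : Fin d → Fin ((r + 1) + e + r) => nm y ≤ k).card := by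
    refine Finset.sum_congr rfl fun k hk => ?_
    rw [Finset.mem_range] at hk
    rw [← gk k (by omega)]
    congr 1
    omega
  rw [p1, p2, p3, add_zero]

theorem del_count (q : ℕ) : ∀ d r : ℕ, 2 * r < q →
    (univ.filter fun x : Fin d → Fin q => nm x ≤ r).card = Del d r := by
  intro d
  induction d with
  | zero =>
    intro r _
    rw [del_zero_left]
    simp [nm]
  | succ d ih =>
    intro r
    induction r with
    | zero =>
      intro h
      rw [del_count_succ q d 0 h, del_zero_right]
      simp only [zero_add, Finset.sum_range_one, Finset.range_zero, Finset.sum_empty, add_zero]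
      rw [ih 0 h, del_zero_right]
    | succ r ihr =>
      intro h
      have hr := ihr (by omega)
      rw [del_count_succ q d (r + 1) h, del_rec, ← hr, del_count_succ q d r (by omega),
        ← ih (r + 1) h, ← ih r (by omega), Finset.sum_range_succ _ (r + 1),
        Finset.sum_range_succ _ r]
      ring

theorem stDel : StDel :=
  ⟨fun q d r h => del_count q d r h, del_rec, del_zero_right, del_zero_left⟩

end Pool.Agent.Lib.MP_72646e_co.Low
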