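import Pool.Agent.Lib.MP_72646e_co.Low.Stmts

set_option autoImplicit false

/-! L12: the upper bound without full fibres, `D` even. -/

namespace Pool.Agent.Lib.MP_72646e_co.Low

open Finset

/-- Rank of an element of the even cycle in the order `0, 1, -1, 2, -2, ..., m`. -/
def evenRk {m : ℕ} (a : Fin (2 * m)) : ℕ :=
  if (a : ℕ) ≤ m then 2 * (a : ℕ) - 1 else 2 * (2 * m - (a : ℕ))

theorem evenRk_lt {m : ℕ} (a : Fin (2 * m)) : evenRk a < 2 * m := by
  have ha := a.2
  unfold evenRk
  split_ifs <;> omega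

theorem evenRk_inj {m : ℕ} (a b : Fin (2 * m)) (h : evenRk a = evenRk b) : a = b := by
  have ha := a.2
  have hb := b.2
  unfold evenRk at h
  apply Fin.ext
  split_ifs at h <;> omega

theorem evenRk_lee {m : ℕ} (a b : Fin (2 * m)) : lee a b ≤ cc m (evenRk a) (evenRk b) := by
  have ha := a.2
  have hb := b.2
  simp only [lee, cc, evenRk, Nat.dist]
  split_ifs <;> omega

theorem even_sum_rk (m : ℕ) (F : ℕ → ℕ) :
    ∑ a : Fin (2 * m), F (evenRk a) = ∑ k ∈ range (2 * m), F k := by
  have hinj : Set.InjOn (fun a : Fin (2 * m) => evenRk a) (univ : Finset (Fin (2 * m))) :=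
    fun a _ b _ h => evenRk_inj a b h
  have himg : (univ : Finset (Fin (2 * m))).image (fun a => evenRk a) = range (2 * m) := by
    apply Finset.eq_of_subset_of_card_le
    · intro k hk
      obtain ⟨a, -, rfl⟩ := Finset.mem_image.1 hk
      exact mem_range.2 (evenRk_lt a)
    · rw [Finset.card_image_of_injOn hinj]
      simp
  rw [← himg, Finset.sum_image hinj]

theorem even_pairs (F : ℕ → ℝ) (n : ℕ) :
    ∑ k ∈ range (2 * n), F k = ∑ j ∈ range n, (F (2 * j) + F (2 * j + 1)) := by
  induction n with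
  | zero => simp
  | succ n ih =>
    rw [show 2 * (n + 1) = 2 * n + 1 + 1 by ring, sum_range_succ, sum_range_succ, ih,
      sum_range_succ]
    ring

theorem even_tgt (h1 : StRecB) (h2 : StBasic) (m d R : ℕ) (hm : 1 ≤ m) (hR : R < m) :
    ball m (d + 1) R = tgt m d (2 * R) := by
  obtain ⟨-, -, hz, -⟩ := h2 m d hm
  rw [h1.2, tgt, sum_range_succ, even_pairs]
  have e1 : ∑ j ∈ range m, (ball m d ((R : ℝ) - j) + ball m d ((R : ℝ) - j - 1)) =
      ∑ j ∈ range (R + 1), (ball m d ((R : ℝ) - j) + ball m d ((R : ℝ) - j - 1)) := by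
    symm
    apply Finset.sum_subset
    · intro i hi
      rw [mem_range] at hi ⊢
      omega
    · intro i _ hi
      rw [mem_range, not_lt] at hi
      have hi' : (R : ℝ) + 1 ≤ i := by exact_mod_cast hi
      rw [hz _ (by linarith), hz _ (by linarith), add_zero]
  rw [e1, sum_range_succ]
  congr 1
  · apply Finset.sum_congr rfl
    intro j hj
    rw [mem_range] at hj
    congr 2
    · rw [show (2 * R - 2 * j) / 2 = R - j by omega, Nat.cast_sub hj.le]
    · rw [show (2 * R - (2 * j + 1)) / 2 = R - (j + 1) by omega, Nat.cast_sub (by omega)]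
      push_cast
      ring
  · rw [hz ((R : ℝ) - R - 1) (by linarith), add_zero]
    simp

/-- L12. -/
theorem stEven (h1 : StRecB) (h2 : StBasic) (h3 : StRad) : StEven := by
  classical
  intro m d R A hm hd hR hA htop
  have htgt : 0 ≤ tgt m d (2 * R) := by
    unfold tgt ball
    exact Finset.sum_nonneg fun k _ => Finset.sum_nonneg fun x _ => le_max_left _ _
  have hci : ∀ a : Fin (2 * m), Function.Injective
      (fun z : Fin d → Fin (2 * m) => (Fin.cons a z : Fin (d + 1) → Fin (2 * m))) := by
    intro a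
    exact Fin.cons_right_injective (α := fun _ => Fin (2 * m)) a
  let X : Finset (Fin (d + 1) → Fin (2 * m)) :=
    (univ : Finset (Fin (2 * m))).biUnion
      (fun a => (A (evenRk a)).image (fun z => (Fin.cons a z : Fin (d + 1) → Fin (2 * m))))
  have hX : X.card = ∑ k ∈ range (2 * m + 1), (A k).card := by
    rw [Finset.card_biUnion]
    · rw [sum_range_succ, htop, card_empty, add_zero, ← even_sum_rk m (fun k => (A k).card)]
      apply Finset.sum_congr rfl
      intro a _
      rw [Finset.card_image_of_injective _ (hci a)]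
    · intro a _ b _ hab
      rw [Function.onFun, Finset.disjoint_left]
      intro x hx hx'
      obtain ⟨z, -, rfl⟩ := Finset.mem_image.1 hx
      obtain ⟨w, -, hw⟩ := Finset.mem_image.1 hx'
      apply hab
      have := congrFun hw 0
      simpa using this.symm
  have hdist : ∀ x ∈ X, ∀ y ∈ X, dL x y ≤ 2 * R := by
    intro x hx y hy
    obtain ⟨a, -, hx⟩ := Finset.mem_biUnion.1 hx
    obtain ⟨z, hz, rfl⟩ := Finset.mem_image.1 hx
    obtain ⟨b, -, hy⟩ := Finset.mem_biUnion.1 hy
    obtain ⟨w, hw, rfl⟩ := Finset.mem_image.1 hy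
    have e : dL (Fin.cons a z : Fin (d + 1) → Fin (2 * m)) (Fin.cons b w) =
        lee a b + dL z w := by
      simp only [dL, Fin.sum_univ_succ, Fin.cons_zero, Fin.cons_succ]
    rw [e]
    have h := hA.2 (evenRk a) (evenRk_lt a).le (evenRk b) (evenRk_lt b).le z hz w hw
    have h' := evenRk_lee a b
    omega
  rw [← hX]
  rcases X.eq_empty_or_nonempty with hemp | hne
  · rw [hemp]
    simpa using htgt
  · obtain ⟨rad, hr1, -, hr3⟩ := h3 m (d + 1) hm
    have hlt : 2 * R < (d + 1) * m := by nlinarith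
    have h4 := hr3 X X (2 * R) hlt hne hne hdist
    have h5 : X.card ≤ (2 * m) ^ (d + 1) := by
      have := Finset.card_le_univ X
      simpa using this
    obtain ⟨-, h7⟩ := hr1 X.card (Finset.card_pos.2 hne) h5
    obtain ⟨hmono, -⟩ := h2 m (d + 1) hm
    rw [← even_tgt h1 h2 m d R hm hR, ← h7]
    apply hmono
    push_cast at h4
    linarith

end Pool.Agent.Lib.MP_72646e_co.Low
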