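import Pool.Agent.Lib.MP_72646e_co.Low.Stmts

set_option autoImplicit false

/-! Project Low, module L20: the exceptional case `q = 5`, `D = 3`. -/

namespace Pool.Agent.Lib.MP_72646e_co.Low

open Finset

theorem five_lee_zero : ∀ a b : Fin (2 * 2), lee a b = 0 → a = b := by decide

theorem five_lee_one : ∀ a b : Fin (2 * 2), lee a b = 1 → b = a + 1 ∨ b = a + 3 := by decide

theorem five_lee_par : ∀ a b : Fin (2 * 2), (lee a b + (a : ℕ) + (b : ℕ)) % 2 = 0 := by decide

theorem five_eq_of_dL {d : ℕ} {x y : Fin d → Fin (2 * 2)} (h : dL x y = 0) : x = y := by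
  funext i
  unfold dL at h
  rw [Finset.sum_eq_zero_iff] at h
  exact five_lee_zero _ _ (h i (mem_univ i))

theorem five_dL_par {d : ℕ} (x y : Fin d → Fin (2 * 2)) :
    (dL x y + ∑ i, ((x i : Fin (2 * 2)) : ℕ) + ∑ i, ((y i : Fin (2 * 2)) : ℕ)) % 2 = 0 := by
  unfold dL
  rw [← Finset.sum_add_distrib, ← Finset.sum_add_distrib, Finset.sum_nat_mod]
  simp [five_lee_par]

/-- No triangles. -/
theorem five_tri {d : ℕ} {a b y : Fin d → Fin (2 * 2)} (hab : a ≠ b) (h1 : dL a b ≤ 1)
    (h2 : dL a y ≤ 1) (h3 : dL b y ≤ 1) : y = a ∨ y = b := by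
  by_contra hcon
  push Not at hcon
  obtain ⟨hya, hyb⟩ := hcon
  have e1 : dL a b ≠ 0 := fun h => hab (five_eq_of_dL h)
  have e2 : dL a y ≠ 0 := fun h => hya (five_eq_of_dL h).symm
  have e3 : dL b y ≠ 0 := fun h => hyb (five_eq_of_dL h).symm
  have p1 := five_dL_par a b
  have p2 := five_dL_par a y
  have p3 := five_dL_par b y
  omega

/-- Points at distance at most one. -/
theorem five_near {d : ℕ} {x y : Fin d → Fin (2 * 2)} (h : dL x y ≤ 1) :
    x = y ∨ ∃ p : Fin d × Bool, Function.update x p.1 (x p.1 + if p.2 then 1 else 3) = y := by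
  by_cases hxy : x = y
  · exact Or.inl hxy
  · right
    obtain ⟨i, hi⟩ := Function.ne_iff.mp hxy
    have hs : dL x y = lee (x i) (y i) + ∑ j ∈ univ.erase i, lee (x j) (y j) := by
      unfold dL
      exact (Finset.add_sum_erase univ (fun j => lee (x j) (y j)) (mem_univ i)).symm
    have hne : lee (x i) (y i) ≠ 0 := fun h => hi (five_lee_zero _ _ h)
    have h1 : lee (x i) (y i) = 1 := by omega
    have h0 : ∑ j ∈ univ.erase i, lee (x j) (y j) = 0 := by omega
    rw [Finset.sum_eq_zero_iff] at h0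
    have hother : ∀ j, j ≠ i → x j = y j := fun j hj =>
      five_lee_zero _ _ (h0 j (by simp [hj]))
    rcases five_lee_one _ _ h1 with h2 | h2
    · refine ⟨(i, true), ?_⟩
      funext j
      by_cases hj : j = i
      · subst hj; simp [h2]
      · simp [Function.update_of_ne hj, hother j hj]
    · refine ⟨(i, false), ?_⟩
      funext j
      by_cases hj : j = i
      · subst hj; simp [h2]
      · simp [Function.update_of_ne hj, hother j hj]

theorem five_ball {d : ℕ} (z : Fin d → Fin (2 * 2)) (S : Finset (Fin d → Fin (2 * 2)))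
    (hS : ∀ y ∈ S, dL z y ≤ 1) : S.card ≤ 2 * d + 1 := by
  classical
  have hsub : S ⊆ insert z ((univ : Finset (Fin d × Bool)).image
      fun p => Function.update z p.1 (z p.1 + if p.2 then 1 else 3)) := by
    intro y hy
    rcases five_near (hS y hy) with h | ⟨p, hp⟩
    · rw [← h]; exact mem_insert_self _ _
    · exact mem_insert_of_mem (mem_image.mpr ⟨p, mem_univ _, hp⟩)
  calc S.card ≤ _ := card_le_card hsub
    _ ≤ ((univ : Finset (Fin d × Bool)).image
      fun p => Function.update z p.1 (z p.1 + if p.2 then 1 else 3)).card + 1 := card_insert_le _ _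
    _ ≤ (univ : Finset (Fin d × Bool)).card + 1 := Nat.add_le_add_right card_image_le 1
    _ = 2 * d + 1 := by simp [mul_comm]

theorem five_two {d : ℕ} (S T : Finset (Fin d → Fin (2 * 2))) (hS : 2 ≤ S.card)
    (h1 : ∀ x ∈ S, ∀ y ∈ S, dL x y ≤ 1) (h2 : ∀ x ∈ S, ∀ y ∈ T, dL x y ≤ 1) : T.card ≤ 2 := by
  classical
  obtain ⟨a, ha, b, hb, hab⟩ := Finset.one_lt_card.mp (by omega : 1 < S.card)
  have hsub : T ⊆ {a, b} := by
    intro y hy
    rcases five_tri hab (h1 a ha b hb) (h2 a ha y hy) (h2 b hb y hy) with h | h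
    · simp [h]
    · simp [h]
  exact (card_le_card hsub).trans card_le_two

theorem stFive : StFive := by
  intro d A hd hF hne
  obtain ⟨hnest, hdist⟩ := hF
  have c43 : (A 4).card ≤ (A 3).card := card_le_card (hnest 3 4 (by norm_num))
  have c32 : (A 3).card ≤ (A 2).card := card_le_card (hnest 2 3 (by norm_num))
  have c21 : (A 2).card ≤ (A 1).card := card_le_card (hnest 1 2 (by norm_num))
  have c10 : (A 1).card ≤ (A 0).card := card_le_card (hnest 0 1 (by norm_num))
  have key : ∀ k ≤ 4, ∀ l ≤ 4, 3 ≤ k + l → ∀ x ∈ A k, ∀ y ∈ A l, dL x y ≤ 1 := by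
    intro k hk l hl hkl x hx y hy
    have h := hdist k (by omega) l (by omega) x hx y hy
    have h2 : cc 2 k l = 2 := by unfold cc; omega
    omega
  obtain ⟨z, hz⟩ := hne
  have hball : (A 0).card ≤ 2 * d + 1 :=
    five_ball z (A 0) (fun y hy => key 4 (by norm_num) 0 (by norm_num) (by norm_num) z hz y hy)
  have hsum : ∑ k ∈ range 5, (A k).card = (A 0).card + (A 1).card + (A 2).card + (A 3).card +
      (A 4).card := by
    simp [Finset.sum_range_succ]
  rw [hsum]
  by_cases h3 : 2 ≤ (A 3).card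
  · have h0 := five_two (A 3) (A 0) h3 (key 3 (by norm_num) 3 (by norm_num) (by norm_num))
      (key 3 (by norm_num) 0 (by norm_num) (by norm_num))
    omega
  · by_cases h2 : 2 ≤ (A 2).card
    · have h1 := five_two (A 2) (A 1) h2 (key 2 (by norm_num) 2 (by norm_num) (by norm_num))
        (key 2 (by norm_num) 1 (by norm_num) (by norm_num))
      omega
    · omega

end Pool.Agent.Lib.MP_72646e_co.Low
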