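import Pool.Agent.Lib.MP_72646e_co.Low.Stmts

set_option autoImplicit false

/-! Project Low, module Grow: growth of the sizes of balls. -/

namespace Pool.Agent.Lib.MP_72646e_co.Low

open Finset

/-- The differences of the Delannoy numbers. -/
def growS (d j : ℕ) : ℕ := ∑ i ∈ range d, 2 ^ (i + 1) * d.choose (i + 1) * j.choose i

theorem grow_del_succ (d j : ℕ) : Del d (j + 1) = Del d j + growS d j := by
  unfold Del growS
  rw [Finset.sum_range_succ', Finset.sum_range_succ' (fun i => 2 ^ i * d.choose i * j.choose i)]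
  have h : ∀ i, 2 ^ (i + 1) * d.choose (i + 1) * (j + 1).choose (i + 1) =
      2 ^ (i + 1) * d.choose (i + 1) * j.choose (i + 1) +
        2 ^ (i + 1) * d.choose (i + 1) * j.choose i := by
    intro i
    rw [Nat.choose_succ_succ]
    ring
  simp only [h, Finset.sum_add_distrib, Nat.choose_zero_right]
  ring

theorem grow_choose (j i : ℕ) :
    (j + 2) * j.choose (i + 1) ≤ (j + 1) * (j + 1).choose (i + 1) := by
  rw [Nat.choose_succ_succ]
  have h : j.choose (i + 1) ≤ (j + 1) * j.choose i := by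
    have h1 : j.choose (i + 1) * (i + 1) = j.choose i * (j - i) := Nat.choose_succ_right_eq j i
    have h2 : j.choose (i + 1) ≤ j.choose (i + 1) * (i + 1) := Nat.le_mul_of_pos_right _ (by omega)
    have h3 : j.choose i * (j - i) ≤ j.choose i * (j + 1) := Nat.mul_le_mul_left _ (by omega)
    calc j.choose (i + 1) ≤ j.choose (i + 1) * (i + 1) := h2
      _ = j.choose i * (j - i) := h1
      _ ≤ j.choose i * (j + 1) := h3
      _ = (j + 1) * j.choose i := by ring
  nlinarith [h]

theorem grow_step (d j : ℕ) (hd : 2 ≤ d) : (j + 2) * growS d j ≤ (j + 1) * growS d (j + 1) := by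
  obtain ⟨c, rfl⟩ : ∃ c, d = c + 2 := ⟨d - 2, by omega⟩
  have e : ∀ r, growS (c + 2) r =
      (∑ i ∈ range c, 2 ^ (i + 3) * (c + 2).choose (i + 3) * r.choose (i + 2)) +
        4 * (c + 2).choose 2 * r + 2 * (c + 2) := by
    intro r
    unfold growS
    rw [Finset.sum_range_succ', Finset.sum_range_succ']
    simp
  rw [e, e]
  have h1 : (j + 2) * (∑ i ∈ range c, 2 ^ (i + 3) * (c + 2).choose (i + 3) * j.choose (i + 2)) ≤
      (j + 1) * ∑ i ∈ range c, 2 ^ (i + 3) * (c + 2).choose (i + 3) * (j + 1).choose (i + 2) := by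
    rw [Finset.mul_sum, Finset.mul_sum]
    refine Finset.sum_le_sum fun i _ => ?_
    have := grow_choose j (i + 1)
    calc (j + 2) * (2 ^ (i + 3) * (c + 2).choose (i + 3) * j.choose (i + 2))
        = 2 ^ (i + 3) * (c + 2).choose (i + 3) * ((j + 2) * j.choose (i + 1 + 1)) := by ring
      _ ≤ 2 ^ (i + 3) * (c + 2).choose (i + 3) * ((j + 1) * (j + 1).choose (i + 1 + 1)) :=
          Nat.mul_le_mul_left _ this
      _ = (j + 1) * (2 ^ (i + 3) * (c + 2).choose (i + 3) * (j + 1).choose (i + 2)) := by ring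
  have h2 : c + 2 ≤ 2 * (c + 2).choose 2 := by
    have : (c + 2).choose 2 = (c + 1) + (c + 1).choose 2 := by
      rw [show c + 2 = (c + 1) + 1 from rfl, Nat.choose_succ_succ]
      simp
    omega
  set a := (c + 2).choose 2 with ha
  nlinarith [h1, h2]

theorem grow_mono (d j n : ℕ) (hd : 2 ≤ d) :
    (j + 1 + n) * growS d j ≤ (j + 1) * growS d (j + n) := by
  induction n with
  | zero => simp
  | succ n ih =>
    have h := grow_step d (j + n) hd
    have key : (j + n + 1) * ((j + 1 + (n + 1)) * growS d j) ≤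
        (j + n + 1) * ((j + 1) * growS d (j + (n + 1))) := by
      calc (j + n + 1) * ((j + 1 + (n + 1)) * growS d j)
          = (j + n + 2) * ((j + 1 + n) * growS d j) := by ring
        _ ≤ (j + n + 2) * ((j + 1) * growS d (j + n)) := Nat.mul_le_mul_left _ ih
        _ = (j + 1) * ((j + n + 2) * growS d (j + n)) := by ring
        _ ≤ (j + 1) * ((j + n + 1) * growS d (j + n + 1)) := Nat.mul_le_mul_left _ h
        _ = (j + n + 1) * ((j + 1) * growS d (j + (n + 1))) := by
            rw [show j + (n + 1) = j + n + 1 by ring]; ring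
    exact Nat.le_of_mul_le_mul_left key (by omega)

theorem grow_two (d e : ℕ) (hd : 2 ≤ d) (he : 1 ≤ e) :
    3 * growS d e ≤ 2 * growS d (2 * e) := by
  have h := grow_mono d e e hd
  rw [show e + e = 2 * e by ring] at h
  have h1 : (e + 1) * (3 * growS d e) ≤ (e + 1) * (2 * growS d (2 * e)) := by
    have h2 : 3 * (e + 1) * growS d e ≤ 2 * (e + 1 + e) * growS d e :=
      Nat.mul_le_mul_right _ (by omega)
    calc (e + 1) * (3 * growS d e) = 3 * (e + 1) * growS d e := by ring
      _ ≤ 2 * (e + 1 + e) * growS d e := h2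
      _ = 2 * ((e + 1 + e) * growS d e) := by ring
      _ ≤ 2 * ((e + 1) * growS d (2 * e)) := Nat.mul_le_mul_left _ h
      _ = (e + 1) * (2 * growS d (2 * e)) := by ring
  exact Nat.le_of_mul_le_mul_left h1 (by omega)

theorem grow_two' (d e : ℕ) (hd : 2 ≤ d) :
    3 * growS d e ≤ 2 * growS d (2 * e + 1) := by
  have h := grow_mono d e (e + 1) hd
  rw [show e + (e + 1) = 2 * e + 1 by ring] at h
  have h1 : (e + 1) * (3 * growS d e) ≤ (e + 1) * (2 * growS d (2 * e + 1)) := by
    have h2 : 3 * (e + 1) * growS d e ≤ 2 * (e + 1 + (e + 1)) * growS d e :=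
      Nat.mul_le_mul_right _ (by omega)
    calc (e + 1) * (3 * growS d e) = 3 * (e + 1) * growS d e := by ring
      _ ≤ 2 * (e + 1 + (e + 1)) * growS d e := h2
      _ = 2 * ((e + 1 + (e + 1)) * growS d e) := by ring
      _ ≤ 2 * ((e + 1) * growS d (2 * e + 1)) := Nat.mul_le_mul_left _ h
      _ = (e + 1) * (2 * growS d (2 * e + 1)) := by ring
  exact Nat.le_of_mul_le_mul_left h1 (by omega)

theorem grow_del_zero (d : ℕ) : Del d 0 = 1 := by
  unfold Del
  rw [Finset.sum_range_succ']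
  simp

theorem grow_del (d : ℕ) (hd : 2 ≤ d) (e : ℕ) :
    3 * Del d (e + 1) ≤ Del d (2 * (e + 1)) + 2 ∧
      3 * (Del d (e + 1) + Del d (e + 2)) ≤ 2 * Del d (2 * (e + 1) + 1) + 4 := by
  have PQ : ∀ e, 3 * Del d (e + 1) ≤ Del d (2 * (e + 1)) + 2 →
      3 * (Del d (e + 1) + Del d (e + 2)) ≤ 2 * Del d (2 * (e + 1) + 1) + 4 := by
    intro e h
    have h1 := grow_two d (e + 1) hd (by omega)
    rw [grow_del_succ d (2 * (e + 1)), show e + 2 = (e + 1) + 1 from rfl,
      grow_del_succ d (e + 1)]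
    omega
  have base : 3 * Del d (0 + 1) ≤ Del d (2 * (0 + 1)) + 2 := by
    have h1 := grow_step d 0 hd
    have h2 := grow_del_succ d 0
    have h3 := grow_del_succ d 1
    have h4 := grow_del_zero d
    simp only [Nat.zero_add, Nat.mul_one] at *
    rw [show (2 : ℕ) = 1 + 1 from rfl, h3]
    omega
  induction e with
  | zero => exact ⟨base, PQ 0 base⟩
  | succ e ih =>
    have hQ := ih.2
    have h1 := grow_two' d (e + 1) hd
    have hP : 3 * Del d (e + 1 + 1) ≤ Del d (2 * (e + 1 + 1)) + 2 := by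
      rw [show 2 * (e + 1 + 1) = (2 * (e + 1) + 1) + 1 by ring, grow_del_succ d (2 * (e + 1) + 1)]
      have h2 := grow_del_succ d (e + 1)
      rw [show e + 2 = (e + 1) + 1 from rfl] at hQ
      omega
    exact ⟨hP, PQ (e + 1) hP⟩

/-- Module `Grow`. -/
theorem stGrow (h1 : StSub) (_h2 : StDel) : StGrow := by
  intro m d δ hd hδ hm
  obtain ⟨-, hi, hs⟩ := h1 m d (by omega) (by omega)
  have hδm : ball m d (δ : ℝ) = Del d δ := hi δ hm
  rcases Nat.even_or_odd' δ with ⟨e, rfl | rfl⟩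
  · obtain ⟨c, rfl⟩ : ∃ c, e = c + 1 := ⟨e - 1, by omega⟩
    have h := (grow_del d hd c).1
    have hb : ball m d ((c + 1 : ℕ) : ℝ) = Del d (c + 1) := hi (c + 1) (by omega)
    rw [hδm, show (((2 * (c + 1) : ℕ) : ℝ) / 2) = ((c + 1 : ℕ) : ℝ) by push_cast; ring, hb]
    exact_mod_cast h
  · obtain ⟨c, rfl⟩ : ∃ c, e = c + 1 := ⟨e - 1, by omega⟩
    have h := (grow_del d hd c).2
    have hb := hs (c + 1) (1 / 2) (by omega) (by norm_num) (by norm_num)
    rw [hδm, show (((2 * (c + 1) + 1 : ℕ) : ℝ) / 2) = ((c + 1 : ℕ) : ℝ) + 1 / 2 by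
      push_cast; ring, hb]
    have h' : (3 : ℝ) * ((Del d (c + 1) : ℝ) + (Del d (c + 2) : ℝ)) ≤
        2 * (Del d (2 * (c + 1) + 1) : ℝ) + 4 := by exact_mod_cast h
    rw [show c + 1 + 1 = c + 2 from rfl]
    linarith

end Pool.Agent.Lib.MP_72646e_co.Low
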