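import Pool.Agent.Lib.MP_72646e_co.Low.Stmts

set_option autoImplicit false

/-! Module Iso: the isoperimetric theorem in the even torus. -/

namespace Pool.Agent.Lib.MP_72646e_co.Low

open Finset

open scoped Classical in
/-- The section of `X` over `t`. -/
noncomputable def isoFib {q d : ℕ} (X : Finset (Fin (d + 1) → Fin q)) (t : Fin q) :
    Finset (Fin d → Fin q) :=
  univ.filter fun y => (Fin.cons t y : Fin (d + 1) → Fin q) ∈ X

theorem iso_mem {q d : ℕ} {X : Finset (Fin (d + 1) → Fin q)} {t : Fin q} {y : Fin d → Fin q} :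
    y ∈ isoFib X t ↔ (Fin.cons t y : Fin (d + 1) → Fin q) ∈ X := by
  simp [isoFib]

theorem iso_card {q d : ℕ} (X : Finset (Fin (d + 1) → Fin q)) :
    ∑ t, (isoFib X t).card = X.card := by
  classical
  rw [Finset.card_eq_sum_card_fiberwise (f := fun x : Fin (d + 1) → Fin q => x 0)
    (t := Finset.univ) (fun _ _ => Finset.mem_coe.2 (Finset.mem_univ _))]
  refine Finset.sum_congr rfl fun t _ => ?_
  have h : X.filter (fun x => x 0 = t) =
      (isoFib X t).image (fun y => (Fin.cons t y : Fin (d + 1) → Fin q)) := by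
    ext x
    rw [Finset.mem_filter, Finset.mem_image]
    constructor
    · rintro ⟨hx, rfl⟩
      exact ⟨Fin.tail x, iso_mem.2 (by rwa [Fin.cons_self_tail]), Fin.cons_self_tail x⟩
    · rintro ⟨y, hy, rfl⟩
      exact ⟨iso_mem.1 hy, rfl⟩
  rw [h, Finset.card_image_of_injective _ (Fin.cons_right_injective _)]

theorem iso_dL_cons {q d : ℕ} (s t : Fin q) (x y : Fin d → Fin q) :
    dL (Fin.cons s x : Fin (d + 1) → Fin q) (Fin.cons t y : Fin (d + 1) → Fin q) =
      lee s t + dL x y := by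
  simp [dL, Fin.sum_univ_succ]

theorem iso_lee_self {q : ℕ} (a : Fin q) : lee a a = 0 := by
  simp [lee]

theorem iso_dL_self {q d : ℕ} (x : Fin d → Fin q) : dL x x = 0 := by
  simp [dL, lee]

theorem iso_mem_nbh {q d r : ℕ} {X : Finset (Fin d → Fin q)} {y : Fin d → Fin q} :
    y ∈ nbh r X ↔ ∃ x ∈ X, dL x y ≤ r := by
  simp [nbh]

theorem iso_sub1 {q d : ℕ} (X : Finset (Fin (d + 1) → Fin q)) (t : Fin q) :
    nbh 1 (isoFib X t) ⊆ isoFib (nbh 1 X) t := by
  intro y hy
  obtain ⟨x, hx, hxy⟩ := iso_mem_nbh.1 hy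
  refine iso_mem.2 (iso_mem_nbh.2 ⟨_, iso_mem.1 hx, ?_⟩)
  rw [iso_dL_cons, iso_lee_self]
  omega

theorem iso_sub2 {q d : ℕ} (X : Finset (Fin (d + 1) → Fin q)) {s t : Fin q} (h : lee s t ≤ 1) :
    isoFib X s ⊆ isoFib (nbh 1 X) t := by
  intro y hy
  refine iso_mem.2 (iso_mem_nbh.2 ⟨_, iso_mem.1 hy, ?_⟩)
  rw [iso_dL_cons, iso_dL_self]
  omega

/-- L8. -/
theorem stIso (h1 : StBasic) (h2 : StStep) : StIso := by
  intro m d
  induction d with
  | zero =>
    intro X ρ hm hX _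
    obtain ⟨hmono, -, -, -, htop, -⟩ := h1 m 0 hm
    have hle : ball m 0 (ρ + 1) ≤ 1 := by
      refine (hmono (le_max_left (ρ + 1) 0)).trans ?_
      rw [htop _ (by simp)]
      simp
    obtain ⟨x, hx⟩ := hX
    have hne : (nbh 1 X).Nonempty := ⟨x, iso_mem_nbh.2 ⟨x, hx, by rw [iso_dL_self]; omega⟩⟩
    refine hle.trans ?_
    exact_mod_cast Finset.card_pos.2 hne
  | succ d ih =>
    intro X ρ hm hX hρ
    have key := h2 m d (fun t => ((isoFib X t).card : ℝ)) (fun t => ((isoFib (nbh 1 X) t).card : ℝ))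
      hm (fun t => ⟨Nat.cast_nonneg _, ?_⟩) ?_ (fun t ht σ hσ => ?_) (fun s t hst => ?_) ρ ?_
    · refine key.trans (le_of_eq ?_)
      rw [← iso_card (nbh 1 X)]
      push_cast
      rfl
    · have h3 : (isoFib X t).card ≤ (2 * m) ^ d := by
        refine (Finset.card_le_univ _).trans (le_of_eq ?_)
        simp
      exact_mod_cast h3
    · obtain ⟨x, hx⟩ := hX
      refine ⟨x 0, Nat.cast_pos.2 (Finset.card_pos.2 ⟨Fin.tail x, iso_mem.2 ?_⟩)⟩
      rwa [Fin.cons_self_tail]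
    · have hne : (isoFib X t).Nonempty := Finset.card_pos.1 (Nat.cast_pos.1 ht)
      refine (ih (isoFib X t) σ hm hne hσ).trans ?_
      exact_mod_cast Finset.card_le_card (iso_sub1 X t)
    · exact Nat.cast_le.2 (Finset.card_le_card (iso_sub2 X hst))
    · refine hρ.trans (le_of_eq ?_)
      rw [← iso_card X]
      push_cast
      rfl

end Pool.Agent.Lib.MP_72646e_co.Low
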