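import Pool.Agent.Lib.MP_72646e_co.Low.Stmts

set_option autoImplicit false

namespace Pool.Agent.Lib.MP_72646e_co.Low

open Finset

theorem LC_iter (S : ℤ → ℝ) (h : ∀ a b : ℤ, a ≤ b → S (a - 1) * S (b + 1) ≤ S a * S b)
    (t : ℕ) : ∀ a b : ℤ, a ≤ b → S (a - t) * S (b + t) ≤ S a * S b := by
  induction t with
  | zero => intro a b _; simp
  | succ t ih =>
    intro a b hab
    have h1 := h (a - t) (b + t) (by omega)
    have h2 := ih a b hab
    have e1 : a - ((t + 1 : ℕ) : ℤ) = a - t - 1 := by push_cast; ring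
    have e2 : b + ((t + 1 : ℕ) : ℤ) = b + t + 1 := by push_cast; ring
    rw [e1, e2]
    exact h1.trans h2

theorem LC_four (S : ℤ → ℝ) (h : ∀ a b : ℤ, a ≤ b → S (a - 1) * S (b + 1) ≤ S a * S b)
    (a b c e : ℤ) (hs : a + e = b + c) (hab : a ≤ b) (hac : a ≤ c) :
    S a * S e ≤ S b * S c := by
  rcases le_total b c with hbc | hbc
  · have := LC_iter S h (b - a).toNat b c hbc
    have ht : (((b - a).toNat : ℕ) : ℤ) = b - a := Int.toNat_of_nonneg (by omega)
    rw [ht] at this
    have e1 : b - (b - a) = a := by ring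
    have e2 : c + (b - a) = e := by omega
    rwa [e1, e2] at this
  · have := LC_iter S h (c - a).toNat c b hbc
    have ht : (((c - a).toNat : ℕ) : ℤ) = c - a := Int.toNat_of_nonneg (by omega)
    rw [ht] at this
    have e1 : c - (c - a) = a := by ring
    have e2 : b + (c - a) = e := by omega
    rw [e1, e2] at this
    linarith [mul_comm (S b) (S c)]

theorem LC_step1 (S : ℤ → ℝ) (h : ∀ a b : ℤ, a ≤ b → S (a - 1) * S (b + 1) ≤ S a * S b)
    (a b : ℤ) (hab : a ≤ b) :
    (S (a - 1) + S (a - 1 - 1)) * (S (b + 1) + S (b + 1 - 1)) ≤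
      (S a + S (a - 1)) * (S b + S (b - 1)) := by
  have h1 := h a b hab
  have h2 := LC_four S h (a - 1 - 1) a (b - 1) (b + 1) (by ring) (by omega) (by omega)
  have h3 := LC_four S h (a - 1 - 1) (a - 1) (b - 1) b (by ring) (by omega) (by omega)
  have e : b + 1 - 1 = b := by ring
  rw [e]
  nlinarith

theorem LC_step2 (S : ℤ → ℝ) (h : ∀ a b : ℤ, a ≤ b → S (a - 1) * S (b + 1) ≤ S a * S b)
    (m : ℕ) (a b : ℤ) (hab : a ≤ b) :
    (∑ j ∈ range m, S (a - 1 - j)) * (∑ j ∈ range m, S (b + 1 - j)) ≤
      (∑ j ∈ range m, S (a - j)) * (∑ j ∈ range m, S (b - j)) := by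
  have key : ∀ c : ℤ, ∑ j ∈ range m, S (c - j) = ∑ j ∈ range m, S (c - 1 - j) + S c - S (c - m) := by
    intro c
    have h1 := Finset.sum_range_succ' (fun j : ℕ => S (c - j)) m
    have h2 := Finset.sum_range_succ (fun j : ℕ => S (c - j)) m
    have h3 : ∑ j ∈ range m, S (c - ((j + 1 : ℕ) : ℤ)) = ∑ j ∈ range m, S (c - 1 - j) := by
      refine Finset.sum_congr rfl fun j _ => ?_
      congr 1
      push_cast
      ring
    rw [h3] at h1
    simp only [Nat.cast_zero, sub_zero] at h1
    linarith
  have ka := key a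
  have kb := key (b + 1)
  have e : b + 1 - 1 = b := by ring
  rw [e] at kb
  rw [ka, kb]
  have h1 : S (b + 1) * ∑ j ∈ range m, S (a - 1 - j) ≤ (∑ j ∈ range m, S (b - j)) * S a := by
    rw [Finset.mul_sum, Finset.sum_mul]
    refine Finset.sum_le_sum fun j _ => ?_
    have := LC_four S h (a - 1 - j) (b - j) a (b + 1) (by ring) (by omega) (by omega)
    linarith [mul_comm (S (a - 1 - j)) (S (b + 1))]
  have h2 : (∑ j ∈ range m, S (b - j)) * S (a - m) ≤
      S (b + 1 - m) * ∑ j ∈ range m, S (a - 1 - j) := by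
    rw [Finset.mul_sum, Finset.sum_mul]
    refine Finset.sum_le_sum fun j hj => ?_
    have hj' := Finset.mem_range.mp hj
    have := LC_four S h (a - m) (b + 1 - m) (a - 1 - j) (b - j) (by ring) (by omega) (by omega)
    linarith [mul_comm (S (a - m)) (S (b - j))]
  nlinarith

theorem LC_zero (m : ℕ) (i : ℤ) : sph m 0 i = if i = 0 then 1 else 0 := by
  unfold sph nm
  by_cases hi : i = 0
  · subst hi
    simp
  · rw [if_neg hi]
    simp [Ne.symm hi]

theorem LC_nonneg (m d : ℕ) (i : ℤ) : 0 ≤ sph m d i := by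
  unfold sph
  positivity

theorem stLC (h : StRecB) : StLC := by
  intro m d hm
  have hrec := h.1 m
  induction d with
  | zero =>
    refine ⟨?_, ?_, ?_⟩
    · intro a b hab
      rw [LC_zero, LC_zero, LC_zero, LC_zero]
      by_cases h1 : a - 1 = 0 <;> by_cases h2 : b + 1 = 0 <;>
        first
        | (exfalso; omega)
        | (simp only [h1, h2, if_true, if_false, mul_zero, zero_mul]
           split_ifs <;> norm_num)
    · intro a ha0 ha1
      rw [LC_zero]
      have : a = 0 := by
        have : a ≤ 0 := by simpa using ha1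
        omega
      simp [this]
    · intro a ha
      rw [LC_zero, if_neg]
      rintro rfl
      rcases ha with ha | ha
      · exact lt_irrefl _ ha
      · simp at ha
  | succ d ih =>
    obtain ⟨hlc, hpos, hzero⟩ := ih
    set S : ℤ → ℝ := sph m d with hS
    have hR : ∀ i : ℤ, sph m (d + 1) i = ∑ j ∈ range m, (S (i - j) + S (i - j - 1)) := hrec d
    refine ⟨?_, ?_, ?_⟩
    · intro a b hab
      rw [hR, hR, hR, hR]
      exact LC_step2 (fun i => S i + S (i - 1)) (LC_step1 S hlc) m a b hab
    · intro a ha0 ha1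
      rw [hR]
      have hnn : ∀ j ∈ range m, 0 ≤ S (a - j) + S (a - j - 1) := fun j _ =>
        add_nonneg (LC_nonneg m d _) (LC_nonneg m d _)
      rcases le_or_gt a (d * m) with had | had
      · refine Finset.sum_pos' hnn ⟨0, Finset.mem_range.mpr (by omega), ?_⟩
        have := hpos a ha0 had
        have h2 : 0 ≤ S (a - 1) := LC_nonneg m d _
        simp only [Nat.cast_zero, sub_zero]
        linarith
      · have hj0 : 0 ≤ a - d * m - 1 := by omega
        have hj : (((a - d * m - 1).toNat : ℕ) : ℤ) = a - d * m - 1 := Int.toNat_of_nonneg hj0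
        refine Finset.sum_pos' hnn ⟨(a - d * m - 1).toNat, Finset.mem_range.mpr ?_, ?_⟩
        · push_cast at ha1
          have : (a - d * m - 1 : ℤ) < m := by nlinarith
          omega
        · rw [hj]
          have e : a - (a - d * m - 1) - 1 = d * m := by ring
          rw [e]
          have h1 := hpos (d * m) (by positivity) le_rfl
          have h2 : 0 ≤ S (a - (a - d * m - 1)) := LC_nonneg m d _
          linarith
    · intro a ha
      rw [hR]
      refine Finset.sum_eq_zero fun j hj => ?_
      have hj' := Finset.mem_range.mp hj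
      rcases ha with ha | ha
      · rw [hzero (a - j) (Or.inl (by omega)), hzero (a - j - 1) (Or.inl (by omega)), add_zero]
      · push_cast at ha
        have h3 : (d * m : ℤ) + m < a := by linarith
        have hjm : (j : ℤ) + 1 ≤ m := by exact_mod_cast hj'
        rw [hzero (a - j) (Or.inr (by linarith)), hzero (a - j - 1) (Or.inr (by linarith)),
          add_zero]

end Pool.Agent.Lib.MP_72646e_co.Low
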