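import Pool.Agent.Lib.MP_72646e_co.Low.Stmts

set_option autoImplicit false

/-! L22: the extremal set. -/

namespace Pool.Agent.Lib.MP_72646e_co.Low

open Finset

theorem lower_lee_nrm {q : ℕ} (a b : Fin q) : lee a b ≤ nrm a + nrm b := by
  have ha := a.2
  have hb := b.2
  simp only [lee, nrm, Nat.dist]
  omega

theorem lower_lee_rk {m : ℕ} (a b : Fin (2 * m + 1)) :
    lee a b ≤ m ∧ 2 * lee a b ≤ rk a + rk b + 1 := by
  have ha := a.2
  have hb := b.2
  simp only [lee, rk, Nat.dist]
  split_ifs <;> constructor <;> omega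

theorem lower_dL {m d : ℕ} (x y : Fin (d + 1) → Fin (2 * m + 1)) :
    dL x y ≤ lee (x 0) (y 0) + ((∑ i : Fin d, nrm (x i.succ)) + ∑ i : Fin d, nrm (y i.succ)) := by
  rw [dL, Fin.sum_univ_succ, ← Finset.sum_add_distrib]
  exact Nat.add_le_add_left (Finset.sum_le_sum fun i _ => lower_lee_nrm _ _) _

theorem lower_sum_rk (m : ℕ) (g : ℕ → ℕ) :
    ∑ a : Fin (2 * m + 1), g (rk a) = ∑ k ∈ range (2 * m + 1), g k := by
  refine Finset.sum_bij (fun a _ => rk a) ?_ ?_ ?_ ?_
  · intro a _
    have ha := a.2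
    rw [mem_range]
    simp only [rk]
    split_ifs <;> omega
  · intro a _ b _ h
    have ha := a.2
    have hb := b.2
    simp only [rk] at h
    apply Fin.ext
    split_ifs at h <;> omega
  · intro k hk
    rw [mem_range] at hk
    rcases Nat.even_or_odd' k with ⟨c, hc | hc⟩
    · rcases Nat.eq_zero_or_pos c with h0 | h0
      · refine ⟨⟨0, by omega⟩, mem_univ _, ?_⟩
        simp only [rk]
        split_ifs <;> omega
      · refine ⟨⟨2 * m + 1 - c, by omega⟩, mem_univ _, ?_⟩
        simp only [rk]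
        split_ifs <;> omega
    · refine ⟨⟨c + 1, by omega⟩, mem_univ _, ?_⟩
      simp only [rk]
      split_ifs <;> omega
  · intro a _
    rfl

theorem lower_fibre {m d D : ℕ} (h : StDel) (hD : D < 2 * m) (k : ℕ) :
    (univ.filter fun y : Fin d → Fin (2 * m + 1) => k + 2 * nm y ≤ D).card =
      if k ≤ D then Del d ((D - k) / 2) else 0 := by
  split_ifs with hk
  · rw [← h.1 (2 * m + 1) d ((D - k) / 2) (by omega)]
    congr 1
    ext y
    simp only [mem_filter, mem_univ, true_and]
    omega
  · rw [Finset.card_eq_zero, Finset.filter_eq_empty_iff]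
    intro y _
    omega

theorem lower_card {m d D : ℕ} (h : StDel) (hD : D < 2 * m) :
    (univ.filter fun x : Fin (d + 1) → Fin (2 * m + 1) =>
      rk (x 0) + 2 * ∑ i : Fin d, nrm (x i.succ) ≤ D).card =
    ∑ k ∈ range (D + 1), Del d ((D - k) / 2) := by
  have h1 : (univ.filter fun x : Fin (d + 1) → Fin (2 * m + 1) =>
      rk (x 0) + 2 * ∑ i : Fin d, nrm (x i.succ) ≤ D).card =
      ∑ a : Fin (2 * m + 1),
        (univ.filter fun y : Fin d → Fin (2 * m + 1) => rk a + 2 * nm y ≤ D).card := by
    rw [Finset.card_filter]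
    simp_rw [Finset.card_filter]
    rw [← (Fin.consEquiv (fun _ : Fin (d + 1) => Fin (2 * m + 1))).sum_comp,
      Fintype.sum_prod_type]
    rfl
  have h2 : ∑ a : Fin (2 * m + 1),
        (univ.filter fun y : Fin d → Fin (2 * m + 1) => rk a + 2 * nm y ≤ D).card =
      ∑ a : Fin (2 * m + 1), (if rk a ≤ D then Del d ((D - rk a) / 2) else 0) :=
    Finset.sum_congr rfl fun a _ => lower_fibre h hD (rk a)
  rw [h1, h2, lower_sum_rk m (fun k => if k ≤ D then Del d ((D - k) / 2) else 0)]
  have h3 : range (D + 1) ⊆ range (2 * m + 1) := by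
    intro k hk
    rw [mem_range] at *
    omega
  rw [← Finset.sum_subset h3]
  · refine Finset.sum_congr rfl fun k hk => ?_
    rw [mem_range] at hk
    rw [if_pos (by omega)]
  · intro k _ hk
    rw [mem_range] at hk
    rw [if_neg (by omega)]

theorem stLower (h : StDel) : StLower := by
  intro m d D hm hD
  constructor
  · intro x hx y hy
    have h0 := lower_dL x y
    have h1 := lower_lee_rk (x 0) (y 0)
    simp only [extSet, mem_filter, mem_univ, true_and] at hx hy
    rcases hx with hx | ⟨hx1, hx2, hx3⟩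
    · rcases hy with hy | ⟨hy1, hy2, hy3⟩
      · omega
      · have h2 : ∑ i : Fin d, nrm (y i.succ) = 0 :=
          Finset.sum_eq_zero fun i _ => by simp [nrm, hy3 i]
        omega
    · have h2 : ∑ i : Fin d, nrm (x i.succ) = 0 :=
        Finset.sum_eq_zero fun i _ => by simp [nrm, hx3 i]
      rcases hy with hy | ⟨hy1, hy2, hy3⟩
      · omega
      · have h3 : ∑ i : Fin d, nrm (y i.succ) = 0 :=
          Finset.sum_eq_zero fun i _ => by simp [nrm, hy3 i]
        omega
  · have h1 : extSet m d D = (univ.filter fun x : Fin (d + 1) → Fin (2 * m + 1) =>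
        rk (x 0) + 2 * ∑ i : Fin d, nrm (x i.succ) ≤ D) ∪
        (univ.filter fun x : Fin (d + 1) → Fin (2 * m + 1) =>
          D + 1 = 2 * m ∧ (x 0 : ℕ) = m + 1 ∧ ∀ i : Fin d, (x i.succ : ℕ) = 0) := by
      rw [extSet, Finset.filter_or]
    have h2 : Disjoint (univ.filter fun x : Fin (d + 1) → Fin (2 * m + 1) =>
        rk (x 0) + 2 * ∑ i : Fin d, nrm (x i.succ) ≤ D)
        (univ.filter fun x : Fin (d + 1) → Fin (2 * m + 1) =>
          D + 1 = 2 * m ∧ (x 0 : ℕ) = m + 1 ∧ ∀ i : Fin d, (x i.succ : ℕ) = 0) := by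
      rw [Finset.disjoint_filter]
      rintro x _ h3 ⟨h4, h5, -⟩
      have h6 : rk (x 0) = 2 * m := by
        simp only [rk, h5]
        split_ifs <;> omega
      omega
    rw [h1, Finset.card_union_of_disjoint h2, lower_card h hD]
    congr 1
    split_ifs with h3
    · rw [Finset.card_eq_one]
      refine ⟨Fin.cons ⟨m + 1, by omega⟩ fun _ => ⟨0, by omega⟩, ?_⟩
      ext x
      simp only [mem_filter, mem_univ, true_and, mem_singleton, h3]
      constructor
      · rintro ⟨h4, h5⟩
        funext i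
        refine Fin.cases ?_ (fun j => ?_) i
        · apply Fin.ext
          simpa using h4
        · apply Fin.ext
          simpa using h5 j
      · rintro rfl
        simp
    · rw [Finset.card_eq_zero, Finset.filter_eq_empty_iff]
      rintro x _ ⟨h4, -⟩
      exact h3 h4

end Pool.Agent.Lib.MP_72646e_co.Low
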