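import Pool.Agent.Lib.MP_72646e_co.Low.Stmts

set_option autoImplicit false

/-! Project Low, module Odd: the upper bound without a full fibre for odd `D`. -/

namespace Pool.Agent.Lib.MP_72646e_co.Low

open Finset

theorem odd_pairs (F : ℕ → ℝ) (n : ℕ) :
    ∑ k ∈ range (2 * n), F k = ∑ i ∈ range n, (F (2 * i) + F (2 * i + 1)) := by
  induction n with
  | zero => simp
  | succ n ih =>
    rw [show 2 * (n + 1) = 2 * n + 1 + 1 from by ring, sum_range_succ, sum_range_succ, ih,
      sum_range_succ]
    ring

theorem odd_tgt (m d R : ℕ) :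
    tgt m d (2 * R + 1) = 2 * ∑ i ∈ range (R + 1), ball m d ((R : ℝ) - i) := by
  unfold tgt
  rw [show 2 * R + 1 + 1 = 2 * (R + 1) from by ring, odd_pairs, mul_sum]
  refine sum_congr rfl fun i hi => ?_
  have hi' : i < R + 1 := mem_range.1 hi
  have e1 : (2 * R + 1 - 2 * i) / 2 = R - i := by omega
  have e2 : (2 * R + 1 - (2 * i + 1)) / 2 = R - i := by omega
  rw [e1, e2, Nat.cast_sub (by omega)]
  ring

theorem odd_card_layers {α : Type} [Fintype α] (g : α → ℕ) (N : ℕ)
    (hg : ∀ z, g z ≤ N) :
    ∑ z, g z = ∑ j ∈ range N, (univ.filter fun z => j < g z).card := by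
  have h1 : ∀ z, g z = ∑ j ∈ range N, if j < g z then 1 else 0 := by
    intro z
    rw [← card_filter]
    have : (range N).filter (fun j => j < g z) = range (g z) := by
      ext j
      simp only [mem_filter, mem_range]
      have := hg z
      omega
    rw [this, card_range]
  calc ∑ z, g z = ∑ z, ∑ j ∈ range N, (if j < g z then 1 else 0) :=
        sum_congr rfl fun z _ => h1 z
    _ = ∑ j ∈ range N, ∑ z, (if j < g z then 1 else 0) := sum_comm
    _ = _ := sum_congr rfl fun j _ => by rw [card_filter]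

theorem stOdd (h1 : StBasic) (h2 : StRad) (h3 : StSym) (h4 : StWM) (h5 : StSub) : StOdd := by
  intro m d R A hm hd hR hA hA2
  obtain ⟨hanti, hdist⟩ := hA
  classical
  obtain ⟨h, hle, hmem, hsum⟩ : ∃ h : (Fin d → Fin (2 * m)) → ℕ, (∀ z, h z ≤ 2 * m) ∧
      (∀ z k, k < h z → z ∈ A k) ∧ ∑ k ∈ range (2 * m + 1), (A k).card = ∑ z, h z := by
    refine ⟨fun z => ((range (2 * m)).filter fun k => z ∈ A k).card, ?_, ?_, ?_⟩
    · intro z
      calc ((range (2 * m)).filter fun k => z ∈ A k).card ≤ (range (2 * m)).card :=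
            card_filter_le _ _
        _ = 2 * m := card_range _
    · intro z k hk
      by_contra hz
      have hsub : ((range (2 * m)).filter fun k => z ∈ A k) ⊆ range k := by
        intro l hl
        rw [mem_filter] at hl
        rw [mem_range]
        by_contra hlk
        exact hz (hanti k l (not_lt.1 hlk) hl.2)
      have hc := card_le_card hsub
      rw [card_range] at hc
      exact absurd hk (not_lt.2 hc)
    · rw [sum_range_succ, hA2, card_empty, add_zero]
      have e1 : ∀ k, (A k).card = ∑ z, if z ∈ A k then 1 else 0 := by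
        intro k
        rw [← card_filter]
        congr 1
        ext z
        simp
      calc ∑ k ∈ range (2 * m), (A k).card
          = ∑ k ∈ range (2 * m), ∑ z, (if z ∈ A k then 1 else 0) :=
            sum_congr rfl fun k _ => e1 k
        _ = ∑ z, ∑ k ∈ range (2 * m), (if z ∈ A k then 1 else 0) := sum_comm
        _ = _ := sum_congr rfl fun z _ => by beta_reduce; rw [card_filter]
  have hdist' : ∀ z z', 0 < h z → 0 < h z' →
      min m ((h z + h z' - 1) / 2) + dL z z' ≤ 2 * R + 1 := by
    intro z z' hz hz'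
    have hb := hle z
    have hb' := hle z'
    have := hdist (h z - 1) (by omega) (h z' - 1) (by omega) z (hmem z _ (by omega)) z'
      (hmem z' _ (by omega))
    simp only [cc] at this
    have e : h z - 1 + (h z' - 1) + 1 = h z + h z' - 1 := by omega
    rw [e] at this
    exact this
  obtain ⟨g, hg1, hg2, hg3⟩ := h3 m d (2 * R + 1) h hm hle (by omega) hdist'
  obtain ⟨rad, hr1, hr2, hr3⟩ := h2 m d hm
  obtain ⟨hB1, -, hB0, -⟩ := h1 m d hm
  obtain ⟨N, hNm, hNg, hNe⟩ : ∃ N : ℕ, N ≤ m ∧ (∀ z, g z ≤ N) ∧ ∀ j < N, ∃ z, j < g z := by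
    refine ⟨univ.sup g, Finset.sup_le fun z _ => hg1 z, fun z => le_sup (mem_univ z), ?_⟩
    intro j hj
    obtain ⟨z, -, hz⟩ := (Finset.lt_sup_iff).1 hj
    exact ⟨z, hz⟩
  have hCne : ∀ j < N, (univ.filter fun z => j < g z).Nonempty := by
    intro j hj
    obtain ⟨z, hz⟩ := hNe j hj
    exact ⟨z, by simp [hz]⟩
  have hcu : ∀ j, (univ.filter fun z => j < g z).card ≤ (2 * m) ^ d := by
    intro j
    calc (univ.filter fun z => j < g z).card ≤ Fintype.card (Fin d → Fin (2 * m)) :=
          card_le_univ _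
      _ = (2 * m) ^ d := by simp
  have hBnn : ∀ ρ, 0 ≤ ball m d ρ := by
    intro ρ
    rcases le_total ρ (-1) with hρ | hρ
    · rw [hB0 ρ hρ]
    · rw [← hB0 (-1) le_rfl]
      exact hB1 hρ
  have hdm : 2 * m ≤ d * m := Nat.mul_le_mul_right m hd
  have hmin : ∀ i l, i < N → l < N → min m (i + l + 1) ≤ 2 * R + 1 := by
    intro i l hi hl
    obtain ⟨z, hz⟩ := hNe i hi
    obtain ⟨z', hz'⟩ := hNe l hl
    have := hg2 z z' (by omega) (by omega)
    omega
  have hrr : ∀ i l, i < N → l < N →
      rad (univ.filter fun z => i < g z).card + rad (univ.filter fun z => l < g z).card ≤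
        ((2 * R + 1 - min m (i + l + 1) : ℕ) : ℝ) := by
    intro i l hi hl
    refine hr3 _ _ _ ?_ (hCne i hi) (hCne l hl) ?_
    · have : 1 ≤ min m (i + l + 1) := by omega
      omega
    · intro x hx y hy
      rw [mem_filter] at hx hy
      have := hg2 x y (by omega) (by omega)
      have h6 := hx.2
      have h7 := hy.2
      omega
  have hrR : ∀ i < N, rad (univ.filter fun z => i < g z).card ≤ R := by
    intro i hi
    have h6 := hrr i i hi hi
    have h7 : 2 * R + 1 - min m (i + i + 1) ≤ 2 * R := by omega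
    have h8 : ((2 * R + 1 - min m (i + i + 1) : ℕ) : ℝ) ≤ ((2 * R : ℕ) : ℝ) := by
      exact_mod_cast h7
    push_cast at h8
    linarith
  have hRm : (R : ℝ) ≤ (m : ℝ) - 1 := by
    have : (R : ℝ) + 1 ≤ m := by exact_mod_cast hR
    linarith
  have hwm := h4 (ball m d) ((m : ℝ) - 1) N (fun i => rad (univ.filter fun z => i < g z).card)
    (fun i => (R : ℝ) - i) (h5 m d hm (by omega)).1 ?_ ?_ ?_
  · -- conclusion
    have hs1 : ∑ i ∈ range N, ball m d (rad (univ.filter fun z => i < g z).card) =
        ∑ i ∈ range N, ((univ.filter fun z => i < g z).card : ℝ) := by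
      refine sum_congr rfl fun i hi => ?_
      exact (hr1 _ (card_pos.2 (hCne i (mem_range.1 hi))) (hcu i)).2
    have hs2 : ∑ i ∈ range N, ball m d ((R : ℝ) - i) ≤
        ∑ i ∈ range (R + 1), ball m d ((R : ℝ) - i) := by
      rcases le_total N (R + 1) with hN | hN
      · refine sum_le_sum_of_subset_of_nonneg (range_mono hN) fun i _ _ => hBnn _
      · refine le_of_eq (sum_subset (range_mono hN) ?_).symm
        intro i _ hi2
        have hi3 : R + 1 ≤ i := by
          by_contra hc
          exact hi2 (mem_range.2 (by omega))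
        apply hB0
        have : (R : ℝ) + 1 ≤ i := by exact_mod_cast hi3
        linarith
    have hs3 : ((∑ z, g z : ℕ) : ℝ) =
        ∑ i ∈ range N, ((univ.filter fun z => i < g z).card : ℝ) := by
      rw [odd_card_layers g N hNg]
      push_cast
      rfl
    have hs4 : ((∑ z, h z : ℕ) : ℝ) ≤ 2 * ((∑ z, g z : ℕ) : ℝ) := by
      exact_mod_cast hg3
    rw [hsum, odd_tgt]
    rw [hs1, ← hs3] at hwm
    linarith
  · intro i hi
    have hcard := hr1 _ (card_pos.2 (hCne i hi)) (hcu i)
    have hi0 : (0 : ℝ) ≤ i := Nat.cast_nonneg i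
    refine ⟨by linarith [hcard.1], le_trans (hrR i hi) hRm, by linarith⟩
  · intro i j hij hj
    refine hr2 _ _ (card_pos.2 (hCne j hj)) (card_le_card ?_) (hcu i)
    intro z hz
    rw [mem_filter] at hz ⊢
    exact ⟨hz.1, lt_of_le_of_lt hij hz.2⟩
  · intro j hj
    have e1 := sum_range_reflect (fun i => rad (univ.filter fun z => i < g z).card) j
    have e2 := sum_range_reflect (fun i : ℕ => (R : ℝ) - i) j
    have key : ∑ i ∈ range j, (rad (univ.filter fun z => i < g z).card +
        rad (univ.filter fun z => j - 1 - i < g z).card) ≤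
        ∑ i ∈ range j, (((R : ℝ) - i) + ((R : ℝ) - ((j - 1 - i : ℕ) : ℝ))) := by
      refine sum_le_sum fun i hi => ?_
      have hi' : i < j := mem_range.1 hi
      have h6 := hrr i (j - 1 - i) (by omega) (by omega)
      have h7 := hmin i (j - 1 - i) (by omega) (by omega)
      have e3 : min m (i + (j - 1 - i) + 1) = j := by omega
      rw [e3] at h6 h7
      rw [Nat.cast_sub h7] at h6
      have e4 : ((j - 1 - i : ℕ) : ℝ) = (j : ℝ) - 1 - i := by
        rw [Nat.cast_sub (by omega), Nat.cast_sub (by omega)]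
        simp
      rw [e4]
      push_cast at h6
      linarith
    rw [sum_add_distrib, sum_add_distrib] at key
    beta_reduce at e1 e2 key ⊢
    rw [e1, e2] at key
    linarith

end Pool.Agent.Lib.MP_72646e_co.Low
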