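import Pool.Agent.Lib.MP_72646e_co.Low.Stmts

set_option autoImplicit false

/-! L19: the optimisation problem in the presence of a full fibre. -/

namespace Pool.Agent.Lib.MP_72646e_co.Low

open Finset

theorem opt_convex {f : ℝ → ℝ} {M a b s : ℝ} (h : SubG f M) (ha : -1 ≤ a) (ha' : a ≤ M)
    (hb : -1 ≤ b) (hb' : b ≤ M) (hs0 : 0 ≤ s) (hs1 : s ≤ 1) :
    f ((1 - s) * a + s * b) ≤ (1 - s) * f a + s * f b := by
  obtain ⟨β, -, -, h3⟩ := h
  set p := (1 - s) * a + s * b with hp
  have hp1 : -1 ≤ p := by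
    have h1 : (1 - s) * (-1) ≤ (1 - s) * a := mul_le_mul_of_nonneg_left ha (by linarith)
    have h2 : s * (-1) ≤ s * b := mul_le_mul_of_nonneg_left hb hs0
    rw [hp]; linarith
  have hp2 : p ≤ M := by
    have h1 : (1 - s) * a ≤ (1 - s) * M := mul_le_mul_of_nonneg_left ha' (by linarith)
    have h2 : s * b ≤ s * M := mul_le_mul_of_nonneg_left hb' hs0
    rw [hp]; linarith
  have e1 := h3 p a hp1 hp2 ha'
  have e2 := h3 p b hp1 hp2 hb'
  have e3 := mul_le_mul_of_nonneg_left e1 (show (0 : ℝ) ≤ 1 - s by linarith)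
  have e4 := mul_le_mul_of_nonneg_left e2 hs0
  have e5 : (1 - s) * (f p + β p * (a - p)) + s * (f p + β p * (b - p)) = f p := by
    rw [hp]; ring
  linarith

theorem opt_chord {f : ℝ → ℝ} {M x y δ : ℝ} (h : SubG f M) (hδ : δ ≤ M) (hx : 0 ≤ x)
    (hy : 0 ≤ y) (hxy : x + y ≤ δ) (h0 : f 0 ≤ f δ) : f x + f y ≤ f δ + f 0 := by
  rcases eq_or_lt_of_le (show 0 ≤ δ by linarith) with h1 | h1
  · have hx0 : x = 0 := by linarith
    have hy0 : y = 0 := by linarith
    rw [hx0, hy0, ← h1]
  · have e : ∀ z, 0 ≤ z → z ≤ δ → f z ≤ (1 - z / δ) * f 0 + z / δ * f δ := by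
      intro z hz0 hz1
      have h2 := opt_convex (a := 0) (b := δ) (s := z / δ) h (by linarith) (by linarith)
        (by linarith) hδ (by positivity) ((div_le_one h1).2 hz1)
      have h3 : (1 - z / δ) * 0 + z / δ * δ = z := by
        field_simp; ring
      rwa [h3] at h2
    have e1 := e x hx (by linarith)
    have e2 := e y hy (by linarith)
    have e3 : x / δ + y / δ ≤ 1 := by
      rw [← add_div]
      exact (div_le_one h1).2 hxy
    have e4 : (x / δ + y / δ) * (f δ - f 0) ≤ 1 * (f δ - f 0) :=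
      mul_le_mul_of_nonneg_right e3 (by linarith)
    linarith

/-- Comparison of sums through the reflection of the range. -/
theorem opt_reflect (a b : ℕ → ℝ) (j : ℕ)
    (h : ∀ i < j, a i + a (j - 1 - i) ≤ b i + b (j - 1 - i)) :
    ∑ i ∈ range j, a i ≤ ∑ i ∈ range j, b i := by
  have h1 : ∑ i ∈ range j, (a i + a (j - 1 - i)) ≤ ∑ i ∈ range j, (b i + b (j - 1 - i)) :=
    Finset.sum_le_sum fun i hi => h i (Finset.mem_range.1 hi)
  rw [Finset.sum_add_distrib, Finset.sum_add_distrib, Finset.sum_range_reflect,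
    Finset.sum_range_reflect] at h1
  linarith

/-- The comparison sequence. -/
noncomputable def optT (δ : ℕ) (i : ℕ) : ℝ := (δ : ℝ) - (((i + 1) / 2 : ℕ) : ℝ)

theorem opt_pair {m δ g : ℕ} {r : ℕ → ℝ} (hm : m = δ + g)
    (h : ∀ k l, k ≤ 2 * m → l ≤ 2 * m → r k + r l ≤ (m : ℝ) + δ - cc m k l)
    {k l e : ℕ} (hkl : k + l + 1 = 2 * e) (he : e ≤ δ) :
    r (g + k) + r (g + l) ≤ optT δ k + optT δ l := by
  have h1 := h (g + k) (g + l) (by omega) (by omega)
  have h2 : cc m (g + k) (g + l) = g + e := by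
    unfold cc; omega
  have h3 : (k + 1) / 2 + (l + 1) / 2 = e := by omega
  have h4 : (((k + 1) / 2 : ℕ) : ℝ) + (((l + 1) / 2 : ℕ) : ℝ) = e := by exact_mod_cast h3
  rw [h2] at h1
  have h5 : (m : ℝ) = δ + g := by exact_mod_cast hm
  unfold optT
  push_cast at h1
  linarith

theorem opt_partial {m δ g : ℕ} {r : ℕ → ℝ} (hm : m = δ + g)
    (h : ∀ k l, k ≤ 2 * m → l ≤ 2 * m → r k + r l ≤ (m : ℝ) + δ - cc m k l)
    {j : ℕ} (hj : j ≤ 2 * δ) :
    ∑ i ∈ range j, r (g + i) ≤ ∑ i ∈ range j, optT δ i := by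
  rcases Nat.even_or_odd' j with ⟨e, he | he⟩
  · refine opt_reflect (fun i => r (g + i)) (optT δ) j fun i hi => ?_
    exact opt_pair hm h (e := e) (by omega) (by omega)
  · subst he
    rw [Finset.sum_range_succ', Finset.sum_range_succ']
    have h0 : r (g + 0) ≤ optT δ 0 := by
      have h1 := h (g + 0) (g + 0) (by omega) (by omega)
      have h2 : cc m (g + 0) (g + 0) = g := by
        unfold cc; omega
      rw [h2] at h1
      have h5 : (m : ℝ) = δ + g := by exact_mod_cast hm
      unfold optT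
      norm_num
      norm_num at h1
      linarith
    have h3 := opt_reflect (fun i => r (g + (i + 1))) (fun i => optT δ (i + 1)) (2 * e)
      fun i hi => opt_pair hm h (e := e + 1) (by omega) (by omega)
    linarith

theorem opt_Del_one (d : ℕ) : (Del d 1 : ℝ) = 2 * d + 1 := by
  have h : Del d 1 = 2 * d + 1 := by
    unfold Del
    have h1 : ∀ i ∈ range (d + 1), 2 ^ i * d.choose i * Nat.choose 1 i =
        if i = 0 then 1 else if i = 1 then 2 * d else 0 := by
      intro i _
      rcases i with _ | _ | i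
      · simp
      · simp
      · simp [Nat.choose_eq_zero_of_lt (show 1 < i + 1 + 1 by omega)]
    rw [Finset.sum_congr rfl h1]
    rcases d with _ | d
    · simp
    · rw [Finset.sum_range_succ', Finset.sum_range_succ']
      simp
  exact_mod_cast h

theorem opt_pos (d r : ℕ) : 1 ≤ Del d r := by
  unfold Del
  calc 1 = 2 ^ 0 * d.choose 0 * r.choose 0 := by simp
    _ ≤ _ := Finset.single_le_sum (f := fun i => 2 ^ i * d.choose i * r.choose i)
      (fun i _ => Nat.zero_le _) (Finset.mem_range.2 (Nat.succ_pos d))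

theorem opt_split (b : ℕ → ℝ) (a δ : ℕ) :
    ∑ k ∈ range (2 * (δ + (a + 1)) + 1), b k =
      ∑ k ∈ range a, (b k + b (2 * (δ + (a + 1)) - k)) + b a +
        ∑ k ∈ range (2 * δ), b (a + 1 + k) + b (a + 1 + 2 * δ) + b (a + 2 + 2 * δ) := by
  have h1 : 2 * (δ + (a + 1)) + 1 = (a + 1 + 2 * δ + 1 + 1) + a := by ring
  rw [h1, Finset.sum_range_add, Finset.sum_range_succ, Finset.sum_range_succ,
    Finset.sum_range_add, Finset.sum_range_succ, Finset.sum_add_distrib]
  have h2 : ∑ k ∈ range a, b (a + 1 + 2 * δ + 1 + 1 + k) =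
      ∑ k ∈ range a, b (2 * (δ + (a + 1)) - k) := by
    rw [← Finset.sum_range_reflect]
    refine Finset.sum_congr rfl fun k hk => ?_
    have := Finset.mem_range.1 hk
    congr 1
    omega
  rw [h2]
  have h3 : a + 1 + 2 * δ + 1 = a + 2 + 2 * δ := by ring
  rw [h3]
  ring

theorem stOpt (h0 : StBasic) (h1 : StWM) (h2 : StSub) (h3 : StGrow) (h4 : StDel) : StOpt := by
  intro m d δ g r hd hg hm hm2 hδg hr0 hanti hcons
  obtain ⟨a, rfl⟩ : ∃ a, g = a + 1 := ⟨g - 1, by omega⟩
  obtain ⟨hmono, -, -, hB0, -, -, -, -, -⟩ := h0 m d (by omega)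
  obtain ⟨hsub, hBD, hBl⟩ := h2 m d (by omega) (by omega)
  have hmR : (m : ℝ) = δ + (a + 1) := by exact_mod_cast hm
  have hδM : (δ : ℝ) ≤ (m : ℝ) - 1 := by
    rw [hmR]; have : (0 : ℝ) ≤ a := Nat.cast_nonneg a
    linarith
  -- the inner part
  have hin : ∑ i ∈ range (2 * δ), ball m d (r (a + 1 + i)) ≤
      ∑ i ∈ range (2 * δ), ball m d (optT δ i) := by
    refine h1 (ball m d) ((m : ℝ) - 1) (2 * δ) (fun i => r (a + 1 + i)) (optT δ) hsub ?_ ?_ ?_
    · intro i hi
      have e1 : r (a + 1 + i) ≤ r (a + 1) := hanti _ _ (by omega) (by omega)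
      have e2 := hcons (a + 1) (a + 1) (by omega) (by omega)
      have e3 : cc m (a + 1) (a + 1) = a + 1 := by unfold cc; omega
      rw [e3] at e2
      push_cast at e2
      refine ⟨?_, ?_, ?_⟩
      · have := hr0 (a + 1 + i) (by omega)
        linarith
      · linarith
      · unfold optT
        have : (0 : ℝ) ≤ (((i + 1) / 2 : ℕ) : ℝ) := Nat.cast_nonneg _
        linarith
    · intro i j hij hj
      exact hanti _ _ (by omega) (by omega)
    · intro j hj
      exact opt_partial hm hcons hj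
  -- the middle value
  set φ := r (a + 1 + 2 * δ) with hφ
  have hφ0 : 0 ≤ φ := hr0 _ (by omega)
  have hφ1 : 2 * φ ≤ δ := by
    have e2 := hcons (a + 1 + 2 * δ) (a + 1 + 2 * δ) (by omega) (by omega)
    have e3 : cc m (a + 1 + 2 * δ) (a + 1 + 2 * δ) = m := by unfold cc; omega
    rw [e3] at e2
    linarith
  have ha1 : r a ≤ δ - φ := by
    have e2 := hcons a (a + 1 + 2 * δ) (by omega) (by omega)
    have e3 : cc m a (a + 1 + 2 * δ) = m := by unfold cc; omega
    rw [e3] at e2
    linarith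
  have ha2 : r (a + 2 + 2 * δ) ≤ φ := hanti _ _ (by omega) (by omega)
  -- the outer part
  have hout : ∑ k ∈ range a, (ball m d (r k) + ball m d (r (2 * (δ + (a + 1)) - k))) ≤
      a * (ball m d δ + 1) := by
    have e1 : ∀ k ∈ range a, ball m d (r k) + ball m d (r (2 * (δ + (a + 1)) - k)) ≤
        ball m d δ + 1 := by
      intro k hk
      have hk' := Finset.mem_range.1 hk
      have e2 := hcons k (2 * (δ + (a + 1)) - k) (by omega) (by omega)
      have e3 : cc m k (2 * (δ + (a + 1)) - k) = m := by unfold cc; omega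
      rw [e3] at e2
      rw [← hB0]
      refine opt_chord hsub hδM (hr0 _ (by omega)) (hr0 _ (by omega)) (by linarith)
        (hmono (Nat.cast_nonneg δ))
    refine (Finset.sum_le_sum e1).trans ?_
    rw [Finset.sum_const, Finset.card_range, nsmul_eq_mul]
  -- (v)
  have hv : ball m d (δ - φ) + 2 * ball m d φ ≤ ball m d δ + 2 + (if δ = 1 then (d : ℝ) else 0) := by
    rcases Nat.lt_trichotomy δ 1 with hδ | hδ | hδ
    · have hδ0 : δ = 0 := by omega
      have hφ2 : φ = 0 := by
        rw [hδ0] at hφ1; push_cast at hφ1; linarith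
      rw [hφ2, hδ0]
      norm_num
      rw [hB0]
    · have e1 := hBl 0 φ (by have := hδg hδ; omega) hφ0 (by rw [hδ] at hφ1; push_cast at hφ1; linarith)
      have e2 := hBl 0 (1 - φ) (by have := hδg hδ; omega)
        (by rw [hδ] at hφ1; push_cast at hφ1; linarith) (by linarith)
      have e3 := hBD 1 (by have := hδg hδ; omega)
      rw [h4.2.2.1 d, zero_add, opt_Del_one] at e1 e2
      rw [opt_Del_one] at e3
      rw [if_pos hδ, hδ]
      rw [hδ] at hφ1
      push_cast at e1 e2 e3 hφ1 ⊢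
      rw [zero_add] at e1 e2
      rw [e1, e2, e3]
      have hdR : (0 : ℝ) ≤ d := Nat.cast_nonneg d
      nlinarith [mul_le_mul_of_nonneg_left hφ1 hdR]
    · have hδR : (0 : ℝ) < δ := by exact_mod_cast (by omega : 0 < δ)
      rw [if_neg (by omega), add_zero]
      have e1 := h3 m d δ hd (by omega) (by omega)
      set s : ℝ := 2 * φ / δ with hs
      have hs0 : 0 ≤ s := by positivity
      have hs1 : s ≤ 1 := (div_le_one hδR).2 hφ1
      have hsd : s * δ = 2 * φ := by rw [hs]; field_simp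
      have e2 := opt_convex (a := 0) (b := (δ : ℝ) / 2) (s := s) hsub (by linarith)
        (by linarith) (by linarith) (by linarith) hs0 hs1
      have e3 := opt_convex (a := (δ : ℝ)) (b := (δ : ℝ) / 2) (s := s) hsub (by linarith)
        (by linarith) (by linarith) (by linarith) hs0 hs1
      have e4 : (1 - s) * 0 + s * ((δ : ℝ) / 2) = φ := by linarith
      have e5 : (1 - s) * (δ : ℝ) + s * ((δ : ℝ) / 2) = δ - φ := by linarith
      rw [e4, hB0] at e2
      rw [e5] at e3
      have e6 := mul_le_mul_of_nonneg_left e1 hs0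
      linarith
  -- the target
  have htgt : (a : ℝ) * ball m d (δ + 1) + ball m d δ + ∑ i ∈ range (2 * δ), ball m d (optT δ i) +
      1 ≤ tgt m d (m + δ) := by
    unfold tgt
    have e1 : m + δ + 1 = (a + 1 + 2 * δ) + 1 := by omega
    rw [e1, Finset.sum_range_succ, Finset.sum_range_add, Finset.sum_range_succ]
    have e2 : (m + δ - a) / 2 = δ := by omega
    have e3 : (m + δ - (a + 1 + 2 * δ)) / 2 = 0 := by omega
    rw [e2, e3, Nat.cast_zero, hB0]
    have e4 : ∑ i ∈ range (2 * δ), ball m d (((m + δ - (a + 1 + i)) / 2 : ℕ) : ℝ) =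
        ∑ i ∈ range (2 * δ), ball m d (optT δ i) := by
      refine Finset.sum_congr rfl fun i hi => ?_
      have hi' := Finset.mem_range.1 hi
      congr 1
      unfold optT
      have e5 : (m + δ - (a + 1 + i)) / 2 + (i + 1) / 2 = δ := by omega
      have e6 : (((m + δ - (a + 1 + i)) / 2 : ℕ) : ℝ) + (((i + 1) / 2 : ℕ) : ℝ) = δ := by
        exact_mod_cast e5
      linarith
    rw [e4]
    have e7 : (a : ℝ) * ball m d (δ + 1) ≤
        ∑ k ∈ range a, ball m d (((m + δ - k) / 2 : ℕ) : ℝ) := by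
      have e8 : ∀ k ∈ range a, ball m d (δ + 1) ≤ ball m d (((m + δ - k) / 2 : ℕ) : ℝ) := by
        intro k hk
        have hk' := Finset.mem_range.1 hk
        apply hmono
        have : δ + 1 ≤ (m + δ - k) / 2 := by omega
        exact_mod_cast this
      have e9 := Finset.sum_le_sum e8
      rwa [Finset.sum_const, Finset.card_range, nsmul_eq_mul] at e9
    linarith
  have hsplit := opt_split (fun k => ball m d (r k)) a δ
  rw [← hm] at hsplit
  rw [hsplit]
  rw [← hm] at hout
  have hb1 : ball m d (r a) ≤ ball m d (δ - φ) := hmono ha1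
  have hb2 : ball m d (r (a + 2 + 2 * δ)) ≤ ball m d φ := hmono ha2
  -- growth of the balls
  have hfin : (a : ℝ) * (ball m d δ + 1) + 1 + (if δ = 1 then (d : ℝ) else 0) ≤
      a * ball m d (δ + 1) + (if a + 1 = 1 then 1 else 0) := by
    rcases Nat.eq_zero_or_pos a with ha | ha
    · have : δ ≠ 1 := by intro h; have := hδg h; omega
      rw [if_neg this, ha]
      simp
    · rw [if_neg (by omega : a + 1 ≠ 1)]
      have haR : (1 : ℝ) ≤ a := by exact_mod_cast ha
      have e1 := hBD δ (by omega)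
      have e2 := hBD (δ + 1) (by omega)
      obtain ⟨c, rfl⟩ : ∃ c, d = c + 1 := ⟨d - 1, by omega⟩
      have e3 := h4.2.1 c δ
      have e4 : (Del (c + 1) (δ + 1) : ℝ) = Del (c + 1) δ + Del c (δ + 1) + Del c δ := by
        exact_mod_cast e3
      push_cast at e2
      rcases eq_or_ne δ 1 with hδ | hδ
      · rw [if_pos hδ]
        -- `B 2 - B 1 = Del c 2 + Del c 1`
        have e5 := opt_Del_one c
        have e6 := opt_Del_one (c + 1)
        have e7 : (2 : ℝ) * c + 1 ≤ Del c (δ + 1) := by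
          rw [← e5, hδ]
          obtain ⟨c', rfl⟩ : ∃ c', c = c' + 1 := ⟨c - 1, by omega⟩
          have := h4.2.1 c' 1
          have e8 : Del (c' + 1) 1 ≤ Del (c' + 1) (1 + 1) := by omega
          exact_mod_cast e8
        have e9 : (Del c δ : ℝ) = 2 * c + 1 := by rw [hδ]; exact e5
        have hcR : (1 : ℝ) ≤ c := by exact_mod_cast (by omega : 1 ≤ c)
        have e10 : (4 * c + 2 : ℝ) ≤ ball m (c + 1) (δ + 1) - ball m (c + 1) δ := by
          rw [e1, e2, e4, e9]; linarith
        have e11 : (a : ℝ) * (4 * c + 1) ≤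
            a * (ball m (c + 1) (δ + 1) - ball m (c + 1) δ - 1) :=
          mul_le_mul_of_nonneg_left (by linarith) (by linarith)
        have e12 : (1 : ℝ) * (4 * c + 1) ≤ a * (4 * c + 1) :=
          mul_le_mul_of_nonneg_right haR (by linarith)
        push_cast
        nlinarith
      · rw [if_neg hδ]
        have p1 : (1 : ℝ) ≤ Del c (δ + 1) := by exact_mod_cast opt_pos c (δ + 1)
        have p2 : (1 : ℝ) ≤ Del c δ := by exact_mod_cast opt_pos c δ
        have e10 : (2 : ℝ) ≤ ball m (c + 1) (δ + 1) - ball m (c + 1) δ := by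
          rw [e1, e2, e4]; linarith
        have e11 : (a : ℝ) * 1 ≤ a * (ball m (c + 1) (δ + 1) - ball m (c + 1) δ - 1) :=
          mul_le_mul_of_nonneg_left (by linarith) (by linarith)
        linarith
  linarith

end Pool.Agent.Lib.MP_72646e_co.Low
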