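import Pool.Agent.Lib.MP_72646e_co.Low.Stmts

set_option autoImplicit false

/-! L5: the path lemma. -/

namespace Pool.Agent.Lib.MP_72646e_co.Low

open Finset

/-- A monotone function vanishing up to `-1` is nonnegative. -/
theorem path_nonneg {f : ℝ → ℝ} (hf : Monotone f) (h0 : ∀ t, t ≤ -1 → f t = 0) (t : ℝ) :
    0 ≤ f t := by
  rcases le_total t (-1) with h | h
  · rw [h0 t h]
  · rw [← h0 (-1) le_rfl]
    exact hf h

theorem stPath : StPath := by
  intro f k y z ρ R hk hf h0 hSG hρ hanti hz0 hz hzi hsum
  obtain ⟨G, hG0, hG1, hG2⟩ := hSG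
  have hfn := path_nonneg hf h0
  -- the main quantities
  set c : ℕ → ℝ := fun i => y i - f (R - i) with hc
  set T : ℕ → ℝ := fun i => z i - f (R + 1 - i) with hT
  set C : ℕ → ℝ := fun j => ∑ i ∈ range j, c i with hC
  set F : ℕ → ℝ := fun j => ∑ i ∈ range j, T i with hF
  have hCs : ∀ j, C (j + 1) = C j + c j := fun j => by
    simp only [hC]; exact Finset.sum_range_succ c j
  have hFs : ∀ j, F (j + 1) = F j + T j := fun j => by
    simp only [hF]; exact Finset.sum_range_succ T j
  have hC0 : C 0 = 0 := by simp [hC]
  have hF0 : F 0 = 0 := by simp [hF]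
  have hy0 : ∀ i < k, 0 ≤ y i := fun i hi => by
    rw [← (hρ i hi).2]; exact hfn _
  -- (a)
  have ha : ∀ i < k, f (ρ i + 1) ≤ z i → G (ρ i) * c i ≤ T i := by
    intro i hi hzz
    have h1 := hρ i hi
    simp only [hc, hT]
    rcases le_or_gt (-1) (R - i) with h | h
    · have h2 := hG2 (ρ i) (R - i) h1.1 h
      rw [h1.2] at h2
      have h3 : R - (i : ℝ) + 1 = R + 1 - i := by ring
      rw [h3] at h2
      linarith
    · have h2 := hG2 (ρ i) (-1) h1.1 le_rfl
      rw [h1.2, h0 (-1) le_rfl] at h2
      have h3 : f (R + 1 - i) ≤ f (-1 + 1) := hf (by linarith)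
      rw [h0 (R - i) h.le]
      linarith
  -- (b)
  have hb : ∀ i, i + 1 < k → c i ≤ T (i + 1) := by
    intro i hi
    have h1 := hz i hi
    simp only [hc, hT]
    have h3 : R + 1 - ((i + 1 : ℕ) : ℝ) = R - i := by push_cast; ring
    rw [h3]
    linarith
  have hCk : 0 ≤ C k := by
    simp only [hC, hc, Finset.sum_sub_distrib]
    linarith
  -- invariant
  have key : ∀ j, j < k → (0 < C j → C j ≤ F (j + 1)) ∧
      (C j ≤ 0 → G (ρ j) * C (j + 1) ≤ F (j + 1)) := by
    intro j
    induction j with
    | zero =>
      intro hj
      refine ⟨fun h => by rw [hC0] at h; exact absurd h (lt_irrefl _), fun _ => ?_⟩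
      rw [hCs, hFs, hC0, hF0, zero_add, zero_add]
      exact ha 0 hj hz0
    | succ j ih =>
      intro hj
      obtain ⟨ih1, ih2⟩ := ih (by omega)
      have hbj := hb j hj
      have hG0j := hG0 (ρ j) (hρ j (by omega)).1
      have hG0j1 := hG0 (ρ (j + 1)) (hρ (j + 1) hj).1
      have hGj : G (ρ j) ≤ G (ρ (j + 1)) :=
        hG1 _ _ (hρ (j + 1) hj).1 (hanti j (j + 1) (by omega) hj)
      refine ⟨fun h => ?_, fun h => ?_⟩
      · rw [hFs (j + 1)]
        have h2 := hCs j
        rcases lt_or_ge 0 (C j) with h3 | h3
        · have := ih1 h3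
          linarith
        · have h4 := ih2 h3
          have h5 : 0 ≤ G (ρ j) * C (j + 1) := mul_nonneg hG0j h.le
          linarith
      · rw [hFs (j + 1)]
        rcases lt_or_ge 0 (y (j + 1)) with h3 | h3
        · have h4 := ha (j + 1) hj (hzi (j + 1) hj h3)
          have h5 : G (ρ (j + 1)) * C (j + 1) ≤ F (j + 1) := by
            rcases lt_or_ge 0 (C j) with h6 | h6
            · have h7 := ih1 h6
              have h8 : G (ρ (j + 1)) * C (j + 1) ≤ 0 := mul_nonpos_of_nonneg_of_nonpos hG0j1 h
              linarith
            · have h7 := ih2 h6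
              have h8 : G (ρ (j + 1)) * C (j + 1) ≤ G (ρ j) * C (j + 1) :=
                mul_le_mul_of_nonpos_right hGj h
              linarith
          rw [hCs (j + 1), mul_add]
          linarith
        · -- all later `y` vanish
          have hyz : ∀ i, j + 1 ≤ i → i < k → y i = 0 := by
            intro i hi1 hi2
            refine le_antisymm ?_ (hy0 i hi2)
            calc y i = f (ρ i) := (hρ i hi2).2.symm
              _ ≤ f (ρ (j + 1)) := hf (hanti _ _ hi1 hi2)
              _ = y (j + 1) := (hρ _ hj).2
              _ ≤ 0 := h3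
          have hmono : ∀ i, j + 1 ≤ i → i ≤ k → C k ≤ C i := by
            intro i hi1 hi2
            induction hi2 using Nat.decreasingInduction with
            | self => exact le_rfl
            | of_succ n hn ihn =>
              have h5 := ihn (by omega)
              rw [hCs n] at h5
              have h6 : c n ≤ 0 := by
                simp only [hc]
                rw [hyz n hi1 hn]
                have := hfn (R - n)
                linarith
              linarith
          have h5 := hmono (j + 1) le_rfl (by omega)
          have h6 := hmono (j + 1 + 1) (by omega) (by omega)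
          have h7 : C (j + 1) = 0 := le_antisymm h (by linarith)
          have h8 : C (j + 1 + 1) = 0 := by
            refine le_antisymm ?_ (by linarith)
            rw [hCs (j + 1), h7]
            simp only [hc]
            rw [hyz (j + 1) le_rfl hj]
            have := hfn (R - ((j + 1 : ℕ) : ℝ))
            linarith
          rw [h8, mul_zero]
          have h9 := hCs j
          rw [h7] at h9
          rcases lt_or_ge 0 (C j) with h10 | h10
          · have := ih1 h10
            linarith
          · have h11 := ih2 h10
            rw [h7, mul_zero] at h11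
            linarith
  have hfin : 0 ≤ F k := by
    obtain ⟨l, rfl⟩ : ∃ l, k = l + 1 := ⟨k - 1, by omega⟩
    obtain ⟨h1, h2⟩ := key l (by omega)
    rcases lt_or_ge 0 (C l) with h3 | h3
    · exact h3.le.trans (h1 h3)
    · exact (mul_nonneg (hG0 _ (hρ l (by omega)).1) hCk).trans (h2 h3)
  simp only [hF, hT, Finset.sum_sub_distrib] at hfin
  linarith

end Pool.Agent.Lib.MP_72646e_co.Low
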