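import Pool.Agent.Lib.MP_72646e_co.Low.Stmts

set_option autoImplicit false

/-! Module Rad: radii of sets with bounded cross distances. -/

namespace Pool.Agent.Lib.MP_72646e_co.Low

open Finset

theorem rad_lee_triangle {q : ℕ} (a b c : Fin q) : lee a c ≤ lee a b + lee b c := by
  have ha := a.2
  have hb := b.2
  have hc := c.2
  simp only [lee, Nat.dist]
  omega

theorem rad_dL_triangle {q d : ℕ} (x y z : Fin d → Fin q) : dL x z ≤ dL x y + dL y z := by
  unfold dL
  rw [← Finset.sum_add_distrib]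
  exact Finset.sum_le_sum fun i _ => rad_lee_triangle _ _ _

theorem rad_dL_self {q d : ℕ} (x : Fin d → Fin q) : dL x x = 0 := by
  simp [dL, lee]

/-- The antipode in the even cycle. -/
def radAnti {m : ℕ} (b : Fin (2 * m)) : Fin (2 * m) :=
  ⟨((b : ℕ) + m) % (2 * m), Nat.mod_lt _ (lt_of_le_of_lt (Nat.zero_le _) b.2)⟩

theorem radAnti_val {m : ℕ} (b : Fin (2 * m)) :
    ((radAnti b : Fin (2 * m)) : ℕ) = if (b : ℕ) < m then (b : ℕ) + m else (b : ℕ) - m := by
  have hb := b.2
  simp only [radAnti]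
  split_ifs with h
  · exact Nat.mod_eq_of_lt (by omega)
  · have h1 : (b : ℕ) + m = ((b : ℕ) - m) + 2 * m := by omega
    rw [h1, Nat.add_mod_right]
    exact Nat.mod_eq_of_lt (by omega)

theorem radAnti_inj {m : ℕ} : Function.Injective (radAnti : Fin (2 * m) → Fin (2 * m)) := by
  intro a b h
  have h1 : ((radAnti a : Fin (2 * m)) : ℕ) = (radAnti b : Fin (2 * m)) := by rw [h]
  rw [radAnti_val, radAnti_val] at h1
  have ha := a.2
  have hb := b.2
  apply Fin.ext
  split_ifs at h1 <;> omega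

theorem rad_lee_anti {m : ℕ} (a b : Fin (2 * m)) : lee a (radAnti b) + lee a b = m := by
  have ha := a.2
  have hb := b.2
  simp only [lee, Nat.dist]
  rw [radAnti_val]
  split_ifs <;> omega

theorem rad_dL_anti {m d : ℕ} (x y : Fin d → Fin (2 * m)) :
    dL x (fun i => radAnti (y i)) + dL x y = d * m := by
  unfold dL
  rw [← Finset.sum_add_distrib, Finset.sum_congr rfl fun i _ => rad_lee_anti (x i) (y i)]
  simp

theorem rad_mem_nbh {q d r : ℕ} {X : Finset (Fin d → Fin q)} {y : Fin d → Fin q} :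
    y ∈ nbh r X ↔ ∃ x ∈ X, dL x y ≤ r := by
  classical
  simp [nbh]

theorem rad_nbh_iter (h : StIso) {m d : ℕ} (hm : 1 ≤ m) {X : Finset (Fin d → Fin (2 * m))}
    (hX : X.Nonempty) {ρ : ℝ} (hρ : ball m d ρ ≤ X.card) (r : ℕ) :
    (nbh r X).Nonempty ∧ ball m d (ρ + r) ≤ (nbh r X).card := by
  induction r with
  | zero =>
    have h1 : X ⊆ nbh 0 X := fun x hx => rad_mem_nbh.mpr ⟨x, hx, by rw [rad_dL_self]⟩
    refine ⟨hX.mono h1, ?_⟩
    have h2 : ((X.card : ℕ) : ℝ) ≤ (nbh 0 X).card := by exact_mod_cast Finset.card_le_card h1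
    simpa using hρ.trans h2
  | succ r ih =>
    have h1 : nbh 1 (nbh r X) ⊆ nbh (r + 1) X := by
      intro z hz
      obtain ⟨y, hy, hyz⟩ := rad_mem_nbh.mp hz
      obtain ⟨x, hx, hxy⟩ := rad_mem_nbh.mp hy
      exact rad_mem_nbh.mpr ⟨x, hx, (rad_dL_triangle x y z).trans (by omega)⟩
    have h2 := h m d (nbh r X) (ρ + r) hm ih.1 ih.2
    have h3 : ((nbh 1 (nbh r X)).card : ℝ) ≤ (nbh (r + 1) X).card := by
      exact_mod_cast Finset.card_le_card h1
    have h4 : (nbh r X) ⊆ nbh (r + 1) X := by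
      intro z hz
      obtain ⟨x, hx, hxz⟩ := rad_mem_nbh.mp hz
      exact rad_mem_nbh.mpr ⟨x, hx, by omega⟩
    refine ⟨ih.1.mono h4, ?_⟩
    have h5 : ρ + ((r + 1 : ℕ) : ℝ) = ρ + r + 1 := by push_cast; ring
    rw [h5]
    exact h2.trans h3

theorem stRad (h1 : StBasic) (h2 : StIso) : StRad := by
  intro m d hm
  obtain ⟨hmono, hcont, hneg, hzero, hfull, hsym, hstrict, -, -⟩ := h1 m d hm
  have hdm : (0 : ℝ) ≤ (d * m : ℝ) := by positivity
  have hex : ∀ k : ℕ, ∃ ρ : ℝ, 1 ≤ k → k ≤ (2 * m) ^ d →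
      0 ≤ ρ ∧ ρ ≤ (d * m : ℝ) ∧ ball m d ρ = k := by
    intro k
    by_cases hk : 1 ≤ k ∧ k ≤ (2 * m) ^ d
    · have h3 : (k : ℝ) ∈ Set.Icc (ball m d 0) (ball m d (d * m : ℝ)) := by
        rw [hzero, hfull _ (le_refl _)]
        refine ⟨by exact_mod_cast hk.1, ?_⟩
        exact_mod_cast hk.2
      obtain ⟨ρ, hρ, hb⟩ := intermediate_value_Icc hdm hcont.continuousOn h3
      exact ⟨ρ, fun _ _ => ⟨hρ.1, hρ.2, hb⟩⟩
    · exact ⟨0, fun h3 h4 => absurd ⟨h3, h4⟩ hk⟩
  choose rad hrad using hex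
  refine ⟨rad, fun k h3 h4 => ⟨(hrad k h3 h4).1, (hrad k h3 h4).2.2⟩, ?_, ?_⟩
  · intro k l hk hkl hl
    obtain ⟨h3, h4, h5⟩ := hrad k hk (hkl.trans hl)
    obtain ⟨h6, h7, h8⟩ := hrad l (hk.trans hkl) hl
    by_contra hcon
    push Not at hcon
    have h9 := hstrict (rad l) (rad k) (by linarith) hcon h4
    rw [h5, h8] at h9
    have : l < k := by exact_mod_cast h9
    omega
  · intro X Y c hc hX hY hXY
    have hcardX : X.card ≤ (2 * m) ^ d := by
      have := Finset.card_le_univ X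
      simpa using this
    have hcardY : Y.card ≤ (2 * m) ^ d := by
      have := Finset.card_le_univ Y
      simpa using this
    obtain ⟨h3, h4, h5⟩ := hrad X.card hX.card_pos hcardX
    obtain ⟨h6, h7, h8⟩ := hrad Y.card hY.card_pos hcardY
    set r := d * m - c - 1 with hr
    obtain ⟨-, h9⟩ := rad_nbh_iter h2 hm hX (le_of_eq h5) r
    -- the antipodes of `Y`
    set Y' := Y.image (fun y i => radAnti (y i)) with hY'
    have hcY : Y'.card = Y.card := by
      refine Finset.card_image_of_injective _ ?_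
      intro y z hyz
      funext i
      exact radAnti_inj (congrFun hyz i)
    have hdis : Disjoint (nbh r X) Y' := by
      rw [Finset.disjoint_left]
      intro z hz hz'
      obtain ⟨x, hx, hxz⟩ := rad_mem_nbh.mp hz
      obtain ⟨y, hy, rfl⟩ := Finset.mem_image.mp hz'
      have h10 := hXY x hx y hy
      have h11 := rad_dL_anti x y
      omega
    have h10 : (nbh r X).card + Y.card ≤ (2 * m) ^ d := by
      rw [← hcY, ← Finset.card_union_of_disjoint hdis]
      have := Finset.card_le_univ (nbh r X ∪ Y')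
      simpa using this
    have h11 : ((nbh r X).card : ℝ) + Y.card ≤ (2 * m : ℝ) ^ d := by exact_mod_cast h10
    have h12 := hsym (rad X.card + r)
    have h13 : (d * m : ℝ) - 1 - (rad X.card + r) = c - rad X.card := by
      have : ((r : ℕ) : ℝ) = (d * m : ℝ) - c - 1 := by
        have h14 : r + c + 1 = d * m := by omega
        have h15 : ((r + c + 1 : ℕ) : ℝ) = ((d * m : ℕ) : ℝ) := by rw [h14]
        push_cast at h15
        linarith
      rw [this]
      ring
    rw [h13] at h12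
    have h14 : (Y.card : ℝ) ≤ ball m d (c - rad X.card) := by linarith
    by_contra hcon
    push Not at hcon
    have h15 : (c : ℝ) - rad X.card < rad Y.card := by linarith
    rcases le_or_gt (-1) ((c : ℝ) - rad X.card) with h16 | h16
    · have := hstrict _ _ h16 h15 h7
      linarith
    · have h17 := hneg _ h16.le
      have h18 : (1 : ℝ) ≤ Y.card := by exact_mod_cast hY.card_pos
      linarith

end Pool.Agent.Lib.MP_72646e_co.Low
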