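import Pool.Agent.Lib.MP_72646e_co.Low.Stmts

set_option autoImplicit false

/-! Reduction to families of sections. -/

namespace Pool.Agent.Lib.MP_72646e_co.Low

open Finset

namespace Red

/-- The position of a rank. -/
def posN (m k : ℕ) : ℕ := if k % 2 = 1 then (k + 1) / 2 else if k = 0 then 0 else 2 * m - k / 2

theorem posN_lt {m k : ℕ} (hm : 1 ≤ m) (hk : k ≤ 2 * m) : posN m k < 2 * m := by
  unfold posN
  split_ifs <;> omega

theorem posN_inj {m k l : ℕ} (hk : k < 2 * m) (hl : l < 2 * m)
    (h : posN m k = posN m l) : k = l := by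
  unfold posN at h
  split_ifs at h <;> omega

/-- The position of a rank, as an element of the even cycle. -/
def pos {m : ℕ} (hm : 1 ≤ m) (k : Fin (2 * m + 1)) : Fin (2 * m) :=
  ⟨posN m k, posN_lt hm (by have := k.2; omega)⟩

theorem lee_pos {m : ℕ} (hm : 1 ≤ m) (a b : Fin (2 * m + 1)) (ha : (a : ℕ) < 2 * m)
    (hb : (b : ℕ) < 2 * m) : lee (pos hm a) (pos hm b) ≤ cc m a b := by
  simp only [lee, pos, posN, cc, Nat.dist]
  split_ifs <;> omega

theorem exists_ge {q : ℕ} (F : Finset (Fin q)) (k : ℕ) (hk : k < F.card) :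
    ∃ a ∈ F, k ≤ (a : ℕ) := by
  by_contra hcon
  push Not at hcon
  have h1 : F.image (fun a : Fin q => (a : ℕ)) ⊆ range k := by
    intro x hx
    obtain ⟨a, ha, rfl⟩ := Finset.mem_image.1 hx
    exact Finset.mem_range.2 (hcon a ha)
  have h2 := Finset.card_le_card h1
  rw [Finset.card_image_of_injective _ Fin.val_injective, Finset.card_range] at h2
  omega

theorem cc_mono {m k l a b : ℕ} (h1 : k ≤ a) (h2 : l ≤ b) : cc m k l ≤ cc m a b := by
  unfold cc
  omega

theorem sum_lt {N c : ℕ} (hc : c ≤ N) : ∑ k ∈ range N, (if k < c then 1 else 0) = c := by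
  rw [← Finset.card_filter]
  have : (range N).filter (fun k => k < c) = range c := by
    ext k
    simp only [Finset.mem_filter, Finset.mem_range]
    omega
  rw [this, Finset.card_range]

end Red

open Red in
/-- Reduction to families of sections. -/
theorem stRed (h : StComp) : StRed := by
  classical
  intro m d D hm hD
  obtain ⟨A, hA1, hA2⟩ := h m (d + 1) D
  have key : ∃ i0 : Fin (d + 1), ∀ x ∈ A, ∀ i, i ≠ i0 → ((x i : Fin (2 * m + 1)) : ℕ) < 2 * m := by
    by_cases hex : ∃ x ∈ A, ∃ i, ((x i : Fin (2 * m + 1)) : ℕ) = 2 * m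
    · obtain ⟨x, hx, i, hi⟩ := hex
      refine ⟨i, fun y hy j hj => ?_⟩
      by_contra hlt
      have hyj := (y j).2
      have h1 := hA2 x hx y hy
      have h2 : cc m (x i) (y i) = m := by
        unfold cc
        omega
      have h3 : cc m (x j) (y j) = m := by
        unfold cc
        omega
      have h4 : ∑ t ∈ ({i, j} : Finset (Fin (d + 1))), cc m (x t) (y t) ≤
          ∑ t, cc m (x t) (y t) :=
        Finset.sum_le_sum_of_subset (Finset.subset_univ _)
      rw [Finset.sum_pair (Ne.symm hj), h2, h3] at h4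
      omega
    · push Not at hex
      refine ⟨0, fun x hx i _ => ?_⟩
      have h1 := (x i).2
      have h2 := hex x hx i
      omega
  obtain ⟨i0, hi0⟩ := key
  set F : (Fin d → Fin (2 * m + 1)) → Finset (Fin (2 * m + 1)) := fun z =>
    univ.filter fun k : Fin (2 * m + 1) => (i0.insertNth k z : Fin (d + 1) → Fin (2 * m + 1)) ∈ A
    with hF
  have hFmem : ∀ z k, k ∈ F z ↔ (i0.insertNth k z : Fin (d + 1) → Fin (2 * m + 1)) ∈ A := by
    intro z k
    simp [hF]
  have hFcard : ∀ z, (F z).card ≤ 2 * m + 1 := by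
    intro z
    have := Finset.card_le_univ (F z)
    rwa [Fintype.card_fin] at this
  have hz : ∀ z, 0 < (F z).card → ∀ t, ((z t : Fin (2 * m + 1)) : ℕ) < 2 * m := by
    intro z hzc t
    obtain ⟨k, hk⟩ := Finset.card_pos.1 hzc
    have h1 := hi0 _ ((hFmem z k).1 hk) (i0.succAbove t) (Fin.succAbove_ne i0 t)
    rwa [Fin.insertNth_apply_succAbove] at h1
  set B : ℕ → Finset (Fin d → Fin (2 * m)) := fun k =>
    (univ.filter fun z : Fin d → Fin (2 * m + 1) => k < (F z).card).image
      (fun z t => pos hm (z t)) with hB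
  refine ⟨B, ⟨?_, ?_⟩, ?_⟩
  · intro k l hkl
    refine Finset.image_subset_image ?_
    intro z hz1
    rw [Finset.mem_filter] at hz1 ⊢
    exact ⟨hz1.1, by omega⟩
  · intro k _ l _ x hx y hy
    rw [hB, Finset.mem_image] at hx hy
    obtain ⟨z, hz1, rfl⟩ := hx
    obtain ⟨z', hz2, rfl⟩ := hy
    rw [Finset.mem_filter] at hz1 hz2
    obtain ⟨a, ha, hka⟩ := exists_ge (F z) k hz1.2
    obtain ⟨b, hb, hlb⟩ := exists_ge (F z') l hz2.2
    have h1 := hA2 _ ((hFmem z a).1 ha) _ ((hFmem z' b).1 hb)
    rw [Fin.sum_univ_succAbove _ i0] at h1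
    simp only [Fin.insertNth_apply_same, Fin.insertNth_apply_succAbove] at h1
    have h2 : dL (fun t => pos hm (z t)) (fun t => pos hm (z' t)) ≤
        ∑ t, cc m (z t) (z' t) := by
      unfold dL
      refine Finset.sum_le_sum fun t _ => ?_
      exact lee_pos hm _ _ (hz z (by omega) t) (hz z' (by omega) t)
    have h3 := cc_mono (m := m) hka hlb
    omega
  · have h1 : ∀ k, (B k).card =
        (univ.filter fun z : Fin d → Fin (2 * m + 1) => k < (F z).card).card := by
      intro k
      refine Finset.card_image_of_injOn ?_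
      intro z hz1 z' hz2 hzz
      rw [Finset.mem_coe, Finset.mem_filter] at hz1 hz2
      funext t
      have h2 := congrFun hzz t
      have h3 : posN m (z t) = posN m (z' t) := by
        have := congrArg (fun u : Fin (2 * m) => (u : ℕ)) h2
        exact this
      exact Fin.ext (posN_inj (hz z (by omega) t) (hz z' (by omega) t) h3)
    rw [← hA1]
    calc ∑ k ∈ range (2 * m + 1), (B k).card
        = ∑ k ∈ range (2 * m + 1), ∑ z : Fin d → Fin (2 * m + 1),
            (if k < (F z).card then 1 else 0) := by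
          refine Finset.sum_congr rfl fun k _ => ?_
          rw [h1, Finset.card_filter]
      _ = ∑ z : Fin d → Fin (2 * m + 1), ∑ k ∈ range (2 * m + 1),
            (if k < (F z).card then 1 else 0) := Finset.sum_comm
      _ = ∑ z : Fin d → Fin (2 * m + 1), (F z).card := by
          refine Finset.sum_congr rfl fun z _ => ?_
          exact sum_lt (hFcard z)
      _ = ∑ z : Fin d → Fin (2 * m + 1), ∑ k : Fin (2 * m + 1),
            (if (i0.insertNth k z : Fin (d + 1) → Fin (2 * m + 1)) ∈ A then 1 else 0) := by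
          refine Finset.sum_congr rfl fun z _ => ?_
          rw [hF, Finset.card_filter]
      _ = ∑ k : Fin (2 * m + 1), ∑ z : Fin d → Fin (2 * m + 1),
            (if (i0.insertNth k z : Fin (d + 1) → Fin (2 * m + 1)) ∈ A then 1 else 0) :=
          Finset.sum_comm
      _ = ∑ p : Fin (2 * m + 1) × (Fin d → Fin (2 * m + 1)),
            (if (i0.insertNth p.1 p.2 : Fin (d + 1) → Fin (2 * m + 1)) ∈ A then 1 else 0) :=
          (Fintype.sum_prod_type (fun p : Fin (2 * m + 1) × (Fin d → Fin (2 * m + 1)) =>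
            (if (i0.insertNth p.1 p.2 : Fin (d + 1) → Fin (2 * m + 1)) ∈ A then 1 else 0))).symm
      _ = ∑ x : Fin (d + 1) → Fin (2 * m + 1), (if x ∈ A then 1 else 0) :=
          Equiv.sum_comp (Fin.insertNthEquiv (fun _ => Fin (2 * m + 1)) i0)
            (fun x => if x ∈ A then 1 else 0)
      _ = A.card := by simp

end Pool.Agent.Lib.MP_72646e_co.Low
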