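import Pool.Agent.Lib.MP_72646e_co.Low.Stmts

set_option autoImplicit false

/-! Project Low, module SG: isoperimetric supergradients from log-concave sequences. -/

namespace Pool.Agent.Lib.MP_72646e_co.Low

open Finset

lemma sg_cl_nonneg (x : ℝ) : 0 ≤ cl x := le_max_left _ _

lemma sg_cl_le_one (x : ℝ) : cl x ≤ 1 := by
  unfold cl
  exact max_le (by norm_num) (min_le_left _ _)

lemma sg_cl_eq_one {x : ℝ} (h : 1 ≤ x) : cl x = 1 := by
  unfold cl
  rw [min_eq_left h]
  norm_num

lemma sg_cl_eq_zero {x : ℝ} (h : x ≤ 0) : cl x = 0 := by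
  unfold cl
  have h1 : min 1 x ≤ 0 := le_trans (min_le_right _ _) h
  exact max_eq_left h1

/-- The cross inequality. -/
lemma sg_cross (S : ℤ → ℝ) (hLC : ∀ a b : ℤ, a ≤ b → S (a - 1) * S (b + 1) ≤ S a * S b)
    (a b : ℤ) (hab : a ≤ b) : S a * S (b + 1) ≤ S (a + 1) * S b := by
  rcases eq_or_lt_of_le hab with h | h
  · subst h
    rw [mul_comm]
  · have h1 := hLC (a + 1) b (by omega)
    have h2 : a + 1 - 1 = a := by ring
    rw [h2] at h1
    exact h1

/-- The supergradient of a log-concave sequence of length `N`. -/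
lemma sg_core (S : ℤ → ℝ) (N : ℕ)
    (hLC : ∀ a b : ℤ, a ≤ b → S (a - 1) * S (b + 1) ≤ S a * S b)
    (hpos : ∀ a : ℤ, 0 ≤ a → a < N → 0 < S a) (hzero : ∀ a : ℤ, a < 0 ∨ (N : ℤ) ≤ a → S a = 0) :
    SGrad (fun ρ => ∑ i ∈ range N, S i * cl (ρ + 1 - i)) := by
  have hnn : ∀ a : ℤ, 0 ≤ S a := by
    intro a
    by_cases h : a < 0 ∨ (N : ℤ) ≤ a
    · rw [hzero a h]
    · push Not at h
      exact (hpos a h.1 h.2).le
  have hcr := sg_cross S hLC
  -- monotonicity of the ratios
  have hrat : ∀ i j : ℕ, i ≤ j → S ((j : ℤ) + 1) / S (j : ℤ) ≤ S ((i : ℤ) + 1) / S (i : ℤ) := by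
    intro i j hij
    by_cases hj : j < N
    · have h1 : 0 < S (j : ℤ) := hpos _ (by omega) (by exact_mod_cast hj)
      have h2 : 0 < S (i : ℤ) := hpos _ (by omega) (by
        have : i < N := by omega
        exact_mod_cast this)
      rw [div_le_div_iff₀ h1 h2]
      have h3 := hcr (i : ℤ) (j : ℤ) (by exact_mod_cast hij)
      nlinarith [h3]
    · have h1 : S (j : ℤ) = 0 := hzero _ (Or.inr (by
        have : N ≤ j := by omega
        exact_mod_cast this))
      rw [h1, div_zero]
      exact div_nonneg (hnn _) (hnn _)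
  refine ⟨fun ρ => S ((⌊ρ + 1⌋₊ : ℤ) + 1) / S (⌊ρ + 1⌋₊ : ℤ), ?_, ?_, ?_⟩
  · intro ρ _
    exact div_nonneg (hnn _) (hnn _)
  · intro ρ σ _ hρσ
    exact hrat _ _ (Nat.floor_mono (by linarith))
  · intro ρ σ hρ hσ
    set i : ℕ := ⌊ρ + 1⌋₊ with hi
    have hi1 : (i : ℝ) ≤ ρ + 1 := Nat.floor_le (by linarith)
    have hi2 : ρ + 1 < (i : ℝ) + 1 := Nat.lt_floor_add_one _
    -- the shifted sums
    have hsh : ∀ τ : ℝ, -1 ≤ τ → ∑ j ∈ range N, S j * cl (τ + 1 + 1 - j) =
        S 0 + ∑ j ∈ range N, S ((j : ℤ) + 1) * cl (τ + 1 - j) := by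
      intro τ hτ
      have h1 : ∑ j ∈ range (N + 1), S j * cl (τ + 1 + 1 - j) =
          ∑ j ∈ range N, S j * cl (τ + 1 + 1 - j) := by
        rw [Finset.sum_range_succ, hzero (N : ℤ) (Or.inr le_rfl)]
        ring
      have h2 : ∑ j ∈ range (N + 1), S j * cl (τ + 1 + 1 - j) =
          S 0 + ∑ j ∈ range N, S ((j : ℤ) + 1) * cl (τ + 1 - j) := by
        rw [Finset.sum_range_succ']
        have h3 : S ((0 : ℕ) : ℤ) * cl (τ + 1 + 1 - ((0 : ℕ) : ℝ)) = S 0 := by
          rw [sg_cl_eq_one (by push_cast; linarith)]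
          simp
        rw [h3, add_comm]
        congr 1
        apply Finset.sum_congr rfl
        intro j _
        have h4 : τ + 1 + 1 - ((j + 1 : ℕ) : ℝ) = τ + 1 - j := by push_cast; ring
        rw [h4]
        push_cast
        rfl
      rw [← h1, h2]
    show ∑ j ∈ range N, S j * cl (σ + 1 + 1 - j) ≤ ∑ j ∈ range N, S j * cl (ρ + 1 + 1 - j) +
      S ((i : ℤ) + 1) / S (i : ℤ) * (∑ j ∈ range N, S j * cl (σ + 1 - j) -
        ∑ j ∈ range N, S j * cl (ρ + 1 - j))
    rw [hsh σ hσ, hsh ρ hρ]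
    set g : ℝ := S ((i : ℤ) + 1) / S (i : ℤ) with hg
    have hg0 : 0 ≤ g := div_nonneg (hnn _) (hnn _)
    have key : ∑ j ∈ range N, (S ((j : ℤ) + 1) - g * S (j : ℤ)) *
        (cl (σ + 1 - j) - cl (ρ + 1 - j)) ≤ 0 := by
      apply Finset.sum_nonpos
      intro j hj
      have hjN : j < N := Finset.mem_range.mp hj
      have hSj : 0 < S (j : ℤ) := hpos _ (by omega) (by exact_mod_cast hjN)
      rcases lt_trichotomy j i with h | h | h
      · -- j < i
        have hc : cl (ρ + 1 - j) = 1 := by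
          apply sg_cl_eq_one
          have : (j : ℝ) + 1 ≤ i := by exact_mod_cast h
          linarith
        have h1 : 0 ≤ S ((j : ℤ) + 1) - g * S (j : ℤ) := by
          have := hrat j i h.le
          rw [← hg] at this
          have h2 : g * S (j : ℤ) ≤ S ((j : ℤ) + 1) / S (j : ℤ) * S (j : ℤ) :=
            mul_le_mul_of_nonneg_right this hSj.le
          rw [div_mul_cancel₀ _ hSj.ne'] at h2
          linarith
        have h3 : cl (σ + 1 - j) - cl (ρ + 1 - j) ≤ 0 := by
          rw [hc]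
          linarith [sg_cl_le_one (σ + 1 - j)]
        exact mul_nonpos_of_nonneg_of_nonpos h1 h3
      · -- j = i
        have h1 : S ((j : ℤ) + 1) - g * S (j : ℤ) = 0 := by
          rw [hg, ← h, div_mul_cancel₀ _ hSj.ne']
          ring
        rw [h1, zero_mul]
      · -- i < j
        have hc : cl (ρ + 1 - j) = 0 := by
          apply sg_cl_eq_zero
          have : (i : ℝ) + 1 ≤ j := by exact_mod_cast h
          linarith
        have h1 : S ((j : ℤ) + 1) - g * S (j : ℤ) ≤ 0 := by
          have := hrat i j h.le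
          rw [← hg] at this
          have h2 : S ((j : ℤ) + 1) / S (j : ℤ) * S (j : ℤ) ≤ g * S (j : ℤ) :=
            mul_le_mul_of_nonneg_right this hSj.le
          rw [div_mul_cancel₀ _ hSj.ne'] at h2
          linarith
        have h3 : 0 ≤ cl (σ + 1 - j) - cl (ρ + 1 - j) := by
          rw [hc]
          linarith [sg_cl_nonneg (σ + 1 - j)]
        exact mul_nonpos_of_nonpos_of_nonneg h1 h3
    have hexp : ∑ j ∈ range N, (S ((j : ℤ) + 1) - g * S (j : ℤ)) *
        (cl (σ + 1 - j) - cl (ρ + 1 - j)) =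
        (∑ j ∈ range N, S ((j : ℤ) + 1) * cl (σ + 1 - j) -
          ∑ j ∈ range N, S ((j : ℤ) + 1) * cl (ρ + 1 - j)) -
        g * (∑ j ∈ range N, S j * cl (σ + 1 - j) - ∑ j ∈ range N, S j * cl (ρ + 1 - j)) := by
      rw [← Finset.sum_sub_distrib, ← Finset.sum_sub_distrib, Finset.mul_sum,
        ← Finset.sum_sub_distrib]
      apply Finset.sum_congr rfl
      intro j _
      ring
    rw [hexp] at key
    linarith

theorem stSG : StSG := by
  intro S L hLC hpos hzero
  have h1 : SGrad (fun ρ => ∑ i ∈ range (L + 1), S i * cl (ρ + 1 - i)) := by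
    apply sg_core S (L + 1) hLC
    · intro a ha hb
      push_cast at hb
      exact hpos a ha (by omega)
    · intro a ha
      push_cast at ha
      exact hzero a (by omega)
  refine ⟨h1, ?_⟩
  have h2 : SGrad (fun ρ => ∑ i ∈ range (L + 2), (fun a : ℤ => S a + S (a - 1)) i *
      cl (ρ + 1 - i)) := by
    have hnn : ∀ a : ℤ, 0 ≤ S a := by
      intro a
      by_cases h : a < 0 ∨ (L : ℤ) < a
      · rw [hzero a h]
      · push Not at h
        exact (hpos a h.1 h.2).le
    apply sg_core (fun a : ℤ => S a + S (a - 1)) (L + 2)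
    · intro a b hab
      show (S (a - 1) + S (a - 1 - 1)) * (S (b + 1) + S (b + 1 - 1)) ≤
        (S a + S (a - 1)) * (S b + S (b - 1))
      have e1 : b + 1 - 1 = b := by ring
      rw [e1]
      have c1 := hLC a b hab
      have c2 := hLC (a - 1) (b - 1) (by omega)
      have e2 : b - 1 + 1 = b := by ring
      rw [e2] at c2
      have c3 : S (a - 1 - 1) * S (b + 1) ≤ S a * S (b - 1) := by
        have c4 := hLC (a - 1) b (by omega)
        rcases eq_or_lt_of_le hab with h | h
        · subst h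
          nlinarith [c4]
        · have c5 := hLC a (b - 1) (by omega)
          rw [e2] at c5
          linarith
      nlinarith [c1, c2, c3]
    · intro a ha hb
      push_cast at hb
      show 0 < S a + S (a - 1)
      by_cases h : a ≤ L
      · have := hpos a ha h
        have := hnn (a - 1)
        linarith
      · have := hpos (a - 1) (by omega) (by omega)
        have := hnn a
        linarith
    · intro a ha
      push_cast at ha
      show S a + S (a - 1) = 0
      rw [hzero a (by omega), hzero (a - 1) (by omega)]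
      ring
  have h3 : (fun ρ : ℝ => ∑ i ∈ range (L + 2), (fun a : ℤ => S a + S (a - 1)) i *
      cl (ρ + 1 - i)) = (fun ρ : ℝ => ∑ i ∈ range (L + 1), S i * cl (ρ + 1 - i) +
      ∑ i ∈ range (L + 1), S i * cl (ρ - i)) := by
    funext ρ
    have e1 : ∑ i ∈ range (L + 2), (fun a : ℤ => S a + S (a - 1)) i * cl (ρ + 1 - i) =
        ∑ i ∈ range (L + 2), S i * cl (ρ + 1 - i) +
        ∑ i ∈ range (L + 2), S ((i : ℤ) - 1) * cl (ρ + 1 - i) := by
      rw [← Finset.sum_add_distrib]
      apply Finset.sum_congr rfl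
      intro i _
      show (S (i : ℤ) + S ((i : ℤ) - 1)) * cl (ρ + 1 - i) = _
      ring
    rw [e1]
    congr 1
    · rw [Finset.sum_range_succ, hzero ((L + 1 : ℕ) : ℤ) (Or.inr (by push_cast; omega))]
      ring
    · rw [Finset.sum_range_succ', hzero (((0 : ℕ) : ℤ) - 1) (Or.inl (by norm_num))]
      rw [zero_mul, add_zero]
      apply Finset.sum_congr rfl
      intro i _
      have e2 : ρ + 1 - ((i + 1 : ℕ) : ℝ) = ρ - i := by push_cast; ring
      have e3 : ((i + 1 : ℕ) : ℤ) - 1 = (i : ℤ) := by push_cast; ring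
      rw [e2, e3]
  rw [h3] at h2
  exact h2

theorem stSGB (h : StSG) (h1 : StLC) (h2 : StBasic) : StSGB := by
  intro m d hm
  obtain ⟨l1, l2, l3⟩ := h1 m d hm
  have hb := (h2 m d hm).2.2.2.2.2.2.2.2
  have l2' : ∀ a : ℤ, 0 ≤ a → a ≤ ((d * m : ℕ) : ℤ) → 0 < sph m d a := by
    intro a ha hb
    push_cast at hb
    exact l2 a ha hb
  have l3' : ∀ a : ℤ, a < 0 ∨ ((d * m : ℕ) : ℤ) < a → sph m d a = 0 := by
    intro a ha
    push_cast at ha
    exact l3 a ha
  obtain ⟨g1, g2⟩ := h (sph m d) (d * m) l1 l2' l3'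
  constructor
  · have e : ball m d = fun ρ => ∑ i ∈ range (d * m + 1), sph m d i * cl (ρ + 1 - i) := by
      funext ρ
      exact hb ρ
    rw [e]
    exact g1
  · have e : (fun ρ => ball m d ρ + ball m d (ρ - 1)) = fun ρ =>
        ∑ i ∈ range (d * m + 1), sph m d i * cl (ρ + 1 - i) +
        ∑ i ∈ range (d * m + 1), sph m d i * cl (ρ - i) := by
      funext ρ
      rw [hb ρ, hb (ρ - 1)]
      congr 1
      apply Finset.sum_congr rfl
      intro i _
      have e2 : ρ - 1 + 1 - (i : ℝ) = ρ - i := by ring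
      rw [e2]
    rw [e]
    exact g2

end Pool.Agent.Lib.MP_72646e_co.Low
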