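import Pool.Agent.Lib.MP_72646e_co.Low.Stmts

set_option autoImplicit false

/-! Module LOW-Sort: sorting the sections. -/

namespace Pool.Agent.Lib.MP_72646e_co.Low

open Finset

/-- Rotation by `s`. -/
def sortSh {q : ℕ} (x : Fin q) (s : ℕ) : Fin q :=
  ⟨((x : ℕ) + s) % q, Nat.mod_lt _ (by have := x.2; omega)⟩

theorem sortSh_sh {q : ℕ} (x : Fin q) (s t : ℕ) :
    sortSh (sortSh x s) t = sortSh x (s + t) := by
  apply Fin.ext
  simp [sortSh, Nat.add_assoc]

theorem sort_lee_sh {q : ℕ} (x : Fin q) {s : ℕ} (hs : q - 1 ≤ s) (hs2 : s ≤ q - 1 + 2) :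
    lee x (sortSh x s) ≤ 1 := by
  have hx := x.2
  have h1 : ((sortSh x s : Fin q) : ℕ) = ((x : ℕ) + s) % q := rfl
  simp only [lee, Nat.dist, h1]
  by_cases h2 : q = 1
  · subst h2
    omega
  · have h3 : ((x : ℕ) + s) % q = if (x : ℕ) + s < q then (x : ℕ) + s
        else if (x : ℕ) + s < 2 * q then (x : ℕ) + s - q else (x : ℕ) + s - 2 * q := by
      split_ifs with h4 h5
      · exact Nat.mod_eq_of_lt h4
      · rw [Nat.mod_eq_sub_mod (by omega), Nat.mod_eq_of_lt (by omega)]
      · rw [Nat.mod_eq_sub_mod (by omega), Nat.mod_eq_sub_mod (by omega),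
          Nat.mod_eq_of_lt (by omega)]
        omega
    rw [h3]
    split_ifs <;> omega

theorem sortSh_inj {q : ℕ} (s : ℕ) : Function.Injective (fun x : Fin q => sortSh x s) := by
  have h1 : ∀ x : Fin q, sortSh (sortSh x s) (q * s - s) = x := by
    intro x
    rw [sortSh_sh]
    apply Fin.ext
    have hx := x.2
    have h2 : s ≤ q * s := Nat.le_mul_of_pos_left s (by omega)
    have h3 : (x : ℕ) + (s + (q * s - s)) = (x : ℕ) + q * s := by omega
    simp only [sortSh, h3, Nat.add_mul_mod_self_left]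
    exact Nat.mod_eq_of_lt x.2
  intro x y hxy
  have h2 := congrArg (fun z => sortSh z (q * s - s)) hxy
  simp only [h1] at h2
  exact h2

theorem sort_exists_sh {q : ℕ} (x y : Fin q) : ∃ s, y = sortSh x s := by
  refine ⟨(y : ℕ) + (q - (x : ℕ)), ?_⟩
  have hx := x.2
  have hy := y.2
  apply Fin.ext
  have h1 : (x : ℕ) + ((y : ℕ) + (q - (x : ℕ))) = (y : ℕ) + q := by omega
  simp only [sortSh, h1, Nat.add_mod_right]
  exact (Nat.mod_eq_of_lt hy).symm

theorem sort_univ_of_closed {q : ℕ} {U : Finset (Fin q)} (hne : U.Nonempty)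
    (h : ∀ y ∈ U, sortSh y 1 ∈ U) : U = univ := by
  obtain ⟨x, hx⟩ := hne
  have h1 : ∀ s, sortSh x s ∈ U := by
    intro s
    induction s with
    | zero =>
      have : sortSh x 0 = x := by
        apply Fin.ext
        simp only [sortSh, Nat.add_zero]
        exact Nat.mod_eq_of_lt x.2
      rw [this]; exact hx
    | succ s ih =>
      rw [← sortSh_sh]
      exact h _ ih
  ext y
  simp only [mem_univ, iff_true]
  obtain ⟨s, rfl⟩ := sort_exists_sh x y
  exact h1 s

open scoped Classical in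
theorem sort_growth {q : ℕ} (X : Finset (Fin q)) (hX : X.Nonempty) (a k : ℕ) :
    min q (X.card + k) ≤
      (univ.filter fun y : Fin q => ∃ x ∈ X, ∃ s, a ≤ s ∧ s ≤ a + k ∧
        y = sortSh x s).card := by
  induction k with
  | zero =>
    have h1 : X.image (fun x => sortSh x a) ⊆
        (univ.filter fun y : Fin q => ∃ x ∈ X, ∃ s, a ≤ s ∧ s ≤ a + 0 ∧ y = sortSh x s) := by
      intro y hy
      rw [Finset.mem_image] at hy
      obtain ⟨x, hx, rfl⟩ := hy
      exact Finset.mem_filter.2 ⟨mem_univ _, x, hx, a, le_rfl, le_rfl, rfl⟩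
    have h2 := Finset.card_le_card h1
    rw [Finset.card_image_of_injective _ (sortSh_inj a)] at h2
    omega
  | succ k ih =>
    set U := (univ.filter fun y : Fin q => ∃ x ∈ X, ∃ s, a ≤ s ∧ s ≤ a + k ∧
        y = sortSh x s) with hU
    have hsub : U ⊆ (univ.filter fun y : Fin q => ∃ x ∈ X, ∃ s, a ≤ s ∧
        s ≤ a + (k + 1) ∧ y = sortSh x s) := by
      intro y hy
      obtain ⟨-, x, hx, s, h1, h2, h3⟩ := Finset.mem_filter.1 hy
      exact Finset.mem_filter.2 ⟨mem_univ _, x, hx, s, h1, by omega, h3⟩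
    have hUne : U.Nonempty := by
      obtain ⟨x, hx⟩ := hX
      exact ⟨sortSh x a, Finset.mem_filter.2 ⟨mem_univ _, x, hx, a, le_rfl, by omega, rfl⟩⟩
    by_cases hun : U = univ
    · have h1 := Finset.card_le_card hsub
      rw [hun, Finset.card_univ, Fintype.card_fin] at h1
      omega
    · have h1 : ∃ y ∈ U, sortSh y 1 ∉ U := by
        by_contra hcon
        push Not at hcon
        exact hun (sort_univ_of_closed hUne hcon)
      obtain ⟨y, hy, hy1⟩ := h1
      have h2 : insert (sortSh y 1) U ⊆ (univ.filter fun y : Fin q => ∃ x ∈ X, ∃ s, a ≤ s ∧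
        s ≤ a + (k + 1) ∧ y = sortSh x s) := by
        intro z hz
        rw [Finset.mem_insert] at hz
        rcases hz with rfl | hz
        · obtain ⟨-, x, hx, s, h1, h2, h3⟩ := Finset.mem_filter.1 hy
          refine Finset.mem_filter.2 ⟨mem_univ _, x, hx, s + 1, by omega, by omega, ?_⟩
          rw [h3, sortSh_sh]
        · exact hsub hz
      have h3 := Finset.card_le_card h2
      rw [Finset.card_insert_of_notMem hy1] at h3
      omega

open scoped Classical in
/-- The closed neighbourhood of a nonempty set in a cycle. -/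
theorem sort_nbh {q : ℕ} (X : Finset (Fin q)) (hX : X.Nonempty) :
    min q (X.card + 2) ≤ (univ.filter fun y : Fin q => ∃ x ∈ X, lee x y ≤ 1).card := by
  refine le_trans (sort_growth X hX (q - 1) 2) (Finset.card_le_card ?_)
  intro y hy
  obtain ⟨-, x, hx, s, h1, h2, h3⟩ := Finset.mem_filter.1 hy
  refine Finset.mem_filter.2 ⟨mem_univ _, x, hx, ?_⟩
  rw [h3]
  exact sort_lee_sh x h1 h2

/-- Antitone rearrangement. -/
theorem sort_exists (q : ℕ) (x : Fin q → ℝ) :
    ∃ σ : Equiv.Perm (Fin q), ∀ i j, i ≤ j → x (σ j) ≤ x (σ i) := by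
  refine ⟨Tuple.sort (fun t => -x t), ?_⟩
  intro i j hij
  have h := Tuple.monotone_sort (fun t => -x t) hij
  simp only [Function.comp_apply] at h
  linarith

open scoped Classical in
/-- A value attained at least `j + 1` times from above. -/
theorem sort_le (q : ℕ) (n : Fin q → ℝ) (τ : Equiv.Perm (Fin q))
    (hτ : ∀ i j, i ≤ j → n (τ j) ≤ n (τ i)) (v : ℝ) (j : Fin q)
    (h : (j : ℕ) + 1 ≤ (univ.filter fun t => v ≤ n t).card) : v ≤ n (τ j) := by
  by_contra hlt
  push Not at hlt
  have h1 : (univ.filter fun t => v ≤ n t) ⊆ (univ.filter fun i : Fin q => i < j).image τ := by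
    intro t ht
    have ht' := (Finset.mem_filter.1 ht).2
    refine Finset.mem_image.2 ⟨τ.symm t, Finset.mem_filter.2 ⟨mem_univ _, ?_⟩, by simp⟩
    by_contra h2
    push Not at h2
    have h3 := hτ j (τ.symm t) h2
    rw [Equiv.apply_symm_apply] at h3
    linarith
  have h2 := Finset.card_le_card h1
  have h3 : ((univ.filter fun i : Fin q => i < j).image τ).card ≤ (j : ℕ) := by
    refine le_trans Finset.card_image_le ?_
    have h4 : (univ.filter fun i : Fin q => i < j) = Finset.Iio j := by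
      ext i; simp
    rw [h4, Fin.card_Iio]
  omega

theorem stSort : StSort := by
  classical
  intro m x w n hm hxw hwn hxn
  obtain ⟨σ, hσ⟩ := sort_exists (2 * m) x
  obtain ⟨τ, hτ⟩ := sort_exists (2 * m) n
  have hq : 0 < 2 * m := by omega
  let e : ℕ → Fin (2 * m) := fun i => ⟨i % (2 * m), Nat.mod_lt _ hq⟩
  have he : ∀ i : Fin (2 * m), e i = i := by
    intro i
    apply Fin.ext
    exact Nat.mod_eq_of_lt i.2
  have he' : ∀ i, i < 2 * m → ((e i : Fin (2 * m)) : ℕ) = i := by
    intro i hi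
    exact Nat.mod_eq_of_lt hi
  have hsum : ∀ (f : Fin (2 * m) → ℝ) (ρ : Equiv.Perm (Fin (2 * m))),
      ∑ i ∈ range (2 * m), f (ρ (e i)) = ∑ t, f t := by
    intro f ρ
    rw [Finset.sum_range (fun i => f (ρ (e i)))]
    simp only [he]
    exact Equiv.sum_comp ρ f
  have hmono : ∀ i j, i ≤ j → j < 2 * m → e i ≤ e j := by
    intro i j hij hj
    rw [Fin.le_def, he' i (by omega), he' j hj]
    exact hij
  have hcard : ∀ i < 2 * m, ((univ.filter fun t => ∃ k : Fin (2 * m), (k : ℕ) ≤ i ∧ σ k = t).card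
      = i + 1) := by
    intro i hi
    have h1 : (univ.filter fun t => ∃ k : Fin (2 * m), (k : ℕ) ≤ i ∧ σ k = t) =
        (Finset.Iic (e i)).image σ := by
      ext t
      simp only [Finset.mem_filter, mem_univ, true_and, Finset.mem_image, Finset.mem_Iic,
        Fin.le_def, he' i hi]
    rw [h1, Finset.card_image_of_injective _ σ.injective, Fin.card_Iic, he' i hi]
  refine ⟨fun i => σ (e i), fun i => n (τ (e i)), ?_, hsum x σ, hsum n τ, ?_, ?_⟩
  · intro i j hij hj
    exact hσ _ _ (hmono i j hij hj)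
  · intro i hi hpos
    refine sort_le (2 * m) n τ hτ _ (e i) ?_
    rw [he' i hi, ← hcard i hi]
    refine Finset.card_le_card ?_
    intro t ht
    obtain ⟨-, k, hk, rfl⟩ := Finset.mem_filter.1 ht
    refine Finset.mem_filter.2 ⟨mem_univ _, ?_⟩
    have h1 : x (σ (e i)) ≤ x (σ k) := by
      refine hσ k (e i) ?_
      rw [Fin.le_def, he' i hi]; exact hk
    exact le_trans (hxw _ _ h1) (hwn _ (lt_of_lt_of_le hpos h1))
  · intro i j hi hj hji
    refine sort_le (2 * m) n τ hτ _ (e j) ?_
    set U := (univ.filter fun t => ∃ k : Fin (2 * m), (k : ℕ) ≤ i ∧ σ k = t) with hU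
    have hUc : U.card = i + 1 := hcard i hi
    have hUne : U.Nonempty := by
      rw [← Finset.card_pos, hUc]; omega
    have h1 := sort_nbh U hUne
    have h2 : (univ.filter fun y : Fin (2 * m) => ∃ x ∈ U, lee x y ≤ 1) ⊆
        (univ.filter fun t => x (σ (e i)) ≤ n t) := by
      intro y hy
      obtain ⟨-, z, hz, hzy⟩ := Finset.mem_filter.1 hy
      obtain ⟨-, k, hk, rfl⟩ := Finset.mem_filter.1 hz
      refine Finset.mem_filter.2 ⟨mem_univ _, ?_⟩
      have h3 : x (σ (e i)) ≤ x (σ k) := by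
        refine hσ k (e i) ?_
        rw [Fin.le_def, he' i hi]; exact hk
      exact le_trans h3 (hxn _ _ hzy)
    have h3 := Finset.card_le_card h2
    rw [he' j hj]
    change j + 1 ≤ (univ.filter fun t => x (σ (e i)) ≤ n t).card
    omega

end Pool.Agent.Lib.MP_72646e_co.Low
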