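import Pool.Agent.Lib.MP_72646e_co.Low.Stmts

set_option autoImplicit false

/-! The numerical induction step of the isoperimetric theorem. -/

namespace Pool.Agent.Lib.MP_72646e_co.Low

open Finset

/-- A right inverse of `ball m d`. -/
theorem step_inv (h2 : StBasic) {m d : ℕ} (hm : 1 ≤ m) :
    ∃ inv : ℝ → ℝ, ∀ y : ℝ, 0 ≤ y → y ≤ (2 * m) ^ d → -1 ≤ inv y ∧ ball m d (inv y) = y := by
  obtain ⟨hmono, hcont, hneg, h0, htop, -⟩ := h2 m d hm
  have key : ∀ y : ℝ, 0 ≤ y → y ≤ (2 * m) ^ d → ∃ ρ : ℝ, -1 ≤ ρ ∧ ball m d ρ = y := by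
    intro y hy hy1
    have hle : (-1 : ℝ) ≤ d * m := by
      have : (0 : ℝ) ≤ (d : ℝ) * m := by positivity
      linarith
    have h3 := intermediate_value_Icc hle hcont.continuousOn
    have h4 : y ∈ Set.Icc (ball m d (-1)) (ball m d (d * m)) := by
      rw [hneg (-1) le_rfl, htop _ le_rfl]
      exact ⟨hy, hy1⟩
    obtain ⟨ρ, hρ, hρ2⟩ := h3 h4
    exact ⟨ρ, hρ.1, hρ2⟩
  choose! inv hinv using key
  exact ⟨inv, fun y hy hy1 => hinv y hy hy1⟩

/-- A right inverse of `ball m d ρ + ball m d (ρ - 1)`. -/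
theorem step_inv2 (h2 : StBasic) {m d : ℕ} (hm : 1 ≤ m) :
    ∃ inv : ℝ → ℝ, ∀ y : ℝ, 0 ≤ y → y ≤ 2 * (2 * m) ^ d → -1 ≤ inv y ∧
      ball m d (inv y) + ball m d (inv y - 1) = y := by
  obtain ⟨hmono, hcont, hneg, h0, htop, -⟩ := h2 m d hm
  have key : ∀ y : ℝ, 0 ≤ y → y ≤ 2 * (2 * m) ^ d → ∃ ρ : ℝ, -1 ≤ ρ ∧
      ball m d ρ + ball m d (ρ - 1) = y := by
    intro y hy hy1
    have hle : (-1 : ℝ) ≤ d * m + 1 := by
      have : (0 : ℝ) ≤ (d : ℝ) * m := by positivity
      linarith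
    have hc2 : Continuous (fun ρ : ℝ => ball m d ρ + ball m d (ρ - 1)) :=
      hcont.add (hcont.comp (continuous_id.sub continuous_const))
    have h3 := intermediate_value_Icc hle hc2.continuousOn
    have h4 : y ∈ Set.Icc (ball m d (-1) + ball m d (-1 - 1))
        (ball m d (d * m + 1) + ball m d (d * m + 1 - 1)) := by
      rw [hneg (-1) le_rfl, hneg (-1 - 1) (by norm_num), htop _ (by linarith),
        htop _ (by linarith)]
      exact ⟨by linarith, by linarith⟩
    obtain ⟨ρ, hρ, hρ2⟩ := h3 h4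
    exact ⟨ρ, hρ.1, hρ2⟩
  choose! inv hinv using key
  exact ⟨inv, fun y hy hy1 => hinv y hy hy1⟩

theorem step_pairs (x : ℕ → ℝ) (m : ℕ) :
    ∑ i ∈ range (2 * m), x i = ∑ i ∈ range m, (x (2 * i) + x (2 * i + 1)) := by
  induction m with
  | zero => simp
  | succ m ih =>
    rw [Finset.sum_range_succ, ← ih, show 2 * (m + 1) = 2 * m + 1 + 1 by ring,
      Finset.sum_range_succ, Finset.sum_range_succ]
    ring

theorem stStep (h1 : StRecB) (h2 : StBasic) (h3 : StSGB) (h4 : StPath) (h5 : StSort) :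
    StStep := by
  intro m d x n hm hx hpos hiso hadj R hR
  obtain ⟨hmono, hcont, hneg, h0, htop, -⟩ := h2 m d hm
  obtain ⟨hsg1, hsg2⟩ := h3 m d hm
  obtain ⟨inv, hinv⟩ := step_inv h2 (m := m) (d := d) hm
  obtain ⟨inv2, hinv2⟩ := step_inv2 h2 (m := m) (d := d) hm
  have hinvmono : ∀ y y' : ℝ, 0 ≤ y → y ≤ y' → y' ≤ (2 * m) ^ d → inv y ≤ inv y' := by
    intro y y' hy hyy hy'
    rcases hyy.eq_or_lt with h | h
    · rw [h]
    · by_contra hc
      push Not at hc
      have e1 := hmono hc.le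
      rw [(hinv y hy (by linarith)).2, (hinv y' (by linarith) hy').2] at e1
      linarith
  have hinv2mono : ∀ y y' : ℝ, 0 ≤ y → y ≤ y' → y' ≤ 2 * (2 * m) ^ d → inv2 y ≤ inv2 y' := by
    intro y y' hy hyy hy'
    rcases hyy.eq_or_lt with h | h
    · rw [h]
    · by_contra hc
      push Not at hc
      have e1 := hmono hc.le
      have e2 := hmono (sub_le_sub_right hc.le 1)
      have e3 := (hinv2 y hy (by linarith)).2
      have e4 := (hinv2 y' (by linarith) hy').2
      linarith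
  obtain ⟨s, ns, hs, hsx, hsn, hw, hns⟩ := h5 m x (fun t => ball m d (inv (x t) + 1)) n hm
    (fun a b hab => hmono (by
      have := hinvmono (x a) (x b) (hx a).1 hab (hx b).2
      linarith))
    (fun t ht => hiso t ht (inv (x t)) (le_of_eq (hinv (x t) (hx t).1 (hx t).2).2))
    hadj
  have hx0 : ∀ i, 0 ≤ x (s i) := fun i => (hx (s i)).1
  have hxt : ∀ i, x (s i) ≤ (2 * m) ^ d := fun i => (hx (s i)).2
  -- pairs
  have hpair : ∀ i < m, 0 < x (s (2 * i)) → ∀ ρ, ball m d ρ + ball m d (ρ - 1) ≤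
      x (s (2 * i)) + x (s (2 * i + 1)) →
      ball m d (ρ + 1) + ball m d (ρ + 1 - 1) ≤ ns (2 * i) + ns (2 * i + 1) := by
    intro i hi hpi ρ hρ
    have e := h4 (ball m d) 2 (fun j => x (s (2 * i + j))) (fun j => ns (2 * i + j))
      (fun j => inv (x (s (2 * i + j)))) ρ (by norm_num) hmono hneg hsg1
      (fun j _ => hinv _ (hx0 _) (hxt _))
      (fun j j' hjj hj' => hinvmono _ _ (hx0 _) (hs _ _ (by omega) (by omega)) (hxt _))
      (hw (2 * i + 0) (by omega) (by simpa using hpi))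
      (fun j hj => hns _ _ (by omega) (by omega) (by omega))
      (fun j hj hjp => hw _ (by omega) hjp)
      (by
        simp only [Finset.sum_range_succ, Finset.sum_range_zero, Nat.cast_zero, Nat.cast_one,
          zero_add, sub_zero, Nat.add_zero]
        exact hρ)
    simp only [Finset.sum_range_succ, Finset.sum_range_zero, Nat.cast_zero, Nat.cast_one,
          zero_add, sub_zero, Nat.add_zero] at e
    exact e
  have hx00 : 0 < x (s 0) := by
    obtain ⟨t, ht⟩ := hpos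
    by_contra hc
    push Not at hc
    have e1 : ∑ i ∈ range (2 * m), x (s i) ≤ 0 := by
      apply Finset.sum_nonpos
      intro i hi
      exact (hs 0 i (Nat.zero_le i) (Finset.mem_range.1 hi)).trans hc
    have e2 : 0 < ∑ t, x t := Finset.sum_pos' (fun t _ => (hx t).1) ⟨t, mem_univ t, ht⟩
    rw [hsx] at e1
    linarith
  have hy0 : ∀ i, 0 ≤ x (s (2 * i)) + x (s (2 * i + 1)) := fun i => add_nonneg (hx0 _) (hx0 _)
  have hyt : ∀ i, x (s (2 * i)) + x (s (2 * i + 1)) ≤ 2 * (2 * m) ^ d := fun i => by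
    have e1 := hxt (2 * i)
    have e2 := hxt (2 * i + 1)
    linarith
  have hypos : ∀ i < m, 0 < x (s (2 * i)) + x (s (2 * i + 1)) → 0 < x (s (2 * i)) := by
    intro i hi hp
    have e1 := hs (2 * i) (2 * i + 1) (by omega) (by omega)
    by_contra hc
    push Not at hc
    linarith
  rw [(h1.2 m d R), ← hsx, step_pairs] at hR
  rw [(h1.2 m d (R + 1)), ← hsn, step_pairs]
  have e := h4 (fun ρ => ball m d ρ + ball m d (ρ - 1)) m
    (fun i => x (s (2 * i)) + x (s (2 * i + 1))) (fun i => ns (2 * i) + ns (2 * i + 1))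
    (fun i => inv2 (x (s (2 * i)) + x (s (2 * i + 1)))) R hm
    (fun a b hab => add_le_add (hmono hab) (hmono (sub_le_sub_right hab 1)))
    (fun t ht => by
      show ball m d t + ball m d (t - 1) = 0
      rw [hneg t ht, hneg (t - 1) (by linarith), add_zero])
    hsg2
    (fun i _ => hinv2 _ (hy0 i) (hyt i))
    (fun i j hij hj => hinv2mono _ _ (hy0 j)
      (add_le_add (hs _ _ (by omega) (by omega)) (hs _ _ (by omega) (by omega))) (hyt i))
    (hpair 0 (by omega) (by simpa using hx00) _ (le_of_eq (hinv2 _ (hy0 0) (hyt 0)).2))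
    (fun i hi => add_le_add (hns _ _ (by omega) (by omega) (by omega))
      (hns _ _ (by omega) (by omega) (by omega)))
    (fun i hi hp => hpair i hi (hypos i hi hp) _ (le_of_eq (hinv2 _ (hy0 i) (hyt i)).2))
    hR
  exact e

end Pool.Agent.Lib.MP_72646e_co.Low
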