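import Pool.Agent.Lib.MP_72646e_co.Low.Stmts

set_option autoImplicit false

/-! L17: `ball` is convex up to radius `m - 1`. -/

namespace Pool.Agent.Lib.MP_72646e_co.Low

open Finset

theorem sub_sph_nonneg (m d : ℕ) (i : ℤ) : 0 ≤ sph m d i := by
  unfold sph
  positivity

theorem sub_sph_neg (m d : ℕ) {i : ℤ} (hi : i < 0) : sph m d i = 0 := by
  unfold sph
  have h : (univ.filter fun x : Fin d → Fin (2 * m) => (nm x : ℤ) = i) = ∅ := by
    apply Finset.filter_eq_empty_iff.2
    intro x _ h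
    omega
  rw [h]
  simp

theorem sub_step (h3 : StRecB) (m d : ℕ) (i : ℤ) (hi : i < m) :
    sph m (d + 1) (i - 1) ≤ sph m (d + 1) i := by
  rw [h3.1, h3.1]
  have key : ∀ n : ℕ, ∑ j ∈ range n, (sph m d (i - j) + sph m d (i - j - 1))
      - ∑ j ∈ range n, (sph m d (i - 1 - j) + sph m d (i - 1 - j - 1))
      = sph m d i + sph m d (i - 1) - sph m d (i - n) - sph m d (i - n - 1) := by
    intro n
    induction n with
    | zero => simp
    | succ n ih =>
      rw [sum_range_succ, sum_range_succ]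
      have e1 : i - 1 - (n : ℤ) = i - n - 1 := by ring
      have e2 : i - ((n + 1 : ℕ) : ℤ) = i - n - 1 := by push_cast; ring
      rw [e1, e2]
      linarith
  have h := key m
  have z1 : sph m d (i - m) = 0 := sub_sph_neg m d (by omega)
  have z2 : sph m d (i - m - 1) = 0 := sub_sph_neg m d (by omega)
  have p1 := sub_sph_nonneg m d i
  have p2 := sub_sph_nonneg m d (i - 1)
  linarith

theorem sub_mono (h3 : StRecB) (m d : ℕ) (j k : ℤ) (hjk : j ≤ k) (hk : k < m) :
    sph m (d + 1) j ≤ sph m (d + 1) k := by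
  revert hk
  refine Int.leInduction (motive := fun k _ => k < m → sph m (d + 1) j ≤ sph m (d + 1) k)
    (fun _ => le_refl _) ?_ k hjk
  intro n hn ih h
  have h1 := sub_step h3 m d (n + 1) h
  have h2 : n + 1 - 1 = n := by ring
  rw [h2] at h1
  exact le_trans (ih (by omega)) h1

theorem sub_cl_zero {x : ℝ} (hx : x ≤ 0) : cl x = 0 := by
  unfold cl
  rw [max_eq_left]
  exact le_trans (min_le_right _ _) hx

theorem sub_cl_one {x : ℝ} (hx : 1 ≤ x) : cl x = 1 := by
  unfold cl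
  rw [min_eq_left hx]
  simp

theorem sub_cl_mid {x : ℝ} (h0 : 0 ≤ x) (h1 : x ≤ 1) : cl x = x := by
  unfold cl
  rw [min_eq_right h1, max_eq_right h0]

theorem sub_cl_nonneg (x : ℝ) : 0 ≤ cl x := le_max_left _ _

theorem sub_cl_le_one (x : ℝ) : cl x ≤ 1 := by
  unfold cl
  exact max_le (by norm_num) (min_le_left _ _)

theorem sub_sum_cl (n : ℕ) (t : ℝ) (ht : 0 ≤ t) : ∑ j ∈ range n, cl (t - j) = min (n : ℝ) t := by
  induction n with
  | zero => simp [ht]
  | succ n ih =>
    rw [sum_range_succ, ih]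
    push_cast
    rcases le_total t n with h | h
    · rw [sub_cl_zero (by linarith), min_eq_right h, min_eq_right (by linarith)]
      ring
    · rcases le_total t (n + 1) with h' | h'
      · rw [sub_cl_mid (by linarith) (by linarith), min_eq_left h, min_eq_right h']
        ring
      · rw [sub_cl_one (by linarith), min_eq_left h, min_eq_left h']

theorem sub_ball_eq (h1 : StBasic) (m d : ℕ) (hm : 1 ≤ m) (ρ : ℝ) (hρ : ρ ≤ (m : ℝ) - 1) :
    ball m (d + 1) ρ = ∑ i ∈ range m, sph m (d + 1) i * cl (ρ + 1 - i) := by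
  obtain ⟨-, -, -, -, -, -, -, -, h⟩ := h1 m (d + 1) hm
  rw [h ρ]
  symm
  apply Finset.sum_subset
  · intro i hi
    rw [mem_range] at hi ⊢
    have : m ≤ (d + 1) * m := Nat.le_mul_of_pos_left m (by omega)
    omega
  · intro i _ hi
    rw [mem_range, not_lt] at hi
    have hi' : (m : ℝ) ≤ i := by exact_mod_cast hi
    rw [sub_cl_zero (by linarith), mul_zero]

theorem sub_conv (h1 : StBasic) (h3 : StRecB) (m d : ℕ) (hm : 1 ≤ m) (a b : ℝ) (ha : -1 ≤ a)
    (ha' : a ≤ (m : ℝ) - 1) (hb : -1 ≤ b) (hb' : b ≤ (m : ℝ) - 1) :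
    ball m (d + 1) a + sph m (d + 1) ⌈a⌉ * (b - a) ≤ ball m (d + 1) b := by
  rw [sub_ball_eq h1 m d hm a ha', sub_ball_eq h1 m d hm b hb']
  have e1 := sub_sum_cl m (a + 1) (by linarith)
  have e2 := sub_sum_cl m (b + 1) (by linarith)
  rw [min_eq_right (by linarith)] at e1 e2
  have e3 : sph m (d + 1) ⌈a⌉ * (b - a) =
      ∑ i ∈ range m, sph m (d + 1) ⌈a⌉ * (cl (b + 1 - i) - cl (a + 1 - i)) := by
    rw [← Finset.mul_sum, Finset.sum_sub_distrib, e1, e2]
    ring
  rw [e3, ← Finset.sum_add_distrib]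
  apply Finset.sum_le_sum
  intro i hi
  rw [mem_range] at hi
  have hceil : a ≤ ⌈a⌉ := Int.le_ceil a
  have hceil' : (⌈a⌉ : ℝ) < a + 1 := Int.ceil_lt_add_one a
  have hkm : ⌈a⌉ < m := by
    have : (⌈a⌉ : ℝ) < m := by linarith
    exact_mod_cast this
  suffices h : 0 ≤ (sph m (d + 1) i - sph m (d + 1) ⌈a⌉) * (cl (b + 1 - i) - cl (a + 1 - i)) by
    linarith
  rcases lt_trichotomy (i : ℤ) ⌈a⌉ with h | h | h
  · have hS := sub_mono h3 m d i ⌈a⌉ h.le hkm
    have h2 : (i : ℝ) + 1 ≤ ⌈a⌉ := by exact_mod_cast h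
    rw [sub_cl_one (x := a + 1 - i) (by linarith)]
    have h3' := sub_cl_le_one (b + 1 - i)
    exact mul_nonneg_of_nonpos_of_nonpos (by linarith) (by linarith)
  · rw [h]
    simp
  · have hS := sub_mono h3 m d ⌈a⌉ i h.le (by exact_mod_cast hi)
    have h2 : (⌈a⌉ : ℝ) + 1 ≤ i := by exact_mod_cast h
    rw [sub_cl_zero (x := a + 1 - i) (by linarith)]
    have h3' := sub_cl_nonneg (b + 1 - i)
    exact mul_nonneg (by linarith) (by linarith)

theorem sub_interp (m d i : ℕ) (s : ℝ) (h0 : 0 ≤ s) (h1 : s ≤ 1) :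
    ball m d (i + s) = (1 - s) * ball m d i + s * ball m d ((i + 1 : ℕ) : ℝ) := by
  unfold ball
  rw [Finset.mul_sum, Finset.mul_sum, ← Finset.sum_add_distrib]
  apply Finset.sum_congr rfl
  intro x _
  push_cast
  rcases Nat.lt_or_ge i (nm x) with h | h
  · rcases Nat.lt_or_ge (i + 1) (nm x) with h' | h'
    · have h2 : (i : ℝ) + 2 ≤ nm x := by exact_mod_cast h'
      rw [sub_cl_zero (by linarith), sub_cl_zero (by linarith), sub_cl_zero (by linarith)]
      ring
    · have h2 : nm x = i + 1 := by omega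
      rw [h2]
      push_cast
      rw [sub_cl_mid (by linarith) (by linarith), sub_cl_zero (by linarith),
        sub_cl_one (by linarith)]
      ring
  · have h2 : (nm x : ℝ) ≤ i := by exact_mod_cast h
    rw [sub_cl_one (by linarith), sub_cl_one (by linarith), sub_cl_one (by linarith)]
    ring

/-- L17. -/
theorem stSub (h1 : StBasic) (h2 : StDel) (h3 : StRecB) : StSub := by
  intro m d hm hd
  obtain ⟨d, rfl⟩ : ∃ e, d = e + 1 := ⟨d - 1, by omega⟩
  have hcard : ∀ i : ℕ, i < m → ball m (d + 1) i = Del (d + 1) i := by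
    intro i hi
    obtain ⟨-, -, -, -, -, -, -, h, -⟩ := h1 m (d + 1) hm
    rw [h i, h2.1 (2 * m) (d + 1) i (by omega)]
  refine ⟨⟨fun a => sph m (d + 1) ⌈a⌉, fun a _ _ => sub_sph_nonneg _ _ _, ?_, ?_⟩, hcard, ?_⟩
  · intro a b _ hab hb
    refine sub_mono h3 m d _ _ (Int.ceil_le_ceil hab) ?_
    have h4 : (⌈b⌉ : ℝ) < b + 1 := Int.ceil_lt_add_one b
    have : (⌈b⌉ : ℝ) < m := by linarith
    exact_mod_cast this
  · intro a b ha ha' hb'
    rcases le_total (-1) b with hb | hb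
    · exact sub_conv h1 h3 m d hm a b ha ha' hb hb'
    · have h5 := sub_conv h1 h3 m d hm a (-1) ha ha' (le_refl _) (by linarith)
      obtain ⟨-, -, h, -⟩ := h1 m (d + 1) hm
      rw [h (-1) (le_refl _)] at h5
      rw [h b hb]
      have h6 := mul_le_mul_of_nonneg_left hb (sub_sph_nonneg m (d + 1) ⌈a⌉)
      linarith
  · intro i s hi h0 hs
    rw [sub_interp m (d + 1) i s h0 hs, hcard i (by omega), hcard (i + 1) hi]

end Pool.Agent.Lib.MP_72646e_co.Low
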