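import Pool.Agent.Lib.MP_72646e_co.Low.Stmts

set_option autoImplicit false

/-! Making all fibres even. -/

namespace Pool.Agent.Lib.MP_72646e_co.Low

open Finset

theorem sym_lee_mod {m : ℕ} (a b : Fin (2 * m)) : lee a b % 2 = (nrm a + nrm b) % 2 := by
  have ha := a.2
  have hb := b.2
  simp only [lee, nrm, Nat.dist]
  omega

theorem sym_dL_mod {m d : ℕ} (x y : Fin d → Fin (2 * m)) :
    dL x y % 2 = (nm x + nm y) % 2 := by
  unfold dL nm
  rw [← Finset.sum_add_distrib, Finset.sum_nat_mod,
    Finset.sum_nat_mod (f := fun i => nrm (x i) + nrm (y i))]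
  simp only [sym_lee_mod]

theorem stSym : StSym := by
  intro m d D h hm hh hD hcon
  classical
  -- the colour of an odd fibre
  have key : ∃ c : ℕ, c < 2 ∧
      (univ.filter fun z => h z % 2 = 1 ∧ (h z / 2 + nm z) % 2 = 1 - c).card ≤
        (univ.filter fun z => h z % 2 = 1 ∧ (h z / 2 + nm z) % 2 = c).card := by
    rcases le_total (univ.filter fun z => h z % 2 = 1 ∧ (h z / 2 + nm z) % 2 = 1).card
      (univ.filter fun z => h z % 2 = 1 ∧ (h z / 2 + nm z) % 2 = 0).card with h1 | h1
    · exact ⟨0, by omega, h1⟩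
    · exact ⟨1, by omega, h1⟩
  obtain ⟨c, hc2, hc⟩ := key
  refine ⟨fun z => h z / 2 + if h z % 2 = 1 ∧ (h z / 2 + nm z) % 2 = c then 1 else 0,
    ?_, ?_, ?_⟩
  · intro z
    have h1 := hh z
    beta_reduce
    split_ifs with h2
    · omega
    · omega
  · intro z z' hz hz'
    have hpar := sym_dL_mod z z'
    have hz0 : 0 < h z := by
      by_contra h0
      have h1 : h z = 0 := by omega
      simp [h1] at hz
    have hz0' : 0 < h z' := by
      by_contra h0
      have h1 : h z' = 0 := by omega
      simp [h1] at hz'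
    have h1 := hcon z z' hz0 hz0'
    beta_reduce
    split_ifs with h2 h3 h3
    · obtain ⟨h2a, h2b⟩ := h2
      obtain ⟨h3a, h3b⟩ := h3
      omega
    · omega
    · omega
    · omega
  · have e1 : ∀ z, h z = 2 * (h z / 2) +
        ((if h z % 2 = 1 ∧ (h z / 2 + nm z) % 2 = c then 1 else 0) +
          (if h z % 2 = 1 ∧ (h z / 2 + nm z) % 2 = 1 - c then 1 else 0)) := by
      intro z
      split_ifs with h1 h2 h2
      · omega
      · omega
      · omega
      · omega
    have e2 : ∑ z, h z = 2 * ∑ z, (h z / 2) +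
        ((univ.filter fun z => h z % 2 = 1 ∧ (h z / 2 + nm z) % 2 = c).card +
          (univ.filter fun z => h z % 2 = 1 ∧ (h z / 2 + nm z) % 2 = 1 - c).card) := by
      rw [Finset.card_filter, Finset.card_filter, ← Finset.sum_add_distrib, Finset.mul_sum,
        ← Finset.sum_add_distrib]
      exact Finset.sum_congr rfl (fun z _ => e1 z)
    rw [e2, Finset.sum_add_distrib, ← Finset.card_filter]
    omega

end Pool.Agent.Lib.MP_72646e_co.Low
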