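import Pool.Agent.Lib.MP_72646e_co.Low.Stmts

set_option autoImplicit false

/-! L21: the upper bound. -/

namespace Pool.Agent.Lib.MP_72646e_co.Low

open Finset

theorem upper_tgt (h7 : StSub) (m d D : ℕ) (hm : 1 ≤ m) (hd : 1 ≤ d) (hD : D < 2 * m) :
    tgt m d D = ((∑ k ∈ range (D + 1), Del d ((D - k) / 2) : ℕ) : ℝ) := by
  have h := (h7 m d hm hd).2.1
  unfold tgt
  push_cast
  refine Finset.sum_congr rfl fun k _ => ?_
  exact h _ (by omega)

theorem upper_del_zero (d : ℕ) : Del d 0 = 1 := by
  unfold Del
  rw [Finset.sum_range_succ']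
  simp

theorem upper_del_one (d : ℕ) (hd : 1 ≤ d) : Del d 1 = 1 + 2 * d := by
  unfold Del
  obtain ⟨e, rfl⟩ : ∃ e, d = e + 1 := ⟨d - 1, by omega⟩
  rw [Finset.sum_range_succ', Finset.sum_range_succ']
  have : ∑ k ∈ range e, 2 ^ (k + 1 + 1) * (e + 1).choose (k + 1 + 1) * Nat.choose 1 (k + 1 + 1)
      = 0 := by
    refine Finset.sum_eq_zero fun k _ => ?_
    rw [Nat.choose_eq_zero_of_lt (by omega : 1 < k + 1 + 1)]
    simp
  rw [this]
  simp
  omega

theorem stUpper (_h0 : StBasic) (h1 : StRed) (h2 : StEven) (h3 : StOdd) (h4 : StRad) (h5 : StOpt)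
    (h6 : StFive) (h7 : StSub) : StUpper := by
  intro m d D hm hd hD
  obtain ⟨A, hA, hs⟩ := h1 m d D (by omega) hD
  rw [← hs]
  have htg := upper_tgt h7 m d D (by omega) (by omega) hD
  by_cases hf : A (2 * m) = ∅
  · have key : ((∑ k ∈ range (2 * m + 1), (A k).card : ℕ) : ℝ) ≤ tgt m d D := by
      rcases Nat.even_or_odd' D with ⟨R, hR | hR⟩
      · subst hR
        exact h2 m d R A (by omega) (by omega) (by omega) hA hf
      · subst hR
        exact h3 m d R A (by omega) hd (by omega) hA hf
    rw [htg] at key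
    have key2 := Nat.cast_le.1 key
    omega
  · have hne : (A (2 * m)).Nonempty := Finset.nonempty_iff_ne_empty.2 hf
    have hneK : ∀ k ≤ 2 * m, (A k).Nonempty := fun k hk => hne.mono (hA.1 k _ hk)
    have hmD : m ≤ D := by
      obtain ⟨x, hx⟩ := hne
      have := hA.2 (2 * m) le_rfl (2 * m) le_rfl x hx x hx
      unfold cc at this
      have h : min m ((2 * m + 2 * m + 1) / 2) = m := by
        apply min_eq_left
        omega
      omega
    by_cases hex : D = m + 1 ∧ m = 2
    · obtain ⟨hD2, rfl⟩ := hex
      subst hD2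
      have := h6 d A hd hA hne
      have e : ∑ k ∈ range (2 + 1 + 1), Del d ((2 + 1 - k) / 2) = 4 * d + 4 := by
        simp only [Finset.sum_range_succ, Finset.range_zero, Finset.sum_empty]
        norm_num [upper_del_zero, upper_del_one d (by omega)]
        omega
      rw [e]
      norm_num at this ⊢
      omega
    · obtain ⟨rad, hr1, hr2, hr3⟩ := h4 m d (by omega)
      obtain ⟨δ, rfl⟩ : ∃ δ, D = m + δ := ⟨D - m, by omega⟩
      obtain ⟨g, hg⟩ : ∃ g, m = δ + g := ⟨m - δ, by omega⟩
      have hcard : ∀ k ≤ 2 * m, 1 ≤ (A k).card ∧ (A k).card ≤ (2 * m) ^ d := by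
        intro k hk
        refine ⟨Finset.card_pos.2 (hneK k hk), ?_⟩
        calc (A k).card ≤ (univ : Finset (Fin d → Fin (2 * m))).card := Finset.card_le_univ _
          _ = (2 * m) ^ d := by simp
      have hmono : ∀ k l, k ≤ l → (A l).card ≤ (A k).card := fun k l hkl =>
        Finset.card_le_card (hA.1 k l hkl)
      have hopt := h5 m d δ g (fun k => rad (A k).card) hd (by omega) hg (by omega) (by omega)
        (fun k hk => (hr1 _ (hcard k hk).1 (hcard k hk).2).1)
        (fun k l hkl hl => hr2 _ _ (hcard l hl).1 (hmono k l hkl) (hcard k (by omega)).2)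
        (by
          intro k l hk hl
          have hccD : cc m k l ≤ m + δ := by
            obtain ⟨x, hx⟩ := hneK k hk
            obtain ⟨y, hy⟩ := hneK l hl
            have := hA.2 k hk l hl x hx y hy
            omega
          have hdm : 2 * m ≤ d * m := Nat.mul_le_mul_right m hd
          have := hr3 (A k) (A l) (m + δ - cc m k l) (by omega) (hneK k hk) (hneK l hl)
            (by
              intro x hx y hy
              have := hA.2 k hk l hl x hx y hy
              omega)
          rw [Nat.cast_sub hccD] at this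
          push_cast at this
          linarith)
      have hsum : ∑ k ∈ range (2 * m + 1), ball m d (rad (A k).card) =
          ((∑ k ∈ range (2 * m + 1), (A k).card : ℕ) : ℝ) := by
        push_cast
        refine Finset.sum_congr rfl fun k hk => ?_
        have hk' : k ≤ 2 * m := by
          have := Finset.mem_range.1 hk
          omega
        exact (hr1 _ (hcard k hk').1 (hcard k hk').2).2
      beta_reduce at hopt
      rw [hsum, htg] at hopt
      by_cases hg1 : g = 1
      · rw [if_pos hg1] at hopt
        rw [if_pos (by omega)]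
        exact_mod_cast hopt
      · rw [if_neg hg1] at hopt
        rw [if_neg (by omega)]
        have : ((∑ k ∈ range (2 * m + 1), (A k).card : ℕ) : ℝ) ≤
          ((∑ k ∈ range (m + δ + 1), Del d ((m + δ - k) / 2) : ℕ) : ℝ) := by linarith
        have := Nat.cast_le.1 this
        omega

end Pool.Agent.Lib.MP_72646e_co.Low
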