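import Pool.Agent.Lib.MP_72646e_co.Low.Stmts

set_option autoImplicit false

/-! Weak majorisation. -/

namespace Pool.Agent.Lib.MP_72646e_co.Low

open Finset

theorem wm_abel (N : ℕ) (b e : ℕ → ℝ) (hb : ∀ i < N, 0 ≤ b i)
    (hbm : ∀ i j, i ≤ j → j < N → b j ≤ b i)
    (he : ∀ j ≤ N, 0 ≤ ∑ i ∈ range j, e i) :
    ∀ j, j + 1 ≤ N → b j * ∑ i ∈ range (j + 1), e i ≤ ∑ i ∈ range (j + 1), b i * e i := by
  intro j
  induction j with
  | zero => intro _; simp
  | succ k ih =>
    intro hk
    have h1 := ih (by omega)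
    have h2 : b (k + 1) * ∑ i ∈ range (k + 1), e i ≤ b k * ∑ i ∈ range (k + 1), e i :=
      mul_le_mul_of_nonneg_right (hbm k (k + 1) (by omega) (by omega)) (he _ (by omega))
    rw [sum_range_succ _ (k + 1), sum_range_succ _ (k + 1), mul_add]
    linarith

theorem stWM : StWM := by
  intro f M N r t hf hr hrm hsum
  obtain ⟨β, hβ0, hβm, hβ⟩ := hf
  have h1 : ∀ i ∈ range N, f (r i) + β (r i) * (t i - r i) ≤ f (t i) := by
    intro i hi
    obtain ⟨ha, hb, hc⟩ := hr i (mem_range.mp hi)
    exact hβ _ _ ha hb hc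
  have h2 := sum_le_sum h1
  rw [sum_add_distrib] at h2
  have h3 : 0 ≤ ∑ i ∈ range N, β (r i) * (t i - r i) := by
    rcases Nat.eq_zero_or_pos N with h0 | h0
    · subst h0; simp
    · have h4 := wm_abel N (fun i => β (r i)) (fun i => t i - r i)
        (by
          intro i hi
          obtain ⟨ha, hb, hc⟩ := hr i hi
          exact hβ0 _ ha hb)
        (by
          intro i j hij hj
          obtain ⟨ha, hb, hc⟩ := hr i (by omega)
          obtain ⟨ha', hb', hc'⟩ := hr j hj
          exact hβm _ _ ha' (hrm i j hij hj) hb)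
        (by
          intro j hj
          rw [sum_sub_distrib]
          have := hsum j hj
          linarith)
        (N - 1) (by omega)
      rw [show N - 1 + 1 = N by omega] at h4
      refine le_trans ?_ h4
      obtain ⟨ha, hb, hc⟩ := hr (N - 1) (by omega)
      refine mul_nonneg (hβ0 _ ha hb) ?_
      rw [sum_sub_distrib]
      have := hsum N le_rfl
      linarith
  linarith

end Pool.Agent.Lib.MP_72646e_co.Low
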