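import Pool.Agent.Lib.MP_72646e_co.Low.Rec
import Pool.Agent.Lib.MP_72646e_co.Low.LC
import Pool.Agent.Lib.MP_72646e_co.Low.Basic
import Pool.Agent.Lib.MP_72646e_co.Low.SG
import Pool.Agent.Lib.MP_72646e_co.Low.Path
import Pool.Agent.Lib.MP_72646e_co.Low.Sort
import Pool.Agent.Lib.MP_72646e_co.Low.Step
import Pool.Agent.Lib.MP_72646e_co.Low.Iso
import Pool.Agent.Lib.MP_72646e_co.Low.Rad
import Pool.Agent.Lib.MP_72646e_co.Low.Comp
import Pool.Agent.Lib.MP_72646e_co.Low.Red
import Pool.Agent.Lib.MP_72646e_co.Low.Even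
import Pool.Agent.Lib.MP_72646e_co.Low.Sym
import Pool.Agent.Lib.MP_72646e_co.Low.Odd
import Pool.Agent.Lib.MP_72646e_co.Low.WM
import Pool.Agent.Lib.MP_72646e_co.Low.Del
import Pool.Agent.Lib.MP_72646e_co.Low.Sub
import Pool.Agent.Lib.MP_72646e_co.Low.Grow
import Pool.Agent.Lib.MP_72646e_co.Low.Opt
import Pool.Agent.Lib.MP_72646e_co.Low.Five
import Pool.Agent.Lib.MP_72646e_co.Low.Upper
import Pool.Agent.Lib.MP_72646e_co.Low.Lower

set_option autoImplicit false

/-! Assembly: the exact value of `NL (2 m + 1) (d + 1) D` for `m ≥ 2`, `d ≥ 2`, `D < 2 m`. -/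

namespace Pool.Agent.Lib.MP_72646e_co.Low

open Finset

theorem upper : StUpper := by
  have hRecB : StRecB := stRecB stRec
  have hLC : StLC := stLC hRecB
  have hBasic : StBasic := stBasic
  have hSGB : StSGB := stSGB stSG hLC hBasic
  have hStep : StStep := stStep hRecB hBasic hSGB stPath stSort
  have hIso : StIso := stIso hBasic hStep
  have hRad : StRad := stRad hBasic hIso
  have hRed : StRed := stRed stComp
  have hEven : StEven := stEven hRecB hBasic hRad
  have hSub : StSub := stSub hBasic stDel hRecB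
  have hOdd : StOdd := stOdd hBasic hRad stSym stWM hSub
  have hGrow : StGrow := stGrow hSub stDel
  have hOpt : StOpt := stOpt hBasic stWM hSub hGrow stDel
  exact stUpper hBasic hRed hEven hOdd hRad hOpt stFive hSub

theorem lower : StLower := stLower stDel

theorem exact (m d D : ℕ) (hm : 2 ≤ m) (hd : 2 ≤ d) (hD : D < 2 * m) :
    NL (2 * m + 1) (d + 1) D =
      ∑ k ∈ range (D + 1), Del d ((D - k) / 2) + (if D + 1 = 2 * m then 1 else 0) ∧
    (∀ x ∈ extSet m d D, ∀ y ∈ extSet m d D, dL x y ≤ D) ∧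
    (extSet m d D).card = NL (2 * m + 1) (d + 1) D := by
  obtain ⟨h1, h2⟩ := lower m d D (by omega) hD
  have h3 := upper m d D hm hd hD
  have h4 := card_le_NL h1
  have h5 : NL (2 * m + 1) (d + 1) D =
      ∑ k ∈ range (D + 1), Del d ((D - k) / 2) + (if D + 1 = 2 * m then 1 else 0) := by omega
  exact ⟨h5, h1, by omega⟩

end Pool.Agent.Lib.MP_72646e_co.Low
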