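import Pool.Agent.Lib.MP_72646e_co.Low.Stmts

set_option autoImplicit false

/-! Sums over the torus of dimension `d + 1`. -/

namespace Pool.Agent.Lib.MP_72646e_co.Low

open Finset

theorem rec_fin (m : ℕ) (g : ℕ → ℝ) :
    ∑ t : Fin (2 * m), g (nrm t) = ∑ j ∈ range m, (g j + g (j + 1)) := by
  have h1 : ∑ t : Fin (2 * m), g (nrm t) = ∑ i ∈ range (2 * m), g (min i (2 * m - i)) := by
    rw [Finset.sum_range]
    rfl
  rw [h1, two_mul, Finset.sum_range_add, Finset.sum_add_distrib]
  congr 1
  · apply Finset.sum_congr rfl
    intro i hi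
    rw [Finset.mem_range] at hi
    congr 1
    omega
  · rw [← Finset.sum_range_reflect]
    apply Finset.sum_congr rfl
    intro i hi
    rw [Finset.mem_range] at hi
    congr 1
    omega

theorem rec_nm {q d : ℕ} (t : Fin q) (y : Fin d → Fin q) :
    nm (Fin.cons t y : Fin (d + 1) → Fin q) = nm y + nrm t := by
  simp only [nm, Fin.sum_univ_succ, Fin.cons_zero, Fin.cons_succ]
  exact Nat.add_comm _ _

theorem stRec : StRec := by
  intro m d f
  have h1 : ∑ x : Fin (d + 1) → Fin (2 * m), f (nm x) =
      ∑ p : Fin (2 * m) × (Fin d → Fin (2 * m)), f (nm p.2 + nrm p.1) := by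
    rw [← (Fin.consEquiv (fun _ : Fin (d + 1) => Fin (2 * m))).sum_comp]
    apply Finset.sum_congr rfl
    intro p _
    rw [← rec_nm]
    rfl
  rw [h1, Fintype.sum_prod_type_right]
  conv_rhs => rw [Finset.sum_comm]
  apply Finset.sum_congr rfl
  intro y _
  exact rec_fin m (fun k => f (nm y + k))

theorem stRecB (h : StRec) : StRecB := by
  constructor
  · intro m d i
    have e : ∀ (d' : ℕ) (k : ℤ), sph m d' k =
        ∑ x : Fin d' → Fin (2 * m), (if ((nm x : ℕ) : ℤ) = k then (1 : ℝ) else 0) := by
      intro d' k
      rw [sph, Finset.card_filter]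
      push_cast
      rfl
    rw [e, h m d (fun k => if ((k : ℕ) : ℤ) = i then (1 : ℝ) else 0)]
    apply Finset.sum_congr rfl
    intro j _
    rw [Finset.sum_add_distrib, e, e]
    congr 1
    · apply Finset.sum_congr rfl
      intro y _
      congr 1
      simp only [Nat.cast_add, eq_iff_iff]
      constructor <;> intro h <;> linarith
    · apply Finset.sum_congr rfl
      intro y _
      congr 1
      simp only [Nat.cast_add, Nat.cast_one, eq_iff_iff]
      constructor <;> intro h <;> linarith
  · intro m d ρ
    rw [ball, h m d (fun k => cl (ρ + 1 - k))]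
    apply Finset.sum_congr rfl
    intro j _
    rw [Finset.sum_add_distrib, ball, ball]
    congr 1
    · apply Finset.sum_congr rfl
      intro y _
      congr 1
      push_cast
      ring
    · apply Finset.sum_congr rfl
      intro y _
      congr 1
      push_cast
      ring

end Pool.Agent.Lib.MP_72646e_co.Low
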