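import Pool.Agent.Lib.MP_72646e_co.Cross

set_option autoImplicit false

/-! Project Low: the exact solution of the diametric problem for the Lee metric, `q = 2 m + 1 ≥ 5`,
`n = d + 1 ≥ 3`, `D ≤ q - 2`. Definitions and the statements of the modules. -/

namespace Pool.Agent.Lib.MP_72646e_co.Low

open Finset

/-- Lee weight of an element of the cycle of length `q`. -/
def nrm {q : ℕ} (a : Fin q) : ℕ := min (a : ℕ) (q - (a : ℕ))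

/-- Lee weight of a vector. -/
def nm {q d : ℕ} (x : Fin d → Fin q) : ℕ := ∑ i, nrm (x i)

/-- `min m ⌈(k + l) / 2⌉`. -/
def cc (m k l : ℕ) : ℕ := min m ((k + l + 1) / 2)

/-- Delannoy numbers. -/
def Del (d r : ℕ) : ℕ := ∑ i ∈ range (d + 1), 2 ^ i * d.choose i * r.choose i

/-- The truncation of `x` to `[0, 1]`. -/
noncomputable def cl (x : ℝ) : ℝ := max 0 (min 1 x)

/-- Sphere sizes of the even torus. -/
noncomputable def sph (m d : ℕ) (i : ℤ) : ℝ :=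
  ((univ.filter fun x : Fin d → Fin (2 * m) => (nm x : ℤ) = i).card : ℝ)

/-- The size of the (fractional) ball of radius `ρ` of the even torus `(ℤ/2m)^d`. -/
noncomputable def ball (m d : ℕ) (ρ : ℝ) : ℝ := ∑ x : Fin d → Fin (2 * m), cl (ρ + 1 - nm x)

open scoped Classical in
/-- The closed `r`-neighbourhood. -/
noncomputable def nbh {q d : ℕ} (r : ℕ) (X : Finset (Fin d → Fin q)) : Finset (Fin d → Fin q) :=
  univ.filter fun y => ∃ x ∈ X, dL x y ≤ r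

/-- Isoperimetric supergradients. -/
def SGrad (f : ℝ → ℝ) : Prop :=
  ∃ G : ℝ → ℝ, (∀ ρ, -1 ≤ ρ → 0 ≤ G ρ) ∧ (∀ ρ σ, -1 ≤ ρ → ρ ≤ σ → G σ ≤ G ρ) ∧
    ∀ ρ σ, -1 ≤ ρ → -1 ≤ σ → f (σ + 1) ≤ f (ρ + 1) + G ρ * (f σ - f ρ)

/-- Nonnegative nondecreasing subgradients of `f` on `[-1, M]`. -/
def SubG (f : ℝ → ℝ) (M : ℝ) : Prop :=
  ∃ β : ℝ → ℝ, (∀ a, -1 ≤ a → a ≤ M → 0 ≤ β a) ∧
    (∀ a b, -1 ≤ a → a ≤ b → b ≤ M → β a ≤ β b) ∧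
    ∀ a b, -1 ≤ a → a ≤ M → b ≤ M → f a + β a * (b - a) ≤ f b

/-- The target value. -/
noncomputable def tgt (m d D : ℕ) : ℝ := ∑ k ∈ range (D + 1), ball m d (((D - k) / 2 : ℕ) : ℝ)

/-! ### The profile of the even torus -/

/-- L1: sums over the torus of dimension `d + 1`. -/
def StRec : Prop :=
  ∀ (m d : ℕ) (f : ℕ → ℝ), ∑ x : Fin (d + 1) → Fin (2 * m), f (nm x) =
    ∑ j ∈ range m, ∑ y : Fin d → Fin (2 * m), (f (nm y + j) + f (nm y + (j + 1)))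

/-- L1b: consequences. -/
def StRecB : Prop :=
  (∀ (m d : ℕ) (i : ℤ), sph m (d + 1) i =
    ∑ j ∈ range m, (sph m d (i - j) + sph m d (i - j - 1))) ∧
  (∀ (m d : ℕ) (ρ : ℝ), ball m (d + 1) ρ =
    ∑ j ∈ range m, (ball m d (ρ - j) + ball m d (ρ - j - 1)))

/-- L2: the sphere sizes are log-concave, positive exactly on `[0, d m]`. -/
def StLC : Prop :=
  ∀ (m d : ℕ), 1 ≤ m →
    (∀ a b : ℤ, a ≤ b → sph m d (a - 1) * sph m d (b + 1) ≤ sph m d a * sph m d b) ∧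
    (∀ a : ℤ, 0 ≤ a → a ≤ d * m → 0 < sph m d a) ∧ (∀ a : ℤ, a < 0 ∨ (d * m : ℤ) < a → sph m d a = 0)

/-- L3: elementary properties of `ball`. -/
def StBasic : Prop :=
  ∀ (m d : ℕ), 1 ≤ m →
    Monotone (ball m d) ∧ Continuous (ball m d) ∧ (∀ ρ, ρ ≤ -1 → ball m d ρ = 0) ∧
    ball m d 0 = 1 ∧ (∀ ρ : ℝ, (d * m : ℝ) ≤ ρ → ball m d ρ = (2 * m) ^ d) ∧
    (∀ ρ : ℝ, ball m d ρ + ball m d (d * m - 1 - ρ) = (2 * m) ^ d) ∧
    (∀ ρ σ : ℝ, -1 ≤ ρ → ρ < σ → σ ≤ d * m → ball m d ρ < ball m d σ) ∧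
    (∀ r : ℕ, ball m d r = ((univ.filter fun x : Fin d → Fin (2 * m) => nm x ≤ r).card : ℝ)) ∧
    (∀ ρ : ℝ, ball m d ρ = ∑ i ∈ range (d * m + 1), sph m d i * cl (ρ + 1 - i))

/-- L4: supergradients from log-concave sequences (abstract). -/
def StSG : Prop :=
  ∀ (S : ℤ → ℝ) (L : ℕ), (∀ a b : ℤ, a ≤ b → S (a - 1) * S (b + 1) ≤ S a * S b) →
    (∀ a : ℤ, 0 ≤ a → a ≤ L → 0 < S a) → (∀ a : ℤ, a < 0 ∨ (L : ℤ) < a → S a = 0) →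
    SGrad (fun ρ => ∑ i ∈ range (L + 1), S i * cl (ρ + 1 - i)) ∧
    SGrad (fun ρ => ∑ i ∈ range (L + 1), S i * cl (ρ + 1 - i) +
      ∑ i ∈ range (L + 1), S i * cl (ρ - i))

/-- L4b: supergradients for `ball`. -/
def StSGB : Prop :=
  ∀ (m d : ℕ), 1 ≤ m → SGrad (ball m d) ∧ SGrad (fun ρ => ball m d ρ + ball m d (ρ - 1))

/-! ### The isoperimetric theorem -/

/-- L5: the path lemma. -/
def StPath : Prop :=
  ∀ (f : ℝ → ℝ) (k : ℕ) (y z ρ : ℕ → ℝ) (R : ℝ), 1 ≤ k → Monotone f → (∀ t, t ≤ -1 → f t = 0) →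
    SGrad f → (∀ i < k, -1 ≤ ρ i ∧ f (ρ i) = y i) → (∀ i j, i ≤ j → j < k → ρ j ≤ ρ i) →
    f (ρ 0 + 1) ≤ z 0 → (∀ i, i + 1 < k → y i ≤ z (i + 1)) →
    (∀ i < k, 0 < y i → f (ρ i + 1) ≤ z i) →
    ∑ i ∈ range k, f (R - i) ≤ ∑ i ∈ range k, y i →
    ∑ i ∈ range k, f (R + 1 - i) ≤ ∑ i ∈ range k, z i

/-- L6: sorting the sections. -/
def StSort : Prop :=
  ∀ (m : ℕ) (x w n : Fin (2 * m) → ℝ), 1 ≤ m → (∀ s t, x s ≤ x t → w s ≤ w t) →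
    (∀ t, 0 < x t → w t ≤ n t) → (∀ s t, lee s t ≤ 1 → x s ≤ n t) →
    ∃ (s : ℕ → Fin (2 * m)) (ns : ℕ → ℝ), (∀ i j, i ≤ j → j < 2 * m → x (s j) ≤ x (s i)) ∧
      ∑ i ∈ range (2 * m), x (s i) = ∑ t, x t ∧ ∑ i ∈ range (2 * m), ns i = ∑ t, n t ∧
      (∀ i < 2 * m, 0 < x (s i) → w (s i) ≤ ns i) ∧
      (∀ i j, i < 2 * m → j < 2 * m → j ≤ i + 2 → x (s i) ≤ ns j)

/-- L7: the numerical induction step. -/
def StStep : Prop :=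
  ∀ (m d : ℕ) (x n : Fin (2 * m) → ℝ), 1 ≤ m → (∀ t, 0 ≤ x t ∧ x t ≤ (2 * m) ^ d) →
    (∃ t, 0 < x t) → (∀ t, 0 < x t → ∀ ρ, ball m d ρ ≤ x t → ball m d (ρ + 1) ≤ n t) →
    (∀ s t, lee s t ≤ 1 → x s ≤ n t) →
    ∀ R, ball m (d + 1) R ≤ ∑ t, x t → ball m (d + 1) (R + 1) ≤ ∑ t, n t

/-- L8: the isoperimetric theorem. -/
def StIso : Prop :=
  ∀ (m d : ℕ) (X : Finset (Fin d → Fin (2 * m))) (ρ : ℝ), 1 ≤ m → X.Nonempty →
    ball m d ρ ≤ X.card → ball m d (ρ + 1) ≤ (nbh 1 X).card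

/-- L9: radii of sets with bounded cross distances. -/
def StRad : Prop :=
  ∀ m d : ℕ, 1 ≤ m → ∃ rad : ℕ → ℝ,
    (∀ k, 1 ≤ k → k ≤ (2 * m) ^ d → 0 ≤ rad k ∧ ball m d (rad k) = k) ∧
    (∀ k l, 1 ≤ k → k ≤ l → l ≤ (2 * m) ^ d → rad k ≤ rad l) ∧
    ∀ (X Y : Finset (Fin d → Fin (2 * m))) (c : ℕ), c < d * m → X.Nonempty → Y.Nonempty →
      (∀ x ∈ X, ∀ y ∈ Y, dL x y ≤ c) → rad X.card + rad Y.card ≤ c

/-! ### Reduction to families of subsets of the even torus -/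

/-- L10: compression. -/
def StComp : Prop :=
  ∀ m n D : ℕ, ∃ A : Finset (Fin n → Fin (2 * m + 1)), A.card = NL (2 * m + 1) n D ∧
    ∀ x ∈ A, ∀ y ∈ A, ∑ i, cc m (x i) (y i) ≤ D

/-- A family of sections. -/
def Fam (m d D : ℕ) (A : ℕ → Finset (Fin d → Fin (2 * m))) : Prop :=
  (∀ k l, k ≤ l → A l ⊆ A k) ∧
  ∀ k ≤ 2 * m, ∀ l ≤ 2 * m, ∀ x ∈ A k, ∀ y ∈ A l, cc m k l + dL x y ≤ D

/-- L11: reduction to families of sections. -/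
def StRed : Prop :=
  ∀ (m d D : ℕ), 1 ≤ m → D < 2 * m → ∃ A : ℕ → Finset (Fin d → Fin (2 * m)), Fam m d D A ∧
    ∑ k ∈ range (2 * m + 1), (A k).card = NL (2 * m + 1) (d + 1) D

/-- L12: no full fibre, `D` even. -/
def StEven : Prop :=
  ∀ (m d R : ℕ) (A : ℕ → Finset (Fin d → Fin (2 * m))), 1 ≤ m → 1 ≤ d → R < m →
    Fam m d (2 * R) A → A (2 * m) = ∅ →
    ((∑ k ∈ range (2 * m + 1), (A k).card : ℕ) : ℝ) ≤ tgt m d (2 * R)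

/-- L13: making all fibres even. -/
def StSym : Prop :=
  ∀ (m d D : ℕ) (h : (Fin d → Fin (2 * m)) → ℕ), 1 ≤ m → (∀ z, h z ≤ 2 * m) → D % 2 = 1 →
    (∀ z z', 0 < h z → 0 < h z' → min m ((h z + h z' - 1) / 2) + dL z z' ≤ D) →
    ∃ g : (Fin d → Fin (2 * m)) → ℕ, (∀ z, g z ≤ m) ∧
      (∀ z z', 0 < g z → 0 < g z' → min m (g z + g z' - 1) + dL z z' ≤ D) ∧
      ∑ z, h z ≤ 2 * ∑ z, g z

/-- L14: no full fibre, `D` odd. -/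
def StOdd : Prop :=
  ∀ (m d R : ℕ) (A : ℕ → Finset (Fin d → Fin (2 * m))), 1 ≤ m → 2 ≤ d → R < m →
    Fam m d (2 * R + 1) A → A (2 * m) = ∅ →
    ((∑ k ∈ range (2 * m + 1), (A k).card : ℕ) : ℝ) ≤ tgt m d (2 * R + 1)

/-! ### Optimisation -/

/-- L15: weak majorisation. -/
def StWM : Prop :=
  ∀ (f : ℝ → ℝ) (M : ℝ) (N : ℕ) (r t : ℕ → ℝ), SubG f M →
    (∀ i < N, -1 ≤ r i ∧ r i ≤ M ∧ t i ≤ M) → (∀ i j, i ≤ j → j < N → r j ≤ r i) →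
    (∀ j ≤ N, ∑ i ∈ range j, r i ≤ ∑ i ∈ range j, t i) →
    ∑ i ∈ range N, f (r i) ≤ ∑ i ∈ range N, f (t i)

/-- L16: counting vectors of small Lee weight, and the recursion for the Delannoy numbers. -/
def StDel : Prop :=
  (∀ q d r : ℕ, 2 * r < q → (univ.filter fun x : Fin d → Fin q => nm x ≤ r).card = Del d r) ∧
  (∀ d r : ℕ, Del (d + 1) (r + 1) = Del (d + 1) r + Del d (r + 1) + Del d r) ∧
  (∀ d : ℕ, Del d 0 = 1) ∧ (∀ r : ℕ, Del 0 r = 1)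

/-- L17: `ball` is convex up to radius `m - 1`, with the slopes known. -/
def StSub : Prop :=
  ∀ (m d : ℕ), 1 ≤ m → 1 ≤ d → SubG (ball m d) ((m : ℝ) - 1) ∧
    (∀ i : ℕ, i < m → ball m d i = Del d i) ∧
    (∀ (i : ℕ) (s : ℝ), i + 1 < m → 0 ≤ s → s ≤ 1 →
      ball m d (i + s) = (1 - s) * Del d i + s * Del d (i + 1))

/-- L18: growth of the sizes of balls. -/
def StGrow : Prop :=
  ∀ (m d δ : ℕ), 2 ≤ d → 2 ≤ δ → δ < m → 3 * ball m d ((δ : ℝ) / 2) ≤ ball m d δ + 2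

/-- L19: the optimisation problem in the presence of a full fibre. -/
def StOpt : Prop :=
  ∀ (m d δ g : ℕ) (r : ℕ → ℝ), 2 ≤ d → 1 ≤ g → m = δ + g → 2 ≤ m → (δ = 1 → 2 ≤ g) →
    (∀ k ≤ 2 * m, 0 ≤ r k) → (∀ k l, k ≤ l → l ≤ 2 * m → r l ≤ r k) →
    (∀ k l, k ≤ 2 * m → l ≤ 2 * m → r k + r l ≤ (m : ℝ) + δ - cc m k l) →
    ∑ k ∈ range (2 * m + 1), ball m d (r k) ≤ tgt m d (m + δ) + (if g = 1 then 1 else 0)

/-- L20: the exceptional case `q = 5`, `D = 3`. -/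
def StFive : Prop :=
  ∀ (d : ℕ) (A : ℕ → Finset (Fin d → Fin (2 * 2))), 2 ≤ d → Fam 2 d 3 A → (A 4).Nonempty →
    ∑ k ∈ range 5, (A k).card ≤ 4 * d + 5

/-- L21: the upper bound. -/
def StUpper : Prop :=
  ∀ (m d D : ℕ), 2 ≤ m → 2 ≤ d → D < 2 * m →
    NL (2 * m + 1) (d + 1) D ≤
      ∑ k ∈ range (D + 1), Del d ((D - k) / 2) + (if D + 1 = 2 * m then 1 else 0)

/-! ### The extremal sets -/

/-- The rank of an element of the odd cycle in the order `0, 1, -1, 2, -2, ...`. -/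
def rk {m : ℕ} (a : Fin (2 * m + 1)) : ℕ :=
  if (a : ℕ) ≤ m then 2 * (a : ℕ) - 1 else 2 * (2 * m + 1 - (a : ℕ))

/-- The extremal set. -/
def extSet (m d D : ℕ) : Finset (Fin (d + 1) → Fin (2 * m + 1)) :=
  univ.filter fun x => rk (x 0) + 2 * ∑ i : Fin d, nrm (x i.succ) ≤ D ∨
    (D + 1 = 2 * m ∧ (x 0 : ℕ) = m + 1 ∧ ∀ i : Fin d, (x i.succ : ℕ) = 0)

/-- L22: the extremal set. -/
def StLower : Prop :=
  ∀ (m d D : ℕ), 1 ≤ m → D < 2 * m →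
    (∀ x ∈ extSet m d D, ∀ y ∈ extSet m d D, dL x y ≤ D) ∧
    (extSet m d D).card =
      ∑ k ∈ range (D + 1), Del d ((D - k) / 2) + (if D + 1 = 2 * m then 1 else 0)

end Pool.Agent.Lib.MP_72646e_co.Low
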